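import Mathlib
import Pool.Agent.Helper943.LM.Words

set_option autoImplicit false

namespace Pool.Agent.TH109

open Pool.Agent.Helper943.LM (UA)

section hnn
variable {H : Type} [Group H] {A B : Subgroup H}

/-- The `t`-length on an HNN-extension, with the facts that make the Bass-Serre tree a tree.
`nm g` is the number of letters `t^{±1}` in a reduced word for `g`. -/
structure HLen (φ : A ≃* B) where
  nm : HNNExtension H A B φ → ℕ
  nm_one : nm 1 = 0
  nm_inv : ∀ g, nm g⁻¹ = nm g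
  nm_mul : ∀ g h, nm (g * h) ≤ nm g + nm h
  nm_zero : ∀ g, nm g = 0 ↔ ∃ h : H, g = HNNExtension.of h
  nm_t : nm HNNExtension.t = 1
  nm_of : ∀ (h h' : H) (g : HNNExtension H A B φ),
    nm (HNNExtension.of h * g * HNNExtension.of h') = nm g
  nm_step : ∀ (g : HNNExtension H A B φ) (u : ℤˣ),
    nm (HNNExtension.t ^ (u : ℤ) * g) = nm g + 1 ∨ nm (HNNExtension.t ^ (u : ℤ) * g) + 1 = nm g
  /-- every element of positive length has a first direction -/
  dir_ex : ∀ g, 0 < nm g → ∃ (h : H) (u : ℤˣ),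
    nm ((HNNExtension.of h * HNNExtension.t ^ (u : ℤ))⁻¹ * g) + 1 = nm g
  /-- the first direction is unique -/
  dir_unique : ∀ (g : HNNExtension H A B φ) (h h' : H) (u u' : ℤˣ),
    nm ((HNNExtension.of h * HNNExtension.t ^ (u : ℤ))⁻¹ * g) + 1 = nm g →
    nm ((HNNExtension.of h' * HNNExtension.t ^ (u' : ℤ))⁻¹ * g) + 1 = nm g →
    u = u' ∧ h⁻¹ * h' ∈ HNNExtension.toSubgroup A B (-u)
  /-- without a common first direction lengths add up -/
  dir_add : ∀ g g', (∀ (h : H) (u : ℤˣ),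
      ¬ (nm ((HNNExtension.of h * HNNExtension.t ^ (u : ℤ))⁻¹ * g) + 1 = nm g ∧
        nm ((HNNExtension.of h * HNNExtension.t ^ (u : ℤ))⁻¹ * g') + 1 = nm g')) →
    nm (g⁻¹ * g') = nm g + nm g'

/-- value of a word in the letters `x ∈ H` (`Sum.inl x`), `t` (`Sum.inr true`),
`t⁻¹` (`Sum.inr false`) -/
def hev (φ : A ≃* B) : List (H ⊕ Bool) → HNNExtension H A B φ
  | [] => 1
  | Sum.inl x :: w => HNNExtension.of x * hev φ w
  | Sum.inr true :: w => HNNExtension.t * hev φ w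
  | Sum.inr false :: w => HNNExtension.t⁻¹ * hev φ w

/-- integral of `Q` over the `t`-edges along the path of a word starting at `g` -/
def hint {φ : A ≃* B} (Q : HNNExtension H A B φ → ℝ) :
    List (H ⊕ Bool) → HNNExtension H A B φ → ℝ
  | [], _ => 0
  | Sum.inl x :: w, g => hint Q w (g * HNNExtension.of x)
  | Sum.inr true :: w, g => Q g + hint Q w (g * HNNExtension.t)
  | Sum.inr false :: w, g => - Q (g * HNNExtension.t⁻¹) + hint Q w (g * HNNExtension.t⁻¹)

/-- quadratic area bound for closed words, against functions `Q` which are `N`-Lipschitz on the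
left cosets of the edge group `B` -/
def AreaS (φ : A ≃* B) (N : H → ℝ) : Prop :=
  ∀ F : Set H, F.Finite → ∃ C : ℝ, ∀ Q : HNNExtension H A B φ → ℝ,
    (∀ g, ∀ b ∈ B, |Q (g * HNNExtension.of b) - Q g| ≤ N b) →
    ∀ w : List (H ⊕ Bool), (∀ x, Sum.inl x ∈ w → x ∈ F) → hev φ w = 1 →
      |hint Q w 1| ≤ C * ((w.length : ℝ) + 1) ^ 2

/-- the consequence of the area bound for the loops going up -/
def UpS (φ : A ≃* B) (N : H → ℝ) : Prop :=
  ∀ F : Set H, F.Finite → ∃ C : ℝ, ∀ (k : ℕ) (s d : ℕ → H) (v : List H),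
    (∀ i, i < k → d i ∈ F) → (∀ x ∈ v, x ∈ F) → v.prod = s k →
    (∀ i, i < k → ∃ h : s (i + 1) ∈ A, s i = d i * (φ ⟨s (i + 1), h⟩ : H)) →
    ∑ i ∈ Finset.range k, N ((d i)⁻¹ * s i) ≤ C * ((k : ℝ) + v.length + 1) ^ 2

end hnn

end Pool.Agent.TH109
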