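import Mathlib
import Pool.Agent.TH109.Defs

set_option autoImplicit false

namespace Pool.Agent.TH109

/-- A group acting on a directed tree (every vertex has `d` positive neighbours), with a height
function, a rising trunk and a side edge at every vertex of the trunk. -/
structure TreeX (G : Type) [Group G] where
  V : Type
  dT : V → V → ℕ
  dT_self : ∀ a, dT a a = 0
  dT_comm : ∀ a b, dT a b = dT b a
  dT_tri : ∀ a b c, dT a c ≤ dT a b + dT b c
  dT_zero : ∀ a b, dT a b = 0 → a = b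
  act : G → V → V
  act_one : ∀ a, act 1 a = a
  act_mul : ∀ g h a, act (g * h) a = act g (act h a)
  act_dist : ∀ g a b, dT (act g a) (act g b) = dT a b
  o : V
  trans : ∀ a, ∃ g, act g o = a
  /-- positive edges -/
  E : V → V → Prop
  E_act : ∀ g a b, E a b → E (act g a) (act g b)
  E_one : ∀ a b, E a b → dT a b = 1
  Hf_mem : ∀ a b w, E a b → dT b w < dT a w → dT a w = dT b w + 1
  Hf_not : ∀ a b w, E a b → ¬ dT b w < dT a w → dT b w = dT a w + 1
  Hf_cross : ∀ a b w w', E a b → dT b w < dT a w → ¬ dT b w' < dT a w' →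
    dT w w' = dT w b + 1 + dT a w'
  d : ℕ
  ch_fin : ∀ a, {b | E a b}.Finite
  ch_card : ∀ a, {b | E a b}.ncard = d
  ex : V → ℤ
  ex_o : ex o = 0
  ex_E : ∀ a b, E a b → ex b = ex a + 1
  ex_lip : ∀ a b, |ex a - ex b| ≤ (dT a b : ℤ)
  tau : G → ℤ
  tau_mul : ∀ g h, tau (g * h) = tau g + tau h
  act_ex : ∀ g a, ex (act g a) = tau g + ex a
  trunk : ℕ → V
  side : ℕ → V
  trunk_zero : trunk 0 = o
  trunk_E : ∀ n, E (trunk n) (trunk (n + 1))
  side_E : ∀ n, E (trunk n) (side n)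
  side_ne : ∀ n, side n ≠ trunk (n + 1)
  ball_fin : ∀ D : ℕ, {v | dT o v ≤ D}.Finite

/-- A group acting on (tree) x (flat) with a rotation of infinite order in one complex coordinate
`p` of the flat; `N0` is a normal subgroup acting trivially on the tree and on that coordinate,
which accounts for the translations fixed by a power of the rotation. -/
structure TX (G : Type) [Group G] extends TreeX G where
  om : ℂ
  om_norm : ‖om‖ = 1
  om_pow : ∀ n : ℕ, 0 < n → om ^ n ≠ 1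
  p : G → ℂ
  p_mul : ∀ g h, p (g * h) = p g + om ^ (tau g) * p h
  N : G → ℝ
  N_mul : ∀ g h, N (g * h) ≤ N g + N h
  ca : ℕ
  kap : ℕ
  dim : ℕ
  cnt_fin : ∀ (D : ℕ) (R : ℝ), {g | dT o (act g o) ≤ D ∧ N g ≤ R}.Finite
  cnt : ∀ (D : ℕ) (R : ℝ), 0 ≤ R →
    ({g | dT o (act g o) ≤ D ∧ N g ≤ R}.ncard : ℝ) ≤ (ca : ℝ) ^ D * (kap * (R + 1) ^ dim)
  c : G
  c_o : act c o = o
  c_p : p c ≠ 0
  loc : G → G
  loc_o : ∀ g, act (loc g) o = o
  loc_loc : ∀ g, loc (loc g) = loc g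
  loc_fin : ∀ ρ : ℕ, ∃ Q : Set G, Q.Finite ∧ ∀ g g', loc g = loc g' →
    dT (act g o) (act g' o) ≤ ρ → g⁻¹ * g' ∈ Q
  Q1 : Set G
  Q1_fin : Q1.Finite
  adj : ∀ a b, E a b → ∃ σ : {g : G // act g o = a} ≃ {g : G // act g o = b},
    ∀ g : {g : G // act g o = a}, (g : G)⁻¹ * (σ g).1 ∈ Q1
  N0 : Subgroup G
  N0_normal : N0.Normal
  N0_act : ∀ z ∈ N0, ∀ a, act z a = a
  N0_p : ∀ z ∈ N0, p z = 0
  hov : ∀ g δ, (∃ C : ℕ, ∀ j : ℕ, dT o (act (g ^ j) o) ≤ C) → tau δ ≠ 0 → g * δ = δ * g →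
    ∃ j : ℕ, 0 < j ∧ g ^ j ∈ N0

end Pool.Agent.TH109
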