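import Mathlib
import Pool.Agent.TH109.Core

set_option autoImplicit false

open scoped Classical

namespace Pool.Agent.TH109

noncomputable section

variable {G : Type} [Group G]

namespace TreeX

variable (T : TreeX G)

/-- vertex of a group element -/
def vx (g : G) : T.V := T.act g T.o

/-- tree norm of a group element -/
def nm (g : G) : ℕ := T.dT T.o (T.act g T.o)

/-- half tree of an edge -/
def Hf (e : T.V × T.V) : Set T.V := {w | T.dT e.2 w < T.dT e.1 w}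

/-- positive edge -/
def IsE (e : T.V × T.V) : Prop := T.E e.1 e.2

/-- translate of an edge -/
def actE (g : G) (e : T.V × T.V) : T.V × T.V := (T.act g e.1, T.act g e.2)

/-- vertices `m` levels above `q` -/
def Vt : ℕ → T.V → Set T.V
  | 0, q => {q}
  | m + 1, q => {v | ∃ b, T.E q b ∧ v ∈ Vt m b}

/-- root edges -/
def rt (n : ℕ) : T.V × T.V := (T.trunk n, T.side n)

variable {T}

theorem act_inv_act (g : G) (a : T.V) : T.act g⁻¹ (T.act g a) = a := by
  rw [← T.act_mul, inv_mul_cancel, T.act_one]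
theorem act_act_inv (g : G) (a : T.V) : T.act g (T.act g⁻¹ a) = a := by
  rw [← T.act_mul, mul_inv_cancel, T.act_one]
theorem act_inj (g : G) {a b : T.V} (h : T.act g a = T.act g b) : a = b := by
  rw [← act_inv_act g a, h, act_inv_act]
theorem dT_eq_zero {a b : T.V} : T.dT a b = 0 ↔ a = b :=
  ⟨T.dT_zero a b, fun h => by rw [h, T.dT_self]⟩
theorem vx_mul (g h : G) : T.vx (g * h) = T.act g (T.vx h) := T.act_mul g h T.o
theorem vx_one : T.vx 1 = T.o := T.act_one T.o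
theorem nm_eq (g : G) : T.nm g = T.dT T.o (T.vx g) := rfl
theorem nm_mul (g h : G) : T.nm (g * h) ≤ T.nm g + T.nm h := by
  unfold nm
  rw [T.act_mul]
  refine (T.dT_tri T.o (T.act g T.o) _).trans ?_
  rw [T.act_dist]
theorem nm_one : T.nm 1 = 0 := by
  unfold nm
  rw [T.act_one, T.dT_self]
theorem nm_inv (g : G) : T.nm g⁻¹ = T.nm g := by
  unfold nm
  rw [← T.act_dist g, act_act_inv, T.dT_comm]
theorem nm_inv_mul (g h : G) : T.nm (g⁻¹ * h) = T.dT (T.vx g) (T.vx h) := by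
  unfold nm vx
  rw [← T.act_dist g, T.act_mul, act_act_inv]
theorem tau_one : T.tau 1 = 0 := by
  have := T.tau_mul 1 1
  rw [mul_one] at this
  omega
theorem tau_inv (g : G) : T.tau g⁻¹ = - T.tau g := by
  have := T.tau_mul g⁻¹ g
  rw [inv_mul_cancel, tau_one] at this
  omega
theorem tau_pow (g : G) (k : ℕ) : T.tau (g ^ k) = k * T.tau g := by
  induction k with
  | zero => rw [pow_zero, tau_one]; simp
  | succ k ih => rw [pow_succ, T.tau_mul, ih]; push_cast; ring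
theorem ex_vx (g : G) : T.ex (T.vx g) = T.tau g := by
  unfold vx
  rw [T.act_ex, T.ex_o, add_zero]
theorem abs_tau_le (g : G) : |T.tau g| ≤ (T.nm g : ℤ) := by
  have h := T.ex_lip T.o (T.vx g)
  rw [T.ex_o, ex_vx, zero_sub, abs_neg] at h
  exact h
theorem act_Hf (g : G) (e : T.V × T.V) (w : T.V) : T.act g w ∈ T.Hf (T.actE g e) ↔ w ∈ T.Hf e := by
  show T.dT (T.act g e.2) (T.act g w) < T.dT (T.act g e.1) (T.act g w) ↔ T.dT e.2 w < T.dT e.1 w
  rw [T.act_dist, T.act_dist]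
theorem act_IsE (g : G) (e : T.V × T.V) (he : T.IsE e) : T.IsE (T.actE g e) := T.E_act g _ _ he
theorem E_act_iff (g : G) (a b : T.V) : T.E (T.act g a) (T.act g b) ↔ T.E a b := by
  constructor
  · intro h
    have := T.E_act g⁻¹ _ _ h
    rwa [act_inv_act, act_inv_act] at this
  · exact T.E_act g a b
theorem Vt_zero (q : T.V) : T.Vt 0 q = {q} := rfl
theorem Vt_succ_iff {m : ℕ} {q u : T.V} : u ∈ T.Vt (m + 1) q ↔ ∃ b, T.E q b ∧ u ∈ T.Vt m b := Iff.rfl
theorem act_Vt_aux (g : G) (m : ℕ) : ∀ (q u : T.V), u ∈ T.Vt m q → T.act g u ∈ T.Vt m (T.act g q) := by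
  induction m with
  | zero =>
    intro q u h
    have : u = q := h
    rw [this]
    exact rfl
  | succ m ih =>
    rintro q u ⟨b, hb, hu⟩
    exact ⟨T.act g b, T.E_act g _ _ hb, ih _ _ hu⟩
theorem act_Vt (g : G) (m : ℕ) (q u : T.V) : T.act g u ∈ T.Vt m (T.act g q) ↔ u ∈ T.Vt m q := by
  constructor
  · intro h
    have := act_Vt_aux g⁻¹ m _ _ h
    rwa [act_inv_act, act_inv_act] at this
  · exact act_Vt_aux g m q u
theorem actE_mul (g h : G) (e : T.V × T.V) : T.actE (g * h) e = T.actE g (T.actE h e) := by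
  unfold actE
  rw [T.act_mul, T.act_mul]
theorem actE_one (e : T.V × T.V) : T.actE 1 e = e := by
  unfold actE
  rw [T.act_one, T.act_one]
theorem Hf_mem' {e : T.V × T.V} (he : T.IsE e) {w : T.V} (hw : w ∈ T.Hf e) :
    T.dT e.1 w = T.dT e.2 w + 1 := T.Hf_mem _ _ _ he hw
theorem Hf_not' {e : T.V × T.V} (he : T.IsE e) {w : T.V} (hw : w ∉ T.Hf e) :
    T.dT e.2 w = T.dT e.1 w + 1 := T.Hf_not _ _ _ he hw
theorem Hf_cross' {e : T.V × T.V} (he : T.IsE e) {w w' : T.V} (hw : w ∈ T.Hf e) (hw' : w' ∉ T.Hf e) :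
    T.dT w w' = T.dT w e.2 + 1 + T.dT e.1 w' := T.Hf_cross _ _ _ _ he hw hw'
theorem Hf_snd {e : T.V × T.V} (he : T.IsE e) : e.2 ∈ T.Hf e := by
  show T.dT e.2 e.2 < T.dT e.1 e.2
  rw [T.dT_self, T.E_one _ _ he]
  exact one_pos
theorem Hf_fst {e : T.V × T.V} : e.1 ∉ T.Hf e := by
  intro h
  have : T.dT e.2 e.1 < T.dT e.1 e.1 := h
  rw [T.dT_self] at this
  exact absurd this (Nat.not_lt_zero _)
theorem Hf_child {a b c : T.V} (hab : T.E a b) (hbc : T.E b c) : T.Hf (b, c) ⊆ T.Hf (a, b) := by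
  intro w hw
  by_contra hn
  have h1 : T.dT b w = T.dT a w + 1 := T.Hf_not _ _ _ hab hn
  have h2 : T.dT b w = T.dT c w + 1 := T.Hf_mem _ _ _ hbc hw
  have hc : c ∈ T.Hf (a, b) := by
    by_contra hc
    have h3 : T.dT b c = T.dT a c + 1 := T.Hf_not _ _ _ hab hc
    rw [T.E_one _ _ hbc] at h3
    have h4 : a = c := T.dT_zero _ _ (by omega)
    have h5 := T.ex_E _ _ hab
    have h6 := T.ex_E _ _ hbc
    rw [← h4] at h6
    omega
  have h7 : T.dT c w = T.dT c b + 1 + T.dT a w := T.Hf_cross _ _ _ _ hab hc hn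
  omega
theorem Hf_child_disj {q b b' : T.V} (hb : T.E q b) (hb' : T.E q b') (hne : b ≠ b') :
    Disjoint (T.Hf (q, b)) (T.Hf (q, b')) := by
  rw [Set.disjoint_left]
  intro w hw hw'
  have h0 : b' ∉ T.Hf (q, b) := by
    intro h
    have h1 : T.dT q b' = T.dT b b' + 1 := T.Hf_mem _ _ _ hb h
    rw [T.E_one _ _ hb'] at h1
    exact hne (T.dT_zero _ _ (by omega))
  have h1 : T.dT w b' = T.dT w b + 1 + T.dT q b' := T.Hf_cross _ _ _ _ hb hw h0
  have h2 : T.dT q w = T.dT b w + 1 := T.Hf_mem _ _ _ hb hw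
  have h3 : T.dT q w = T.dT b' w + 1 := T.Hf_mem _ _ _ hb' hw'
  rw [T.dT_comm w b', T.dT_comm w b] at h1
  have h4 := T.E_one _ _ hb'
  omega
theorem Vt_ex {m : ℕ} : ∀ {q u : T.V}, u ∈ T.Vt m q → T.ex u = T.ex q + m := by
  induction m with
  | zero =>
    intro q u h
    have : u = q := h
    rw [this]; simp
  | succ m ih =>
    rintro q u ⟨b, hb, hu⟩
    rw [ih hu, T.ex_E _ _ hb]; push_cast; ring
theorem Vt_le {m : ℕ} : ∀ {q u : T.V}, u ∈ T.Vt m q → T.dT q u ≤ m := by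
  induction m with
  | zero =>
    intro q u h
    have : u = q := h
    rw [this, T.dT_self]
  | succ m ih =>
    rintro q u ⟨b, hb, hu⟩
    have h1 := T.dT_tri q b u
    have h2 := T.E_one _ _ hb
    have h3 := ih hu
    omega
theorem Vt_dT {m : ℕ} {q u : T.V} (hu : u ∈ T.Vt m q) : T.dT q u = m := by
  have h1 := Vt_le hu
  have h2 := Vt_ex hu
  have h3 := T.ex_lip q u
  rw [h2] at h3
  have h4 : |T.ex q - (T.ex q + (m : ℤ))| = (m : ℤ) := by
    have : T.ex q - (T.ex q + (m : ℤ)) = -(m : ℤ) := by ring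
    rw [this, abs_neg, abs_of_nonneg (Int.natCast_nonneg m)]
  rw [h4] at h3
  have h5 : m ≤ T.dT q u := by exact_mod_cast h3
  omega
theorem Vt_finite (m : ℕ) : ∀ (q : T.V), (T.Vt m q).Finite := by
  induction m with
  | zero => intro q; exact Set.finite_singleton q
  | succ m ih =>
    intro q
    have h : T.Vt (m + 1) q = ⋃ b ∈ {b | T.E q b}, T.Vt m b := by
      ext u
      simp only [Set.mem_iUnion, Set.mem_ofPred_eq, exists_prop]
      exact Iff.rfl
    rw [h]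
    exact Set.Finite.biUnion (T.ch_fin q) fun b _ => ih b
theorem Vt_sub (m : ℕ) : ∀ {a b : T.V}, T.E a b → T.Vt m b ⊆ T.Hf (a, b) := by
  induction m with
  | zero =>
    intro a b hab u hu
    have : u = b := hu
    rw [this]
    exact Hf_snd (e := (a, b)) hab
  | succ m ih =>
    intro a b hab u hu
    obtain ⟨c, hc, hu⟩ := hu
    exact Hf_child hab hc (ih hc hu)
theorem Vt_sub' {e : T.V × T.V} (he : T.IsE e) (m : ℕ) : T.Vt m e.2 ⊆ T.Hf e :=
  Vt_sub m (a := e.1) (b := e.2) he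
theorem Vt_succ_unique {m : ℕ} {q u b b' : T.V} (hb : T.E q b) (hb' : T.E q b')
    (h : u ∈ T.Vt m b) (h' : u ∈ T.Vt m b') : b = b' := by
  by_contra hne
  exact Set.disjoint_left.1 (Hf_child_disj hb hb' hne) (Vt_sub m hb h)
    (Vt_sub m hb' h')
theorem trunk_ex (n : ℕ) : T.ex (T.trunk n) = n := by
  induction n with
  | zero => rw [T.trunk_zero, T.ex_o]; simp
  | succ n ih => rw [T.ex_E _ _ (T.trunk_E n), ih]; push_cast; ring
theorem trunk_dist_le (n k : ℕ) : T.dT (T.trunk n) (T.trunk (n + k)) ≤ k := by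
  induction k with
  | zero => rw [Nat.add_zero, T.dT_self]
  | succ k ih =>
    have h1 := T.dT_tri (T.trunk n) (T.trunk (n + k)) (T.trunk (n + k + 1))
    have h2 := T.E_one _ _ (T.trunk_E (n + k))
    rw [← Nat.add_assoc]
    omega
theorem trunk_dist (n n' : ℕ) : T.dT (T.trunk n) (T.trunk n') ≤ ((n : ℤ) - n').natAbs := by
  rcases le_total n n' with h | h
  · obtain ⟨k, rfl⟩ := Nat.exists_eq_add_of_le h
    have := trunk_dist_le (T := T) n k
    omega
  · obtain ⟨k, rfl⟩ := Nat.exists_eq_add_of_le h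
    have := trunk_dist_le (T := T) n' k
    rw [T.dT_comm]
    omega
theorem rt_IsE (n : ℕ) : T.IsE (T.rt n) := T.side_E n
theorem rt_ex_fst (n : ℕ) : T.ex (T.rt n).1 = n := trunk_ex n
theorem rt_ex_snd (n : ℕ) : T.ex (T.rt n).2 = n + 1 := by
  show T.ex (T.side n) = n + 1
  rw [T.ex_E _ _ (T.side_E n), trunk_ex]
theorem rt_one (n : ℕ) : T.o ∉ T.Hf (T.rt n) := by
  intro h
  have h1 : T.dT (T.side n) T.o < T.dT (T.trunk n) T.o := h
  have h2 := trunk_dist_le (T := T) 0 n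
  rw [T.trunk_zero, Nat.zero_add, T.dT_comm] at h2
  have h3 := T.ex_lip (T.side n) T.o
  have h4 : T.ex (T.side n) = n + 1 := rt_ex_snd n
  rw [T.ex_o, h4, sub_zero, abs_of_nonneg (by positivity)] at h3
  omega
theorem trunk_sub (n k : ℕ) : T.Hf (T.trunk (n + k), T.trunk (n + k + 1)) ⊆
    T.Hf (T.trunk n, T.trunk (n + 1)) := by
  induction k with
  | zero => exact subset_rfl
  | succ k ih =>
    refine (Hf_child ?_ ?_).trans ih
    · exact T.trunk_E _
    · exact T.trunk_E _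
theorem rt_disj_lt {n n' : ℕ} (h : n < n') : Disjoint (T.Hf (T.rt n)) (T.Hf (T.rt n')) := by
  obtain ⟨k, rfl⟩ : ∃ k, n' = n + k + 1 := ⟨n' - n - 1, by omega⟩
  have h1 : T.Hf (T.rt (n + k + 1)) ⊆ T.Hf (T.trunk n, T.trunk (n + 1)) :=
    (Hf_child (T.trunk_E (n + k)) (T.side_E (n + k + 1))).trans (trunk_sub n k)
  exact (Hf_child_disj (T.side_E n) (T.trunk_E n) (T.side_ne n)).mono_right h1
theorem rt_disj {n n' : ℕ} (h : n ≠ n') : Disjoint (T.Hf (T.rt n)) (T.Hf (T.rt n')) := by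
  rcases lt_or_gt_of_ne h with h | h
  · exact rt_disj_lt h
  · exact (rt_disj_lt h).symm
theorem rt_top_dist {n n' m m' : ℕ} {u u' : T.V} (hu : u ∈ T.Vt m (T.rt n).2)
    (hu' : u' ∈ T.Vt m' (T.rt n').2) : T.dT u u' ≤ ((n : ℤ) - n').natAbs + m + m' + 2 := by
  have h1 := Vt_le hu
  have h2 := Vt_le hu'
  have h3 := trunk_dist (T := T) n n'
  have h4 := T.E_one _ _ (T.side_E n)
  have h5 := T.E_one _ _ (T.side_E n')
  have e1 : T.dT (T.rt n).2 u = T.dT (T.side n) u := rfl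
  have e2 : T.dT (T.rt n').2 u' = T.dT (T.side n') u' := rfl
  have h6 := T.dT_tri u (T.side n) u'
  have h7 := T.dT_tri (T.side n) (T.trunk n) u'
  have h8 := T.dT_tri (T.trunk n) (T.trunk n') u'
  have h9 := T.dT_tri (T.trunk n') (T.side n') u'
  rw [T.dT_comm u (T.side n)] at h6
  rw [T.dT_comm (T.side n) (T.trunk n)] at h7
  omega
theorem Hf_out_le {e : T.V × T.V} (he : T.IsE e) {w w' : T.V} (hw : w ∈ T.Hf e) (hw' : w' ∉ T.Hf e) :
    T.dT w e.1 ≤ T.dT w w' ∧ T.dT w' e.1 ≤ T.dT w w' ∧ T.dT w e.2 + 1 ≤ T.dT w w' := by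
  have h1 := Hf_cross' he hw hw'
  have h2 := Hf_mem' he hw
  rw [T.dT_comm w' e.1, T.dT_comm w e.1]
  rw [T.dT_comm e.2 w] at h2
  refine ⟨?_, ?_, ?_⟩ <;> omega
theorem sep_finite (D : ℕ) :
    {e : T.V × T.V | T.IsE e ∧ T.o ∈ T.Hf e ∧ ∃ w, T.dT T.o w ≤ D ∧ w ∉ T.Hf e}.Finite := by
  refine ((T.ball_fin (D + 1)).prod (T.ball_fin (D + 1))).subset ?_
  rintro e ⟨he, h1, w, hw, hw'⟩
  obtain ⟨h2, _, h3⟩ := Hf_out_le he h1 hw'
  exact ⟨by show T.dT T.o e.1 ≤ D + 1; omega, by show T.dT T.o e.2 ≤ D + 1; omega⟩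

end TreeX

end

end Pool.Agent.TH109
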