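import Mathlib
import Pool.Agent.TH109.Tree

set_option autoImplicit false

open scoped Classical

namespace Pool.Agent.TH109

open Pool.Agent.Helper943.LM (UA wpow wpow_zero wpow_succ wpow_add wpow_length countS_flat LenS
  lenS sameS_iter sameS_take)
open Pool.Agent.Helper943.LM

noncomputable section

variable {G : Type} [Group G]

/-- counting of codes of closed words -/
def CntC (T : TX G) (U : UA G) : Prop :=
  ∀ s, U.live s → ∀ (D : ℕ) (P : Finset (List U.A)),
    (∀ X ∈ P, X ≠ [] ∧ U.run s X = s ∧ T.nm (U.ev X) ≤ D) →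
    (∀ X ∈ P, ∀ Y ∈ P, X <+: Y → X = Y) → P.card ≤ T.ca ^ D

/-- elliptic states -/
def Elp (T : TreeX G) (U : UA G) (s : U.S) : Prop :=
  ∃ y : List U.A, y ≠ [] ∧ U.run s y = s ∧ ∃ C : ℕ, ∀ j : ℕ, T.nm (U.ev y ^ j) ≤ C

theorem cntC_prod (T : TX G) (U : UA G) (s : U.S) (D : ℕ) (C : ℝ) :
    ∀ L : List (List U.A), (∀ X ∈ L, U.run s X = s ∧ T.nm (U.ev X) ≤ D ∧ T.N (U.ev X) ≤ C) →
      U.run s L.flatten = s ∧ T.nm (U.ev L.flatten) ≤ L.length * D ∧
        T.N (U.ev L.flatten) ≤ T.N 1 + (L.length : ℝ) * C := by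
  intro L
  induction L with
  | nil =>
    intro _
    refine ⟨rfl, ?_, ?_⟩
    · rw [List.flatten_nil, UA.ev_nil, TreeX.nm_one]; simp
    · rw [List.flatten_nil, UA.ev_nil]; simp
  | cons X L ih =>
    intro h
    obtain ⟨h1, h2, h3⟩ := ih (fun Z hZ => h Z (List.mem_cons_of_mem _ hZ))
    obtain ⟨h4, h5, h6⟩ := h X (by simp)
    rw [List.flatten_cons, UA.ev_append, UA.run_append, List.length_cons]
    refine ⟨by rw [h4, h1], ?_, ?_⟩
    · have := TreeX.nm_mul (T := T.toTreeX) (U.ev X) (U.ev L.flatten)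
      calc T.nm (U.ev X * U.ev L.flatten) ≤ _ := this
        _ ≤ D + L.length * D := Nat.add_le_add h5 h2
        _ = (L.length + 1) * D := by ring
    · have := T.N_mul (U.ev X) (U.ev L.flatten)
      calc T.N (U.ev X * U.ev L.flatten) ≤ _ := this
        _ ≤ C + (T.N 1 + (L.length : ℝ) * C) := add_le_add h6 h3
        _ = T.N 1 + ((L.length + 1 : ℕ) : ℝ) * C := by push_cast; ring

theorem cntC (T : TX G) (U : UA G) : CntC T U := by
  intro s hs D P hP hpf
  by_contra hcard
  push Not at hcard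
  -- bound on the translation parts
  obtain ⟨C, hC, hC1⟩ : ∃ C : ℕ, (∀ X ∈ P, T.N (U.ev X) ≤ C) ∧ T.N 1 ≤ C := by
    obtain ⟨R, hR⟩ := ((P : Set (List U.A)).toFinite.image
      (fun X => T.N (U.ev X))).bddAbove
    refine ⟨⌈R⌉₊ + ⌈T.N 1⌉₊, fun X hX => ?_, ?_⟩
    · refine ((hR ⟨X, hX, rfl⟩).trans (Nat.le_ceil R)).trans ?_
      push_cast
      have : (0 : ℝ) ≤ (⌈T.N 1⌉₊ : ℝ) := Nat.cast_nonneg _
      linarith
    · refine (Nat.le_ceil (T.N 1)).trans ?_
      push_cast
      have : (0 : ℝ) ≤ (⌈R⌉₊ : ℝ) := Nat.cast_nonneg _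
      linarith
  have hcnt : ∀ m : ℕ, (P.card : ℝ) ^ m ≤
      (T.ca : ℝ) ^ (m * D) * (T.kap * (((m : ℝ) + 1) * C + 1) ^ T.dim) := by
    intro m
    have h0 := T.cnt (m * D) (((m : ℝ) + 1) * C) (by positivity)
    refine le_trans ?_ h0
    have h1 : (Set.univ : Set (Fin m → {X // X ∈ P})).ncard ≤
        {g | T.dT T.o (T.act g T.o) ≤ m * D ∧ T.N g ≤ ((m : ℝ) + 1) * C}.ncard := by
      refine Set.ncard_le_ncard_of_injOn
        (fun f => U.ev (List.ofFn (fun i => (f i).1)).flatten) ?_ ?_ (T.cnt_fin _ _)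
      · intro f _
        have h2 := cntC_prod T U s D C (List.ofFn (fun i => (f i).1)) (by
          intro X hX
          rw [List.mem_ofFn] at hX
          obtain ⟨i, rfl⟩ := hX
          exact ⟨(hP _ (f i).2).2.1, (hP _ (f i).2).2.2, hC _ (f i).2⟩)
        rw [List.length_ofFn] at h2
        refine ⟨h2.2.1, h2.2.2.trans ?_⟩
        linarith
      · intro f _ f' _ hff
        have hmem : ∀ f : Fin m → {X // X ∈ P}, ∀ X ∈ List.ofFn (fun i => (f i).1), X ∈ P := by
          intro f X hX
          rw [List.mem_ofFn] at hX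
          obtain ⟨i, rfl⟩ := hX
          exact (f i).2
        have hrun : ∀ f : Fin m → {X // X ∈ P},
            U.run s (List.ofFn (fun i => (f i).1)).flatten = s := by
          intro f
          refine (cntC_prod T U s D C (List.ofFn (fun i => (f i).1)) ?_).1
          intro X hX
          have := hmem f X hX
          exact ⟨(hP _ this).2.1, (hP _ this).2.2, hC _ this⟩
        have h3 := U.closed_inj hs (hrun f) (hrun f') hff
        have h4 := countS_flat P (fun X hX => (hP X hX).1) hpf _ _ (hmem f) (hmem f')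
          (by simp) h3
        have h5 := List.ofFn_injective h4
        funext i
        exact Subtype.ext (congrFun h5 i)
    rw [Set.ncard_univ, Nat.card_eq_fintype_card, Fintype.card_fun, Fintype.card_fin,
      Fintype.card_coe] at h1
    exact_mod_cast h1
  by_cases hca : T.ca = 0
  · -- degenerate
    by_cases hD : D = 0
    · subst hD
      -- ca ^ 0 = 1
      have hcard' : 1 < P.card := by simpa using hcard
      have h2 : (1 : ℝ) < P.card := by exact_mod_cast hcard'
      have hlim := (tendsto_pow_const_div_const_pow_of_one_lt T.dim h2).const_mul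
        ((T.kap : ℝ) * (2 * (C : ℝ) + 1) ^ T.dim)
      rw [mul_zero] at hlim
      have hev := hlim.eventually_lt_const (u := 1) one_pos
      obtain ⟨m, hm1, hm2⟩ := (hev.and (Filter.eventually_ge_atTop 1)).exists
      have h6 := hcnt m
      rw [Nat.mul_zero, pow_zero, one_mul] at h6
      have hm : (1 : ℝ) ≤ m := by exact_mod_cast hm2
      have hC0 : (0 : ℝ) ≤ C := Nat.cast_nonneg C
      have h7 : (((m : ℝ) + 1) * C + 1) ≤ (2 * C + 1) * m := by nlinarith
      have h8 : (((m : ℝ) + 1) * C + 1) ^ T.dim ≤ ((2 * C + 1) * (m : ℝ)) ^ T.dim :=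
        pow_le_pow_left₀ (by positivity) h7 _
      rw [mul_pow] at h8
      have h9 : (T.kap : ℝ) * (2 * (C : ℝ) + 1) ^ T.dim * (m : ℝ) ^ T.dim < (P.card : ℝ) ^ m := by
        have h11 : (T.kap : ℝ) * (2 * (C : ℝ) + 1) ^ T.dim * ((m : ℝ) ^ T.dim / (P.card : ℝ) ^ m) < 1 :=
          hm1
        rw [← mul_div_assoc, div_lt_one (by positivity)] at h11
        exact h11
      have h10 := mul_le_mul_of_nonneg_left h8 (Nat.cast_nonneg (α := ℝ) T.kap)
      linarith
    · have h6 := hcnt 1
      rw [hca, Nat.one_mul] at h6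
      rw [Nat.cast_zero, zero_pow hD, zero_mul, pow_one] at h6
      have h7 : 0 < P.card := by omega
      have h8 : (0 : ℝ) < P.card := by exact_mod_cast h7
      linarith
  have hcap : (0 : ℝ) < T.ca := by
    have : 0 < T.ca := Nat.pos_of_ne_zero hca
    exact_mod_cast this
  set r : ℝ := (P.card : ℝ) / (T.ca : ℝ) ^ D with hr
  have h5 : (0 : ℝ) < (T.ca : ℝ) ^ D := by positivity
  have hr1 : 1 < r := by
    rw [hr, one_lt_div h5]
    exact_mod_cast hcard
  have hlim := (tendsto_pow_const_div_const_pow_of_one_lt T.dim hr1).const_mul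
    ((T.kap : ℝ) * (2 * (C : ℝ) + 1) ^ T.dim)
  rw [mul_zero] at hlim
  have hev := hlim.eventually_lt_const (u := 1) one_pos
  obtain ⟨m, hm1, hm2⟩ := (hev.and (Filter.eventually_ge_atTop 1)).exists
  have hrm : 0 < r ^ m := by positivity
  have h6 := hcnt m
  have h7 : r ^ m ≤ T.kap * (((m : ℝ) + 1) * C + 1) ^ T.dim := by
    rw [hr, div_pow, ← pow_mul, mul_comm D m, div_le_iff₀ (by positivity)]
    calc _ ≤ _ := h6
      _ = _ := by ring
  have h8 : (T.kap : ℝ) * (((m : ℝ) + 1) * C + 1) ^ T.dim ≤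
      (T.kap : ℝ) * (2 * (C : ℝ) + 1) ^ T.dim * (m : ℝ) ^ T.dim := by
    have hm : (1 : ℝ) ≤ m := by exact_mod_cast hm2
    have hC0 : (0 : ℝ) ≤ C := Nat.cast_nonneg C
    have : ((m : ℝ) + 1) * C + 1 ≤ (2 * C + 1) * m := by nlinarith
    rw [mul_assoc, ← mul_pow]
    have h9 : (((m : ℝ) + 1) * C + 1) ^ T.dim ≤ ((2 * C + 1) * (m : ℝ)) ^ T.dim := by
      apply pow_le_pow_left₀ (by positivity) this
    exact mul_le_mul_of_nonneg_left h9 (Nat.cast_nonneg _)
  have h10 : (T.kap : ℝ) * (2 * (C : ℝ) + 1) ^ T.dim * (m : ℝ) ^ T.dim < r ^ m := by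
    have h11 : (T.kap : ℝ) * (2 * (C : ℝ) + 1) ^ T.dim * ((m : ℝ) ^ T.dim / r ^ m) < 1 := hm1
    rw [← mul_div_assoc, div_lt_one hrm] at h11
    exact h11
  linarith

/-- commutation with powers of a tree-bounded closed word -/
theorem comm1 (T : TX G) (U : UA G) (s : U.S) (hs : U.live s) (y : List U.A) (hy : y ≠ [])
    (hsy : U.run s y = s) (hb : ∃ C : ℕ, ∀ j : ℕ, T.nm (U.ev y ^ j) ≤ C) (X : List U.A)
    (hX : U.run s X = s) : ∃ k : ℕ, 1 ≤ k ∧ wpow y k ++ X = X ++ wpow y k := by
  have h := cntC T U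
  obtain ⟨C, hC⟩ := hb
  by_cases hX0 : X = []
  · subst hX0
    exact ⟨1, le_rfl, by simp⟩
  obtain ⟨N, hN⟩ : ∃ N : ℕ, N = T.ca ^ (C + T.nm (U.ev X) + C) := ⟨_, rfl⟩
  let Z : ℕ → List U.A := fun i => wpow y (N - i) ++ X ++ wpow y i
  have hlen : ∀ i ≤ N, (Z i).length = N * y.length + X.length := by
    intro i hi
    change (wpow y (N - i) ++ X ++ wpow y i).length = _
    rw [List.length_append, List.length_append, wpow_length, wpow_length]
    have e : N * y.length = (N - i) * y.length + i * y.length := by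
      rw [← Nat.add_mul, Nat.sub_add_cancel hi]
    omega
  by_cases hinj : ∀ i ≤ N, ∀ j ≤ N, Z i = Z j → i = j
  · exfalso
    have hcard : ((Finset.range (N + 1)).image Z).card = N + 1 := by
      rw [Finset.card_image_of_injOn, Finset.card_range]
      intro i hi j hj hij
      have hi' := Finset.mem_range.1 (Finset.mem_coe.1 hi)
      have hj' := Finset.mem_range.1 (Finset.mem_coe.1 hj)
      exact hinj i (by omega) j (by omega) hij
    have h1 := h s hs (C + T.nm (U.ev X) + C) ((Finset.range (N + 1)).image Z) (by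
      intro W hW
      obtain ⟨i, hi, rfl⟩ := Finset.mem_image.1 hW
      refine ⟨?_, ?_, ?_⟩
      · intro hh
        have h2 : wpow y (N - i) ++ X ++ wpow y i = [] := hh
        rw [List.append_eq_nil_iff, List.append_eq_nil_iff] at h2
        exact hX0 h2.1.2
      · change U.run s (wpow y (N - i) ++ X ++ wpow y i) = s
        rw [U.run_append, U.run_append, U.run_wpow hsy, hX, U.run_wpow hsy]
      · change T.nm (U.ev (wpow y (N - i) ++ X ++ wpow y i)) ≤ _
        rw [U.ev_append, U.ev_append, U.ev_wpow, U.ev_wpow]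
        calc T.nm (U.ev y ^ (N - i) * U.ev X * U.ev y ^ i)
            ≤ T.nm (U.ev y ^ (N - i) * U.ev X) + T.nm (U.ev y ^ i) := TreeX.nm_mul _ _
          _ ≤ (T.nm (U.ev y ^ (N - i)) + T.nm (U.ev X)) + T.nm (U.ev y ^ i) :=
              Nat.add_le_add_right (TreeX.nm_mul _ _) _
          _ ≤ C + T.nm (U.ev X) + C :=
              Nat.add_le_add (Nat.add_le_add_right (hC _) _) (hC _)) (by
      intro W hW W' hW' hp
      obtain ⟨i, hi, rfl⟩ := Finset.mem_image.1 hW
      obtain ⟨j, hj, rfl⟩ := Finset.mem_image.1 hW'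
      have hi' := Finset.mem_range.1 hi
      have hj' := Finset.mem_range.1 hj
      exact hp.eq_of_length (by rw [hlen i (by omega), hlen j (by omega)]))
    rw [hcard, ← hN] at h1
    omega
  · push Not at hinj
    obtain ⟨i, hi, j, hj, hij, hne⟩ := hinj
    have main : ∀ i j : ℕ, j ≤ N → Z i = Z j → i < j →
        ∃ k : ℕ, 1 ≤ k ∧ wpow y k ++ X = X ++ wpow y k := by
      intro i j hj hij hlt
      refine ⟨j - i, by omega, ?_⟩
      have e1 : wpow y (N - i) = wpow y (N - j) ++ wpow y (j - i) := by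
        rw [← wpow_add]
        congr 1
        omega
      have e2 : wpow y j = wpow y (j - i) ++ wpow y i := by
        rw [← wpow_add]
        congr 1
        omega
      have e3 : wpow y (N - i) ++ X ++ wpow y i = wpow y (N - j) ++ X ++ wpow y j := hij
      rw [e1, e2] at e3
      simp only [List.append_assoc] at e3
      have e4 := List.append_cancel_left e3
      rw [← List.append_assoc, ← List.append_assoc] at e4
      exact List.append_cancel_right e4
    rcases lt_or_gt_of_ne hne with h1 | h1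
    · exact main i j hj hij h1
    · exact main j i hi hij.symm h1

/-- a closed word at an elliptic state is a prefix of long powers of the elliptic word -/
theorem comm_prefix (T : TX G) (U : UA G) (s : U.S) (hs : U.live s) (y : List U.A) (hy : y ≠ [])
    (hsy : U.run s y = s) (hb : ∃ C : ℕ, ∀ j : ℕ, T.nm (U.ev y ^ j) ≤ C) (X : List U.A)
    (hX : U.run s X = s) : ∃ M : ℕ, ∀ M', M ≤ M' → X <+: wpow y M' := by
  obtain ⟨k, hk, h⟩ := comm1 T U s hs y hy hsy hb X hX
  refine ⟨k * X.length, fun M' hM' => ?_⟩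
  have hy1 : 1 ≤ y.length := List.length_pos_of_ne_nil hy
  have h1 := sameS_iter y X k h X.length
  have h2 : X <+: wpow y (k * X.length) := by
    refine List.prefix_of_prefix_length_le (l₃ := X ++ wpow y (k * X.length))
      (List.prefix_append _ _) ?_ ?_
    · rw [← h1]; exact List.prefix_append _ _
    · rw [wpow_length]
      calc X.length = 1 * X.length * 1 := by ring
        _ ≤ k * X.length * y.length :=
          Nat.mul_le_mul (Nat.mul_le_mul hk le_rfl) hy1
  refine h2.trans ?_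
  obtain ⟨l, hl⟩ := Nat.exists_eq_add_of_le hM'
  rw [hl, wpow_add]
  exact List.prefix_append _ _

/-- closed words of the same length at an elliptic state are equal -/
theorem closed_eq (T : TX G) (U : UA G) (s : U.S) (hs : U.live s) (hE : Elp T.toTreeX U s)
    (X X' : List U.A) (hX : U.run s X = s) (hX' : U.run s X' = s) (hl : X.length = X'.length) :
    X = X' := by
  obtain ⟨y, hy, hsy, hb⟩ := hE
  obtain ⟨M, hM⟩ := comm_prefix T U s hs y hy hsy hb X hX
  obtain ⟨M', hM'⟩ := comm_prefix T U s hs y hy hsy hb X' hX'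
  exact List.IsPrefix.eq_of_length
    (List.prefix_of_prefix_length_le (hM _ (le_max_left M M')) (hM' _ (le_max_right M M')) hl.le) hl

/-- closed words at a non elliptic state have bounded length -/
theorem closed_bdd (T : TX G) (U : UA G) (s : U.S) (hs : U.live s) (hE : ¬ Elp T.toTreeX U s)
    (D : ℕ) : ∃ B : ℕ, ∀ X : List U.A, U.run s X = s → T.nm (U.ev X) ≤ D → X.length ≤ B := by
  have h := cntC T U
  have hpre : ∀ v : T.V, ∀ X Y : List U.A, X ≠ [] → U.run s X = s → T.vx (U.ev X) = v →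
      U.run s Y = s → T.vx (U.ev Y) = v → X <+: Y → X = Y := by
    intro v X Y _ hXs hXv hYs hYv hXY
    obtain ⟨Z, rfl⟩ := hXY
    by_cases hZ : Z = []
    · rw [hZ, List.append_nil]
    · exfalso
      apply hE
      have hZs : U.run s Z = s := by
        rw [UA.run_append, hXs] at hYs
        exact hYs
      have h1 : T.act (U.ev Z) T.o = T.o := by
        have h2 : T.act (U.ev X) (T.act (U.ev Z) T.o) = T.act (U.ev X) T.o := by
          rw [← T.act_mul, ← U.ev_append]
          exact hYv.trans hXv.symm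
        exact TreeX.act_inj _ h2
      refine ⟨Z, hZ, hZs, 0, fun j => ?_⟩
      have h4 : T.act (U.ev Z ^ j) T.o = T.o := by
        induction j with
        | zero => rw [pow_zero, T.act_one]
        | succ j ih => rw [pow_succ, T.act_mul, h1, ih]
      show T.dT T.o (T.act (U.ev Z ^ j) T.o) ≤ 0
      rw [h4, T.dT_self]
  have hfin : ∀ v : T.V, T.dT T.o v ≤ D →
      {X : List U.A | X ≠ [] ∧ U.run s X = s ∧ T.vx (U.ev X) = v}.Finite := by
    intro v hv
    by_contra hinf
    obtain ⟨P, hP, hPc⟩ := Set.Infinite.exists_subset_card_eq hinf (T.ca ^ D + 1)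
    have h1 := h s hs D P (fun X hX => by
      obtain ⟨a, b, c⟩ := hP hX
      refine ⟨a, b, ?_⟩
      show T.dT T.o (T.vx (U.ev X)) ≤ D
      rw [c]; exact hv) (fun X hX Y hY hXY => by
      obtain ⟨a, b, c⟩ := hP hX
      obtain ⟨a', b', c'⟩ := hP hY
      exact hpre v X Y a b c b' c' hXY)
    omega
  have hC : (⋃ v ∈ {w : T.V | T.dT T.o w ≤ D},
      {X : List U.A | X ≠ [] ∧ U.run s X = s ∧ T.vx (U.ev X) = v}).Finite :=
    Set.Finite.biUnion (T.ball_fin D) (fun v hv => hfin v hv)
  obtain ⟨B, hB⟩ := (hC.image List.length).bddAbove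
  refine ⟨B, fun X hX hXD => ?_⟩
  by_cases h0 : X = []
  · rw [h0]; exact Nat.zero_le _
  · apply hB
    refine ⟨X, ?_, rfl⟩
    simp only [Set.mem_iUnion]
    exact ⟨T.vx (U.ev X), hXD, h0, hX, rfl⟩

/-- uniform version over all states -/
theorem closed_bdd' (T : TX G) (U : UA G) (D : ℕ) : ∃ B : ℕ, ∀ s, U.live s → ¬ Elp T.toTreeX U s →
    ∀ X : List U.A, U.run s X = s → T.nm (U.ev X) ≤ D → X.length ≤ B := by
  haveI := U.finS
  have h : ∀ s : U.S, ∃ B : ℕ, U.live s → ¬ Elp T.toTreeX U s →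
      ∀ X : List U.A, U.run s X = s → T.nm (U.ev X) ≤ D → X.length ≤ B := by
    intro s
    by_cases hs : U.live s
    · by_cases hE : Elp T.toTreeX U s
      · exact ⟨0, fun _ h => absurd hE h⟩
      · obtain ⟨B, hB⟩ := closed_bdd T U s hs hE D
        exact ⟨B, fun _ _ => hB⟩
    · exact ⟨0, fun h => absurd h hs⟩
  choose B hB using h
  obtain ⟨M, hM⟩ := Finite.exists_le B
  exact ⟨M, fun s hs hE X hX hX2 => (hB s hs hE X hX hX2).trans (hM s)⟩

end

end Pool.Agent.TH109
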