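import Mathlib
import Pool.Agent.TH109.Words

set_option autoImplicit false

open scoped Classical

namespace Pool.Agent.TH109

open Pool.Agent.Helper943.LM

noncomputable section

variable {G : Type} [Group G]

/-- elements with a power in `N0` -/
def K0 (T : TX G) : Set G := {g | ∃ j : ℕ, 0 < j ∧ g ^ j ∈ T.N0}

theorem K0_of_N0 {T : TX G} {g : G} (h : g ∈ T.N0) : g ∈ K0 T := ⟨1, one_pos, by rwa [pow_one]⟩

theorem K0_pow {T : TX G} {g : G} (h : g ∈ K0 T) (n : ℕ) : g ^ n ∈ K0 T := by
  obtain ⟨j, hj, h⟩ := h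
  refine ⟨j, hj, ?_⟩
  rw [← pow_mul, mul_comm, pow_mul]
  exact T.N0.pow_mem h n

theorem K0_root {T : TX G} {g : G} {n : ℕ} (hn : 0 < n) (h : g ^ n ∈ K0 T) : g ∈ K0 T := by
  obtain ⟨j, hj, h⟩ := h
  exact ⟨n * j, Nat.mul_pos hn hj, by rwa [pow_mul]⟩

theorem K0_conj {T : TX G} {g : G} (x : G) (h : g ∈ K0 T) : x⁻¹ * g * x ∈ K0 T := by
  obtain ⟨j, hj, h⟩ := h
  refine ⟨j, hj, ?_⟩
  have e : (x⁻¹ * g * x) ^ j = x⁻¹ * g ^ j * (x⁻¹)⁻¹ := by
    have := conj_pow (i := j) (a := x⁻¹) (b := g)
    rw [inv_inv] at this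
    rw [this, inv_inv]
  rw [e]
  exact T.N0_normal.conj_mem _ h _

theorem K0_conj_iff {T : TX G} {g h x : G} (e : g * x = x * h) : g ∈ K0 T ↔ h ∈ K0 T := by
  constructor
  · intro hg
    have := K0_conj x hg
    rwa [mul_assoc, e, inv_mul_cancel_left] at this
  · intro hh
    have := K0_conj x⁻¹ hh
    rwa [inv_inv, ← e, mul_inv_cancel_right] at this

theorem nm_mul_N0 {T : TX G} {z : G} (hz : z ∈ T.N0) (g h : G) :
    T.vx (g * z * h) = T.vx (g * h) := by
  rw [TreeX.vx_mul, TreeX.vx_mul, TreeX.vx, T.act_mul, T.N0_act z hz]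

theorem N0_tau {T : TX G} {z : G} (hz : z ∈ T.N0) : T.tau z = 0 := by
  have h := T.act_ex z T.o
  rw [T.N0_act z hz, T.ex_o] at h
  omega

theorem p_mul_N0 {T : TX G} {z : G} (hz : z ∈ T.N0) (g h : G) : T.p (g * z * h) = T.p (g * h) := by
  rw [mul_assoc, T.p_mul, T.p_mul z, T.N0_p z hz, N0_tau hz, T.p_mul g h]
  simp

theorem K0_bdd {T : TX G} {g : G} (h : g ∈ K0 T) : ∃ C : ℕ, ∀ j : ℕ, T.nm (g ^ j) ≤ C := by
  obtain ⟨k, hk, h⟩ := h
  obtain ⟨C, hC⟩ : ∃ C : ℕ, ∀ r < k, T.nm (g ^ r) ≤ C := by
    refine ⟨∑ r ∈ Finset.range k, T.nm (g ^ r), fun r hr => ?_⟩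
    exact Finset.single_le_sum (f := fun r => T.nm (g ^ r)) (fun _ _ => Nat.zero_le _)
      (Finset.mem_range.2 hr)
  refine ⟨C, fun j => ?_⟩
  have e : g ^ j = g ^ (j % k) * (g ^ k) ^ (j / k) * 1 := by
    rw [mul_one, ← pow_mul, ← pow_add, Nat.mod_add_div]
  have h1 : T.vx (g ^ j) = T.vx (g ^ (j % k)) := by
    rw [e, nm_mul_N0 (T.N0.pow_mem h _), mul_one]
  have h2 : T.nm (g ^ j) = T.nm (g ^ (j % k)) := by
    rw [TreeX.nm_eq, h1, TreeX.nm_eq]
  rw [h2]
  exact hC _ (Nat.mod_lt _ hk)

/-- transitions lying on closed words with value in `K0` -/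
def Z0 (T : TX G) (U : UA G) (s : U.S) (a : U.A) : Prop :=
  ∃ Y : List U.A, U.run s (a :: Y) = s ∧ U.ev (a :: Y) ∈ K0 T

/-- number of `Z0`-transitions of a word read from `s` -/
def c0 (T : TX G) (U : UA G) : U.S → List U.A → ℕ
  | _, [] => 0
  | s, a :: w => (if Z0 T U s a then 1 else 0) + c0 T U (U.step s a) w

/-- number of the other transitions -/
def c1 (T : TX G) (U : UA G) : U.S → List U.A → ℕ
  | _, [] => 0
  | s, a :: w => (if Z0 T U s a then 0 else 1) + c1 T U (U.step s a) w

section counts

variable (T : TX G) (U : UA G)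

theorem run_cons (s : U.S) (a : U.A) (w : List U.A) :
    U.run s (a :: w) = U.run (U.step s a) w := rfl

theorem c0_append (s : U.S) (u v : List U.A) :
    c0 T U s (u ++ v) = c0 T U s u + c0 T U (U.run s u) v := by
  induction u generalizing s with
  | nil => simp [c0, UA.run_nil]
  | cons a u ih =>
    rw [List.cons_append, c0, c0, ih, run_cons]; ring

theorem c1_append (s : U.S) (u v : List U.A) :
    c1 T U s (u ++ v) = c1 T U s u + c1 T U (U.run s u) v := by
  induction u generalizing s with
  | nil => simp [c1, UA.run_nil]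
  | cons a u ih =>
    rw [List.cons_append, c1, c1, ih, run_cons]; ring

theorem c0_add_c1 (s : U.S) (w : List U.A) : c0 T U s w + c1 T U s w = w.length := by
  induction w generalizing s with
  | nil => simp [c0, c1]
  | cons a w ih =>
    rw [c0, c1, List.length_cons, ← ih (U.step s a)]
    split_ifs <;> ring

theorem c0_le (s : U.S) (w : List U.A) : c0 T U s w ≤ w.length := by
  have := c0_add_c1 T U s w; omega

theorem c1_le (s : U.S) (w : List U.A) : c1 T U s w ≤ w.length := by
  have := c0_add_c1 T U s w; omega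

theorem c1_zero_of (s : U.S) (w : List U.A)
    (h : ∀ u a v, w = u ++ a :: v → Z0 T U (U.run s u) a) : c1 T U s w = 0 := by
  induction w generalizing s with
  | nil => rfl
  | cons a w ih =>
    have h0 : Z0 T U s a := h [] a w rfl
    rw [c1, ih (U.step s a), if_pos h0]
    intro u b v e
    exact h (a :: u) b v (by rw [e, List.cons_append])

theorem c0_zero_of (s : U.S) (w : List U.A)
    (h : ∀ u a v, w = u ++ a :: v → ¬ Z0 T U (U.run s u) a) : c0 T U s w = 0 := by
  induction w generalizing s with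
  | nil => rfl
  | cons a w ih =>
    have h0 : ¬ Z0 T U s a := h [] a w rfl
    rw [c0, ih (U.step s a), if_neg h0]
    intro u b v e
    exact h (a :: u) b v (by rw [e, List.cons_append])

theorem live_mid {s : U.S} {u v : List U.A} (hs : U.live s) (h : U.live (U.run s (u ++ v))) :
    U.live (U.run s u) := by
  obtain ⟨⟨a, ha⟩, -⟩ := hs
  obtain ⟨-, b, hb⟩ := h
  refine ⟨⟨a ++ u, ?_⟩, v ++ b, ?_⟩
  · rw [UA.run_append, ha]
  · rw [UA.run_append, ← UA.run_append U s u v]; exact hb

theorem ev_rot (u v : List U.A) : U.ev (u ++ v) * U.ev u = U.ev u * U.ev (v ++ u) := by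
  rw [UA.ev_append, UA.ev_append, mul_assoc]

/-- closed words with value in `K0` consist of `Z0`-transitions -/
theorem closed_all (s : U.S) (X : List U.A) (hX : U.run s X = s) (hK : U.ev X ∈ K0 T) :
    c1 T U s X = 0 := by
  apply c1_zero_of
  rintro u a v rfl
  refine ⟨v ++ u, ?_, ?_⟩
  · have e : u ++ a :: v ++ u = u ++ (a :: (v ++ u)) := by simp
    rw [← UA.run_append, ← e, UA.run_append, hX]
  · have h1 := ev_rot U u (a :: v)
    rw [List.cons_append] at h1
    exact (K0_conj_iff h1).1 hK

/-- at an elliptic state with a `K0`-word all closed words are in `K0` -/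
theorem closed_K0 (s : U.S) (hs : U.live s) (Y : List U.A) (hY0 : Y ≠ []) (hY : U.run s Y = s)
    (hK : U.ev Y ∈ K0 T) (X : List U.A) (hX : U.run s X = s) : U.ev X ∈ K0 T := by
  by_cases hX0 : X = []
  · rw [hX0, UA.ev_nil]
    exact ⟨1, one_pos, by rw [pow_one]; exact T.N0.one_mem⟩
  have hE : Elp T.toTreeX U s := ⟨Y, hY0, hY, K0_bdd hK⟩
  have h1 := closed_eq T U s hs hE (wpow X Y.length) (wpow Y X.length)
    (U.run_wpow hX _) (U.run_wpow hY _) (by rw [wpow_length, wpow_length, mul_comm])
  have h2 : U.ev X ^ Y.length ∈ K0 T := by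
    rw [← UA.ev_wpow, h1, UA.ev_wpow]
    exact K0_pow hK _
  exact K0_root (List.length_pos_of_ne_nil hY0) h2

/-- closed words with value outside `K0` have no `Z0`-transition -/
theorem closed_none (s : U.S) (hs : U.live s) (X : List U.A) (hX : U.run s X = s)
    (hK : U.ev X ∉ K0 T) : c0 T U s X = 0 := by
  apply c0_zero_of
  rintro u a v rfl ⟨Y, hY, hYK⟩
  apply hK
  have hl : U.live (U.run s u) := live_mid U hs (u := u) (v := a :: v) (by rw [hX]; exact hs)
  have hR : U.run (U.run s u) ((a :: v) ++ u) = U.run s u := by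
    rw [← UA.run_append, ← List.append_assoc, UA.run_append, hX]
  have h1 := closed_K0 T U _ hl (a :: Y) (by simp) hY hYK _ hR
  exact (K0_conj_iff (ev_rot U u (a :: v))).2 h1

theorem closed_c0 (s s' : U.S) (hs : U.live s) (hs' : U.live s') (X X' : List U.A)
    (hl : X.length = X'.length)
    (hX : U.run s X = s) (hX' : U.run s' X' = s') (δ : G) (h : U.ev X * δ = δ * U.ev X') :
    c0 T U s X = c0 T U s' X' := by
  by_cases hK : U.ev X ∈ K0 T
  · have h1 := closed_all T U s X hX hK
    have h2 := closed_all T U s' X' hX' ((K0_conj_iff h).1 hK)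
    have h3 := c0_add_c1 T U s X
    have h4 := c0_add_c1 T U s' X'
    omega
  · rw [closed_none T U s hs X hX hK,
      closed_none T U s' hs' X' hX' (fun h' => hK ((K0_conj_iff h).2 h'))]

/-- `Z0`-counts of fellow travelling paths -/
theorem pair_c0 (D : Set G) (hD : D.Finite) : ∃ C : ℕ, ∀ (n : ℕ) (s s' : U.S) (w w' : List U.A)
    (δ : G), w.length = n → w'.length = n → U.live s → U.live s' → U.live (U.run s w) →
    U.live (U.run s' w') → (∀ t ≤ n, (U.ev (w.take t))⁻¹ * δ * U.ev (w'.take t) ∈ D) →
    c0 T U s w ≤ c0 T U s' w' + C ∧ c0 T U s' w' ≤ c0 T U s w + C := by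
  haveI := U.finS
  haveI : Finite D := hD.to_subtype
  refine ⟨Nat.card (U.S × U.S × D), fun n => ?_⟩
  induction n using Nat.strong_induction_on with
  | _ n ih =>
  intro s s' w w' δ hw hw' hs hs' hl hl' hd
  by_cases hn : n ≤ Nat.card (U.S × U.S × D)
  · have h1 := c0_le T U s w
    have h2 := c0_le T U s' w'
    omega
  push Not at hn
  let f : Fin (n + 1) → U.S × U.S × D := fun i =>
    (U.run s (w.take i), U.run s' (w'.take i), ⟨_, hd i (by have := i.2; omega)⟩)
  have hninj : ¬ Function.Injective f := by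
    intro hinj
    have h1 := Nat.card_le_card_of_injective f hinj
    rw [Nat.card_fin] at h1
    omega
  obtain ⟨i, j, hij, hf⟩ : ∃ i j : Fin (n + 1), i < j ∧ f i = f j := by
    rw [Function.Injective] at hninj
    push Not at hninj
    obtain ⟨i, j, hf, hne⟩ := hninj
    rcases lt_or_gt_of_ne hne with h | h
    · exact ⟨i, j, h, hf⟩
    · exact ⟨j, i, h, hf.symm⟩
  have hj := j.2
  have hij' : (i : ℕ) < j := hij
  have e1 : U.run s (w.take i) = U.run s (w.take j) := congrArg Prod.fst hf
  have e2 : U.run s' (w'.take i) = U.run s' (w'.take j) :=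
    congrArg (fun q : U.S × U.S × D => q.2.1) hf
  have e3 : (U.ev (w.take i))⁻¹ * δ * U.ev (w'.take i) =
      (U.ev (w.take j))⁻¹ * δ * U.ev (w'.take j) :=
    congrArg (fun q : U.S × U.S × D => (q.2.2 : G)) hf
  -- decomposition
  have key : ∀ (v : List U.A), v.length = n → v = v.take i ++ (v.drop i).take (j - i) ++ v.drop j ∧
      v.take j = v.take i ++ (v.drop i).take (j - i) := by
    intro v _
    have h1 : v.take j = v.take i ++ (v.drop i).take (j - i) := by
      conv_lhs => rw [← Nat.add_sub_cancel' hij'.le]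
      rw [List.take_add]
    refine ⟨?_, h1⟩
    rw [← h1, List.take_append_drop]
  obtain ⟨hw1, hw2⟩ := key w hw
  obtain ⟨hw1', hw2'⟩ := key w' hw'
  set a := w.take i with ha
  set X := (w.drop i).take (j - i) with hX
  set b := w.drop j with hb
  set a' := w'.take i with ha'
  set X' := (w'.drop i).take (j - i) with hX'
  set b' := w'.drop j with hb'
  have ha_len : a.length = i := by rw [ha, List.length_take]; omega
  have ha_len' : a'.length = i := by rw [ha', List.length_take]; omega
  have hX_len : X.length = j - i := by rw [hX, List.length_take, List.length_drop]; omega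
  have hX_len' : X'.length = j - i := by rw [hX', List.length_take, List.length_drop]; omega
  have hb_len : b.length = n - j := by rw [hb, List.length_drop]; omega
  have hb_len' : b'.length = n - j := by rw [hb', List.length_drop]; omega
  have hXc : U.run (U.run s a) X = U.run s a := by
    rw [← UA.run_append, ← hw2]; exact e1.symm
  have hXc' : U.run (U.run s' a') X' = U.run s' a' := by
    rw [← UA.run_append, ← hw2']; exact e2.symm
  have hla : U.live (U.run s a) := live_mid U hs (v := X ++ b) (by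
    rw [← List.append_assoc, ← hw1]; exact hl)
  have hla' : U.live (U.run s' a') := live_mid U hs' (v := X' ++ b') (by
    rw [← List.append_assoc, ← hw1']; exact hl')
  have hev : U.ev X * ((U.ev a)⁻¹ * δ * U.ev a') = ((U.ev a)⁻¹ * δ * U.ev a') * U.ev X' := by
    rw [hw2, hw2', UA.ev_append, UA.ev_append] at e3
    have : U.ev X * ((U.ev a)⁻¹ * δ * U.ev a') =
        U.ev X * ((U.ev a * U.ev X)⁻¹ * δ * (U.ev a' * U.ev X')) := by rw [e3]
    rw [this]
    group
  have hXX := closed_c0 T U _ _ hla hla' X X' (hX_len.trans hX_len'.symm) hXc hXc' _ hev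
  have hc : c0 T U s w = c0 T U s (a ++ b) + c0 T U (U.run s a) X := by
    rw [hw1, c0_append, c0_append, c0_append, UA.run_append, hXc]; ring
  have hc' : c0 T U s' w' = c0 T U s' (a' ++ b') + c0 T U (U.run s' a') X' := by
    rw [hw1', c0_append, c0_append, c0_append, UA.run_append, hXc']; ring
  have hrun : U.run s (a ++ b) = U.run s w := by
    conv_rhs => rw [hw1]
    rw [UA.run_append, UA.run_append, UA.run_append, hXc]
  have hrun' : U.run s' (a' ++ b') = U.run s' w' := by
    conv_rhs => rw [hw1']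
    rw [UA.run_append, UA.run_append, UA.run_append, hXc']
  have hIH := ih (n - (j - i)) (by omega) s s' (a ++ b) (a' ++ b') δ
    (by rw [List.length_append]; omega) (by rw [List.length_append]; omega) hs hs'
    (by rw [hrun]; exact hl) (by rw [hrun']; exact hl') (by
      intro t ht
      rcases le_total t i with hti | hti
      · have h1 : (a ++ b).take t = w.take t := by
          rw [List.take_append_of_le_length (by omega), ha, List.take_take, min_eq_left hti]
        have h2 : (a' ++ b').take t = w'.take t := by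
          rw [List.take_append_of_le_length (by omega), ha', List.take_take, min_eq_left hti]
        rw [h1, h2]
        exact hd t (by omega)
      · have h1 : (a ++ b).take t = a ++ b.take (t - i) := by
          rw [List.take_append, List.take_of_length_le (by omega), ha_len]
        have h2 : (a' ++ b').take t = a' ++ b'.take (t - i) := by
          rw [List.take_append, List.take_of_length_le (by omega), ha_len']
        have h3 : w.take (t + (j - i)) = w.take j ++ b.take (t - i) := by
          have : t + (j - i) = j + (t - i) := by omega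
          rw [this, List.take_add]
        have h4 : w'.take (t + (j - i)) = w'.take j ++ b'.take (t - i) := by
          have : t + (j - i) = j + (t - i) := by omega
          rw [this, List.take_add]
        have h5 := hd (t + (j - i)) (by omega)
        rw [h3, h4, UA.ev_append, UA.ev_append] at h5
        rw [h1, h2, UA.ev_append, UA.ev_append]
        have h6 : (U.ev a * U.ev (b.take (t - i)))⁻¹ * δ * (U.ev a' * U.ev (b'.take (t - i))) =
            (U.ev (w.take j) * U.ev (b.take (t - i)))⁻¹ * δ *
              (U.ev (w'.take j) * U.ev (b'.take (t - i))) := by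
          have h7 : ∀ x y x' y' : G, (x * y)⁻¹ * δ * (x' * y') = y⁻¹ * (x⁻¹ * δ * x') * y' := by
            intro x y x' y'; group
          rw [h7, h7, e3]
        rw [h6]
        exact h5)
  omega

/-- `c0` and `c1` of the normal forms are Lipschitz under right multiplication -/
theorem c_lip (g : G) : ∃ C : ℕ, ∀ w ∈ U.L, ∀ w' ∈ U.L, U.ev w * g = U.ev w' →
    (c0 T U U.s0 w ≤ c0 T U U.s0 w' + C ∧ c0 T U U.s0 w' ≤ c0 T U U.s0 w + C) ∧
    (c1 T U U.s0 w ≤ c1 T U U.s0 w' + C ∧ c1 T U U.s0 w' ≤ c1 T U U.s0 w + C) := by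
  obtain ⟨D, hD, hft⟩ := U.ft' g
  obtain ⟨C1, hC1⟩ := lenS U g
  obtain ⟨C2, hC2⟩ := lenS U g⁻¹
  obtain ⟨C3, hC3⟩ := pair_c0 T U D hD
  refine ⟨2 * (C1 + C2 + C3), fun w hw w' hw' he => ?_⟩
  have hl1 := hC1 w hw w' hw' he
  have hl2 := hC2 w' hw' w hw (by rw [← he]; group)
  set m := min w.length w'.length with hm
  have hm1 : m ≤ w.length := min_le_left _ _
  have hm2 : m ≤ w'.length := min_le_right _ _
  have hm3 : w.length ≤ m + C2 := by omega
  have hm4 : w'.length ≤ m + C1 := by omega
  have hlive : ∀ v ∈ U.L, ∀ t, U.live (U.run U.s0 (v.take t)) := by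
    intro v hv t
    apply UA.live_of_mem (v := v.drop t)
    rw [List.take_append_drop]; exact hv
  have h0 : U.live U.s0 := by
    have := hlive w hw 0
    rwa [List.take_zero, UA.run_nil] at this
  have h1 := hC3 m U.s0 U.s0 (w.take m) (w'.take m) 1 (by rw [List.length_take]; omega)
    (by rw [List.length_take]; omega) h0 h0 (hlive w hw m) (hlive w' hw' m) (by
      intro t ht
      rw [List.take_take, List.take_take, min_eq_left ht, mul_one]
      exact hft w hw w' hw' he t)
  have h2 : c0 T U U.s0 w = c0 T U U.s0 (w.take m) + c0 T U (U.run U.s0 (w.take m)) (w.drop m) := by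
    rw [← c0_append, List.take_append_drop]
  have h3 : c0 T U U.s0 w' =
      c0 T U U.s0 (w'.take m) + c0 T U (U.run U.s0 (w'.take m)) (w'.drop m) := by
    rw [← c0_append, List.take_append_drop]
  have h4 := c0_le T U (U.run U.s0 (w.take m)) (w.drop m)
  have h5 := c0_le T U (U.run U.s0 (w'.take m)) (w'.drop m)
  rw [List.length_drop] at h4 h5
  have h6 := c0_add_c1 T U U.s0 w
  have h7 := c0_add_c1 T U U.s0 w'
  omega

end counts

end

end Pool.Agent.TH109
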