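import Mathlib
import Pool.Agent.TH109.Zer

set_option autoImplicit false

open scoped Classical

namespace Pool.Agent.TH109

open Pool.Agent.Helper943.LM

noncomputable section

variable {G : Type} [Group G]

section red

variable (T : TX G) (U : UA G)

/-- the `i`-th letter of `W` is a `Z0`-transition -/
def Zat (s : U.S) (W : List U.A) (i : ℕ) : Prop :=
  ∃ a, W[i]? = some a ∧ Z0 T U (U.run s (W.take i)) a

theorem c0_sum (s : U.S) (W : List U.A) :
    c0 T U s W = ∑ i ∈ Finset.range W.length, if Zat T U s W i then 1 else 0 := by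
  induction W using List.reverseRecOn with
  | nil => simp [c0]
  | append_singleton W a ih =>
    rw [c0_append, ih, List.length_append, List.length_singleton, Finset.sum_range_succ]
    congr 1
    · apply Finset.sum_congr rfl
      intro i hi
      have hi' := Finset.mem_range.1 hi
      have h : Zat T U s W i ↔ Zat T U s (W ++ [a]) i := by
        unfold Zat
        rw [List.getElem?_append_left hi', List.take_append_of_le_length hi'.le]
      simp only [h]
    · have h : Zat T U s (W ++ [a]) W.length ↔ Z0 T U (U.run s W) a := by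
        unfold Zat
        rw [List.getElem?_append_right le_rfl, List.take_append_of_le_length le_rfl,
          List.take_length]
        simp
      simp only [c0, h, add_zero]

theorem exists_red_len : ∃ q : ℕ, 0 < q ∧ ∀ s : U.S, (∃ a, Z0 T U s a) →
    ∃ Y : List U.A, Y ≠ [] ∧ U.run s Y = s ∧ U.ev Y ∈ T.N0 ∧ Y.length ≤ q := by
  haveI := U.finS
  have h : ∀ s : U.S, ∃ q : ℕ, (∃ a, Z0 T U s a) →
      ∃ Y : List U.A, Y ≠ [] ∧ U.run s Y = s ∧ U.ev Y ∈ T.N0 ∧ Y.length ≤ q := by
    intro s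
    by_cases hs : ∃ a, Z0 T U s a
    · obtain ⟨a, Y, hY, j, hj, hK⟩ := hs
      refine ⟨(wpow (a :: Y) j).length, fun _ => ⟨wpow (a :: Y) j, ?_, U.run_wpow hY j, ?_, le_rfl⟩⟩
      · intro h
        have := congrArg List.length h
        rw [wpow_length, List.length_cons, List.length_nil] at this
        have h2 : 0 < j * (Y.length + 1) := Nat.mul_pos hj (Nat.succ_pos _)
        omega
      · rw [UA.ev_wpow]; exact hK
    · exact ⟨0, fun h => absurd h hs⟩
  choose q hq using h
  obtain ⟨M, hM⟩ := Finite.exists_le q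
  refine ⟨M + 1, Nat.succ_pos _, fun s hs => ?_⟩
  obtain ⟨Y, h1, h2, h3, h4⟩ := hq s hs
  exact ⟨Y, h1, h2, h3, h4.trans ((hM s).trans (Nat.le_succ _))⟩

/-- long `Z0`-content contains a removable closed piece with value in `N0` -/
theorem red_exists : ∃ C2 : ℕ, ∀ (s : U.S) (W : List U.A), U.live s → U.live (U.run s W) →
    C2 < c0 T U s W → ∃ W1 X W2 : List U.A, W = W1 ++ X ++ W2 ∧ X ≠ [] ∧
      U.run (U.run s W1) X = U.run s W1 ∧ U.ev X ∈ T.N0 := by
  haveI := U.finS
  letI : Fintype U.S := Fintype.ofFinite _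
  obtain ⟨q, hq0, hq⟩ := exists_red_len T U
  have hq' : ∀ s : U.S, ∃ Y : List U.A, (∃ a, Z0 T U s a) → Y ≠ [] ∧ U.run s Y = s ∧
      U.ev Y ∈ T.N0 ∧ Y.length ≤ q := by
    intro s
    by_cases hs : ∃ a, Z0 T U s a
    · obtain ⟨Y, hY⟩ := hq s hs
      exact ⟨Y, fun _ => hY⟩
    · exact ⟨[], fun h => absurd h hs⟩
  choose Y hY using hq'
  refine ⟨(Finset.univ ×ˢ Finset.range q : Finset (U.S × ℕ)).card, fun s W hs hl hc => ?_⟩
  rw [c0_sum, ← Finset.card_filter] at hc
  obtain ⟨i, hi, j, hj, hne, hf⟩ := Finset.exists_ne_map_eq_of_card_lt_of_maps_to hc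
    (f := fun i => (U.run s (W.take i), i % (Y (U.run s (W.take i))).length)) (by
      intro i hi
      have hi' := (Finset.mem_filter.1 hi).2
      obtain ⟨a, -, ha⟩ := hi'
      obtain ⟨h1, -, -, h2⟩ := hY _ ⟨a, ha⟩
      simp only [Finset.coe_product, Set.mem_prod, Finset.coe_univ, Set.mem_univ, true_and,
        Finset.coe_range, Set.mem_Iio]
      exact lt_of_lt_of_le (Nat.mod_lt _ (List.length_pos_of_ne_nil h1)) h2)
  have main : ∀ i j : ℕ, i ∈ (Finset.range W.length).filter (Zat T U s W) →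
      j ∈ (Finset.range W.length).filter (Zat T U s W) → i < j →
      ((fun i => (U.run s (W.take i), i % (Y (U.run s (W.take i))).length)) i =
      (fun i => (U.run s (W.take i), i % (Y (U.run s (W.take i))).length)) j) →
      ∃ W1 X W2 : List U.A, W = W1 ++ X ++ W2 ∧ X ≠ [] ∧
      U.run (U.run s W1) X = U.run s W1 ∧ U.ev X ∈ T.N0 := by
    intro i j hi hj hij hf
    obtain ⟨hiW, a, -, ha⟩ := Finset.mem_filter.1 hi
    have hjW := (Finset.mem_filter.1 hj).1
    rw [Finset.mem_range] at hiW hjW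
    obtain ⟨h1, h2, h3, h4⟩ := hY _ ⟨a, ha⟩
    have e1 : U.run s (W.take i) = U.run s (W.take j) := congrArg Prod.fst hf
    have e2 : i % (Y (U.run s (W.take i))).length = j % (Y (U.run s (W.take i))).length := by
      have := congrArg Prod.snd hf
      simp only at this
      rw [← e1] at this
      exact this
    have hWj : W.take j = W.take i ++ (W.drop i).take (j - i) := by
      conv_lhs => rw [← Nat.add_sub_cancel' hij.le]
      rw [List.take_add]
    have hXc : U.run (U.run s (W.take i)) ((W.drop i).take (j - i)) = U.run s (W.take i) := by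
      rw [← UA.run_append, ← hWj]; exact e1.symm
    have hXl : ((W.drop i).take (j - i)).length = j - i := by
      rw [List.length_take, List.length_drop]; omega
    have hli : U.live (U.run s (W.take i)) := live_mid U hs (v := W.drop i) (by
      rw [List.take_append_drop]; exact hl)
    have hdvd : (Y (U.run s (W.take i))).length ∣ j - i :=
      (Nat.modEq_iff_dvd' hij.le).1 e2
    obtain ⟨r, hr⟩ := hdvd
    have hE : Elp T.toTreeX U (U.run s (W.take i)) := ⟨_, h1, h2, K0_bdd (K0_of_N0 h3)⟩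
    have hXY := closed_eq T U _ hli hE ((W.drop i).take (j - i)) (wpow (Y (U.run s (W.take i))) r)
      hXc (U.run_wpow h2 r) (by rw [hXl, wpow_length, hr, mul_comm])
    refine ⟨W.take i, (W.drop i).take (j - i), W.drop j, ?_, ?_, hXc, ?_⟩
    · rw [← hWj, List.take_append_drop]
    · intro h
      rw [h, List.length_nil] at hXl
      omega
    · rw [hXY, UA.ev_wpow]
      exact T.N0.pow_mem h3 r
  rcases lt_or_gt_of_ne hne with h | h
  · exact main i j hi hj h hf
  · exact main j i hj hi h hf.symm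

theorem lip_gen : ∃ C : ℕ, ∀ w : List U.A,
    T.nm (U.ev w) ≤ C * w.length ∧ ‖T.p (U.ev w)‖ ≤ C * w.length := by
  haveI := U.finA
  obtain ⟨R, hR⟩ := (Set.finite_range
    (fun a : U.A => max (T.nm (U.mu a) : ℝ) ‖T.p (U.mu a)‖)).bddAbove
  have hp1 : T.p 1 = 0 := by
    have := T.p_mul 1 1
    rw [mul_one, TreeX.tau_one, zpow_zero, one_mul] at this
    exact left_eq_add.mp this
  refine ⟨⌈R⌉₊, fun w => ?_⟩
  have ha : ∀ a : U.A, T.nm (U.mu a) ≤ ⌈R⌉₊ ∧ ‖T.p (U.mu a)‖ ≤ (⌈R⌉₊ : ℝ) := by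
    intro a
    have h1 : max (T.nm (U.mu a) : ℝ) ‖T.p (U.mu a)‖ ≤ R := hR ⟨a, rfl⟩
    have h2 := Nat.le_ceil R
    constructor
    · have : (T.nm (U.mu a) : ℝ) ≤ (⌈R⌉₊ : ℝ) := (le_max_left _ _).trans (h1.trans h2)
      exact_mod_cast this
    · exact (le_max_right _ _).trans (h1.trans h2)
  induction w with
  | nil =>
    rw [UA.ev_nil, TreeX.nm_one, hp1]
    simp
  | cons a w ih =>
    have e : U.ev (a :: w) = U.mu a * U.ev w := by simp [UA.ev]
    rw [e, List.length_cons]
    obtain ⟨h1, h2⟩ := ih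
    obtain ⟨h3, h4⟩ := ha a
    constructor
    · calc T.nm (U.mu a * U.ev w) ≤ T.nm (U.mu a) + T.nm (U.ev w) := TreeX.nm_mul _ _
        _ ≤ ⌈R⌉₊ + ⌈R⌉₊ * w.length := Nat.add_le_add h3 h1
        _ = ⌈R⌉₊ * (w.length + 1) := by ring
    · have h5 : ‖T.p (U.mu a * U.ev w)‖ ≤ ‖T.p (U.mu a)‖ + ‖T.p (U.ev w)‖ := by
        rw [T.p_mul]
        refine (norm_add_le _ _).trans ?_
        rw [norm_mul, norm_zpow, T.om_norm, one_zpow, one_mul]
      calc ‖T.p (U.mu a * U.ev w)‖ ≤ ‖T.p (U.mu a)‖ + ‖T.p (U.ev w)‖ := h5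
        _ ≤ (⌈R⌉₊ : ℝ) + ⌈R⌉₊ * w.length := add_le_add h4 h2
        _ = (⌈R⌉₊ : ℝ) * ((w.length + 1 : ℕ) : ℝ) := by push_cast; ring

/-- removing a closed piece with value in `N0` -/
theorem red_facts (s : U.S) (W1 X W2 : List U.A) (hX : U.run (U.run s W1) X = U.run s W1)
    (hN : U.ev X ∈ T.N0) :
    U.run s (W1 ++ W2) = U.run s (W1 ++ X ++ W2) ∧
    c1 T U s (W1 ++ W2) = c1 T U s (W1 ++ X ++ W2) ∧
    T.vx (U.ev (W1 ++ W2)) = T.vx (U.ev (W1 ++ X ++ W2)) ∧
    T.p (U.ev (W1 ++ W2)) = T.p (U.ev (W1 ++ X ++ W2)) := by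
  refine ⟨?_, ?_, ?_, ?_⟩
  · rw [UA.run_append, UA.run_append, UA.run_append, hX]
  · rw [c1_append, c1_append, c1_append, UA.run_append, hX,
      closed_all T U _ X hX (K0_of_N0 hN)]
    ring
  · rw [UA.ev_append, UA.ev_append, UA.ev_append, nm_mul_N0 hN]
  · rw [UA.ev_append, UA.ev_append, UA.ev_append, p_mul_N0 hN]

/-- tree drift and `p`-drift are bounded by the number of non-`Z0` transitions -/
theorem drift : ∃ C : ℕ, ∀ (s : U.S) (W : List U.A), U.live s → U.live (U.run s W) →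
    T.nm (U.ev W) ≤ C * (c1 T U s W + 1) ∧ ‖T.p (U.ev W)‖ ≤ C * (c1 T U s W + 1) := by
  obtain ⟨C, hC⟩ := lip_gen T U
  obtain ⟨C2, hC2⟩ := red_exists T U
  refine ⟨C * (C2 + 1), fun s W hs hl => ?_⟩
  induction hn : W.length using Nat.strong_induction_on generalizing W with
  | _ n ih =>
  by_cases hc : C2 < c0 T U s W
  · obtain ⟨W1, X, W2, rfl, hX0, hX, hN⟩ := hC2 s W hs hl hc
    obtain ⟨h1, h2, h3, h4⟩ := red_facts T U s W1 X W2 hX hN
    have hlen : 0 < X.length := List.length_pos_of_ne_nil hX0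
    have h5 := ih (W1 ++ W2).length (by
      rw [← hn, List.length_append, List.length_append, List.length_append]; omega)
      (W1 ++ W2) (by rw [h1]; exact hl) rfl
    rw [h2, h4] at h5
    have h6 : T.nm (U.ev (W1 ++ W2)) = T.nm (U.ev (W1 ++ X ++ W2)) := by
      rw [TreeX.nm_eq, TreeX.nm_eq, h3]
    rw [h6] at h5
    exact h5
  · push Not at hc
    have h1 := c0_add_c1 T U s W
    have h2 : W.length ≤ (C2 + 1) * (c1 T U s W + 1) := by nlinarith
    obtain ⟨h3, h4⟩ := hC W
    refine ⟨h3.trans ?_, h4.trans ?_⟩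
    · calc C * W.length ≤ C * ((C2 + 1) * (c1 T U s W + 1)) := Nat.mul_le_mul_left _ h2
        _ = _ := by ring
    · have h5 : (W.length : ℝ) ≤ ((C2 : ℝ) + 1) * ((c1 T U s W : ℝ) + 1) := by exact_mod_cast h2
      calc (C : ℝ) * W.length ≤ C * (((C2 : ℝ) + 1) * ((c1 T U s W : ℝ) + 1)) :=
            mul_le_mul_of_nonneg_left h5 (Nat.cast_nonneg _)
        _ = _ := by push_cast; ring

end red

/-- words from `s` to acceptance, staying beyond `e`, ending at depth `m` -/
def WW (T : TreeX G) (U : UA G) (m : ℕ) (s : U.S) (e : T.V × T.V) : Set (List U.A) :=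
  {W | U.run s W ∈ U.acc ∧ (∀ t, T.vx (U.ev (W.take t)) ∈ T.Hf e) ∧
    T.vx (U.ev W) ∈ T.Vt m e.2}

theorem take_red {α : Type} (W1 X W2 : List α) (t : ℕ) : ∃ t', (W1 ++ W2).take t = (W1 ++ X ++ W2).take t' ∨
    (∃ V, (W1 ++ W2).take t = W1 ++ V ∧ (W1 ++ X ++ W2).take t' = W1 ++ X ++ V) := by
  rcases le_total t W1.length with h | h
  · refine ⟨t, Or.inl ?_⟩
    rw [List.take_append_of_le_length h, List.append_assoc, List.take_append_of_le_length h]
  · refine ⟨t + X.length, Or.inr ⟨W2.take (t - W1.length), ?_, ?_⟩⟩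
    · rw [List.take_append, List.take_of_length_le h]
    · rw [List.take_append, List.take_of_length_le (by rw [List.length_append]; omega),
        List.length_append]
      congr 2
      omega

/-- words of `WW` can be reduced to bounded `Z0`-content -/
theorem red_WW (T : TX G) (U : UA G) : ∃ C2 : ℕ, ∀ (s : U.S) (e : T.V × T.V) (m : ℕ), U.live s →
    ∀ W ∈ WW T.toTreeX U m s e, ∃ W' ∈ WW T.toTreeX U m s e,
      c1 T U s W' = c1 T U s W ∧ c0 T U s W' ≤ C2 := by
  obtain ⟨C2, hC2⟩ := red_exists T U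
  refine ⟨C2, fun s e m hs W hW => ?_⟩
  induction hn : W.length using Nat.strong_induction_on generalizing W with
  | _ n ih =>
  by_cases hc : C2 < c0 T U s W
  · have hl : U.live (U.run s W) := by
      obtain ⟨⟨u, hu⟩, -⟩ := hs
      exact ⟨⟨u ++ W, by rw [UA.run_append, hu]⟩, [], hW.1⟩
    obtain ⟨W1, X, W2, rfl, hX0, hX, hN⟩ := hC2 s W hs hl hc
    obtain ⟨h1, h2, h3, h4⟩ := red_facts T U s W1 X W2 hX hN
    have hlen : 0 < X.length := List.length_pos_of_ne_nil hX0
    obtain ⟨W', hW', h5, h6⟩ := ih (W1 ++ W2).length (by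
      rw [← hn, List.length_append, List.length_append, List.length_append]; omega)
      (W1 ++ W2) (by
        refine ⟨by rw [h1]; exact hW.1, ?_, by rw [h3]; exact hW.2.2⟩
        intro t
        obtain ⟨t', ht | ⟨V, hV1, hV2⟩⟩ := take_red W1 X W2 t
        · rw [ht]; exact hW.2.1 t'
        · rw [hV1, UA.ev_append, ← nm_mul_N0 hN, ← UA.ev_append, ← UA.ev_append, ← hV2]
          exact hW.2.1 t') rfl
    exact ⟨W', hW', h5.trans h2, h6⟩
  · exact ⟨W, hW, rfl, not_lt.1 hc⟩

end

end Pool.Agent.TH109
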