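import Mathlib
import Pool.Agent.TH109.Zer2

set_option autoImplicit false

open scoped Classical ENNReal

namespace Pool.Agent.TH109

open Pool.Agent.Helper943.LM (UA)

noncomputable section

variable {G : Type} [Group G]

/-- `p` enters the half tree `e` with its last letter -/
def Ent (T : TreeX G) (U : UA G) (e : T.V × T.V) (p : List U.A) : Prop :=
  p ≠ [] ∧ T.vx (U.ev p) ∈ T.Hf e ∧ T.vx (U.ev p.dropLast) ∉ T.Hf e

/-- the edge `e` seen from the end of `p` -/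
def rel (T : TreeX G) (U : UA G) (p : List U.A) (e : T.V × T.V) : T.V × T.V :=
  T.actE (U.ev p)⁻¹ e

/-- relative entrance edges -/
def EE (T : TreeX G) (U : UA G) : Set (T.V × T.V) :=
  {e | T.IsE e ∧ T.o ∈ T.Hf e ∧ ∃ a : U.A, T.vx (U.mu a)⁻¹ ∉ T.Hf e}

/-- last entrance splitting of `W1 ++ W2` into the half tree `e` -/
def Lst (T : TreeX G) (U : UA G) (e : T.V × T.V) (W1 W2 : List U.A) : Prop :=
  (W1 = [] ∨ T.vx (U.ev W1.dropLast) ∉ T.Hf e) ∧ ∀ t, T.vx (U.ev (W1 ++ W2.take t)) ∈ T.Hf e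

/-- level piece of a word from `e` to the child edge `e'` -/
def LP (T : TreeX G) (U : UA G) (e e' : T.V × T.V) (W1 : List U.A) : Prop :=
  (W1 = [] ∨ T.vx (U.ev W1.dropLast) ∉ T.Hf e') ∧ T.vx (U.ev W1) ∈ T.Hf e' ∧
    ∀ t, T.vx (U.ev (W1.take t)) ∈ T.Hf e

section levels

variable (T : TreeX G) (U : UA G)

theorem lst_exists {e : T.V × T.V} {W : List U.A} (h : T.vx (U.ev W) ∈ T.Hf e) :
    ∃ W1 W2, W = W1 ++ W2 ∧ Lst T U e W1 W2 := by
  have hex : ∃ k, ∀ t, k ≤ t → T.vx (U.ev (W.take t)) ∈ T.Hf e :=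
    ⟨W.length, fun t ht => by rw [List.take_of_length_le ht]; exact h⟩
  obtain ⟨k, hk⟩ : ∃ k, k = Nat.find hex := ⟨_, rfl⟩
  have hk1 : ∀ t, k ≤ t → T.vx (U.ev (W.take t)) ∈ T.Hf e := by
    rw [hk]; exact Nat.find_spec hex
  have hk2 : ∀ k' < k, ¬ ∀ t, k' ≤ t → T.vx (U.ev (W.take t)) ∈ T.Hf e := by
    intro k' hk'
    rw [hk] at hk'
    exact Nat.find_min hex hk'
  have hk3 : k ≤ W.length := by
    rw [hk]
    exact Nat.find_min' hex (fun t ht => by rw [List.take_of_length_le ht]; exact h)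
  refine ⟨W.take k, W.drop k, (List.take_append_drop k W).symm, ?_, ?_⟩
  · rcases Nat.eq_zero_or_pos k with h0 | h0
    · left
      rw [h0, List.take_zero]
    · right
      have h1 := hk2 (k - 1) (by omega)
      push Not at h1
      obtain ⟨t, ht, ht2⟩ := h1
      have h2 : t = k - 1 := by
        by_contra hne
        exact ht2 (hk1 t (by omega))
      have h3 : (W.take k).dropLast = W.take (k - 1) := by
        rw [List.dropLast_eq_take, List.length_take, List.take_take]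
        congr 1
        omega
      rw [h3, ← h2]
      exact ht2
  · intro t
    rw [← List.take_add]
    exact hk1 _ (Nat.le_add_right _ _)

theorem lst_unique_aux {e : T.V × T.V} {W1 W2 W1' W2' : List U.A} (h : W1 ++ W2 = W1' ++ W2')
    (h1 : Lst T U e W1 W2) (h2 : Lst T U e W1' W2') : ¬ W1.length < W1'.length := by
  intro hlt
  rcases h2.1 with h3 | h3
  · rw [h3] at hlt
    simp at hlt
  · apply h3
    have h4 : W1'.dropLast = W1 ++ W2.take (W1'.length - 1 - W1.length) := by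
      have h5 : W1'.dropLast = (W1' ++ W2').take (W1'.length - 1) := by
        rw [List.dropLast_eq_take, List.take_append_of_le_length (by omega)]
      rw [h5, ← h, List.take_append, List.take_of_length_le (l := W1) (by omega)]
    rw [h4]
    exact h1.2 _

theorem lst_unique {e : T.V × T.V} {W1 W2 W1' W2' : List U.A} (h : W1 ++ W2 = W1' ++ W2')
    (h1 : Lst T U e W1 W2) (h2 : Lst T U e W1' W2') : W1 = W1' ∧ W2 = W2' := by
  have h3 := lst_unique_aux T U h h1 h2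
  have h4 := lst_unique_aux T U h.symm h2 h1
  exact List.append_inj h (by omega)

theorem lst_ent {e : T.V × T.V} (h1 : T.o ∉ T.Hf e) {W1 W2 : List U.A} (h : Lst T U e W1 W2) :
    Ent T U e W1 := by
  have h2 := h.2 0
  rw [List.take_zero, List.append_nil] at h2
  have h3 : W1 ≠ [] := by
    intro h4
    rw [h4, UA.ev_nil, TreeX.vx_one] at h2
    exact h1 h2
  exact ⟨h3, h2, h.1.resolve_left h3⟩

theorem ent_lst {e : T.V × T.V} {W1 W2 : List U.A} (h : Ent T U e W1)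
    (h2 : ∀ t, T.vx (U.ev (W1 ++ W2.take t)) ∈ T.Hf e) : Lst T U e W1 W2 := ⟨Or.inr h.2.2, h2⟩

theorem lev_aux_Hf (e : T.V × T.V) (g w : G) :
    T.vx w ∈ T.Hf (T.actE g⁻¹ e) ↔ T.vx (g * w) ∈ T.Hf e := by
  rw [TreeX.vx_mul, ← TreeX.act_Hf g (T.actE g⁻¹ e) (T.vx w), ← TreeX.actE_mul, mul_inv_cancel,
    TreeX.actE_one]

theorem lev_aux_Vt (e : T.V × T.V) (m : ℕ) (g w : G) :
    T.vx w ∈ T.Vt m (T.actE g⁻¹ e).2 ↔ T.vx (g * w) ∈ T.Vt m e.2 := by
  rw [TreeX.vx_mul, ← TreeX.act_Vt g m (T.actE g⁻¹ e).2 (T.vx w)]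
  have h : T.act g (T.actE g⁻¹ e).2 = e.2 := TreeX.act_act_inv g e.2
  rw [h]

theorem WW_shift (e : T.V × T.V) (W1 W2 : List U.A) (s : U.S) (m : ℕ) :
    W2 ∈ WW T U m (U.run s W1) (T.actE (U.ev W1)⁻¹ e) ↔
      U.run s (W1 ++ W2) ∈ U.acc ∧ (∀ t, T.vx (U.ev (W1 ++ W2.take t)) ∈ T.Hf e) ∧
        T.vx (U.ev (W1 ++ W2)) ∈ T.Vt m e.2 := by
  show (U.run (U.run s W1) W2 ∈ U.acc ∧
    (∀ t, T.vx (U.ev (W2.take t)) ∈ T.Hf (T.actE (U.ev W1)⁻¹ e)) ∧
    T.vx (U.ev W2) ∈ T.Vt m (T.actE (U.ev W1)⁻¹ e).2) ↔ _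
  simp only [UA.run_append, UA.ev_append, lev_aux_Hf, lev_aux_Vt]

theorem ww_succ {e : T.V × T.V} (he : T.IsE e) (m : ℕ) (s : U.S) (W : List U.A) :
    W ∈ WW T U (m + 1) s e ↔ ∃ (b : T.V) (W1 W2 : List U.A), T.E e.2 b ∧ W = W1 ++ W2 ∧
      LP T U e (e.2, b) W1 ∧
      W2 ∈ WW T U m (U.run s W1) (T.actE (U.ev W1)⁻¹ (e.2, b)) := by
  constructor
  · rintro ⟨h1, h2, h3⟩
    obtain ⟨b, hb, hb2⟩ := TreeX.Vt_succ_iff.1 h3
    have h4 : T.vx (U.ev W) ∈ T.Hf (e.2, b) := TreeX.Vt_sub m hb hb2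
    obtain ⟨W1, W2, rfl, hL⟩ := lst_exists T U h4
    refine ⟨b, W1, W2, hb, rfl, ⟨hL.1, ?_, ?_⟩, ?_⟩
    · have h5 := hL.2 0
      rw [List.take_zero, List.append_nil] at h5
      exact h5
    · intro t
      have h5 : W1.take t = (W1 ++ W2).take (min t W1.length) := by
        rw [List.take_append_of_le_length (min_le_right _ _)]
        rcases le_total t W1.length with h6 | h6
        · rw [min_eq_left h6]
        · rw [min_eq_right h6, List.take_of_length_le h6, List.take_length]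
      rw [h5]
      exact h2 _
    · rw [WW_shift]
      exact ⟨h1, hL.2, hb2⟩
  · rintro ⟨b, W1, W2, hb, rfl, hLP, hW⟩
    rw [WW_shift] at hW
    obtain ⟨h1, h2, h3⟩ := hW
    refine ⟨h1, ?_, TreeX.Vt_succ_iff.2 ⟨b, hb, h3⟩⟩
    intro t
    rcases le_total t W1.length with h6 | h6
    · rw [List.take_append_of_le_length h6]
      exact hLP.2.2 t
    · rw [List.take_append, List.take_of_length_le h6]
      exact TreeX.Hf_child (a := e.1) he hb (h2 _)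

theorem ww_succ_unique {e : T.V × T.V} (m : ℕ) (s : U.S) {b b' : T.V} (hb : T.E e.2 b)
    (hb' : T.E e.2 b') {W1 W2 W1' W2' : List U.A}
    (h : W1 ++ W2 = W1' ++ W2') (h1 : LP T U e (e.2, b) W1)
    (h2 : W2 ∈ WW T U m (U.run s W1) (T.actE (U.ev W1)⁻¹ (e.2, b)))
    (h1' : LP T U e (e.2, b') W1')
    (h2' : W2' ∈ WW T U m (U.run s W1') (T.actE (U.ev W1')⁻¹ (e.2, b'))) :
    b = b' ∧ W1 = W1' ∧ W2 = W2' := by
  rw [WW_shift] at h2 h2'
  have h3 : T.vx (U.ev (W1 ++ W2)) ∈ T.Vt m b := h2.2.2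
  have h4 : T.vx (U.ev (W1 ++ W2)) ∈ T.Vt m b' := by rw [h]; exact h2'.2.2
  have h5 : b = b' := TreeX.Vt_succ_unique hb hb' h3 h4
  subst h5
  exact ⟨rfl, lst_unique T U h ⟨h1.1, h2.2.1⟩ ⟨h1'.1, h2'.2.1⟩⟩

theorem ee_finite : (EE T U).Finite := by
  have := U.finA
  obtain ⟨D, hD⟩ := (Set.finite_range (fun a : U.A => T.nm (U.mu a)⁻¹)).bddAbove
  refine (TreeX.sep_finite (T := T) D).subset ?_
  rintro e ⟨he, h1, a, ha⟩
  exact ⟨he, h1, T.vx (U.mu a)⁻¹, hD ⟨a, rfl⟩, ha⟩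

theorem ee_core {e : T.V × T.V} (he : T.IsE e) {P : List U.A} (hne : P ≠ [])
    (h1 : T.vx (U.ev P) ∈ T.Hf e) (h2 : T.vx (U.ev P.dropLast) ∉ T.Hf e) :
    T.actE (U.ev P)⁻¹ e ∈ EE T U := by
  refine ⟨TreeX.act_IsE _ _ he, ?_, P.getLast hne, ?_⟩
  · have h3 : T.act (U.ev P)⁻¹ (T.vx (U.ev P)) = T.o := TreeX.act_inv_act _ _
    rw [← h3, TreeX.act_Hf]
    exact h1
  · have h4 : (U.mu (P.getLast hne))⁻¹ = (U.ev P)⁻¹ * U.ev P.dropLast := by
      have h5 : U.ev P = U.ev P.dropLast * U.mu (P.getLast hne) := by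
        conv_lhs => rw [← List.dropLast_append_getLast hne]
        rw [UA.ev_append]
        simp [UA.ev]
      rw [h5]
      group
    rw [h4, TreeX.vx_mul, TreeX.act_Hf]
    exact h2

theorem ee_of_ent {e : T.V × T.V} (he : T.IsE e) {p : List U.A} (h : Ent T U e p) :
    rel T U p e ∈ EE T U := ee_core T U he h.1 h.2.1 h.2.2

theorem ee_lev {e : T.V × T.V} (he : e ∈ EE T U) {b : T.V} (hb : T.E e.2 b) {W1 : List U.A}
    (h : LP T U e (e.2, b) W1) : T.actE (U.ev W1)⁻¹ (e.2, b) ∈ EE T U := by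
  obtain ⟨h1, h2, _⟩ := h
  by_cases hne : W1 = []
  · subst hne
    rw [UA.ev_nil, TreeX.vx_one] at h2
    rw [UA.ev_nil, inv_one, TreeX.actE_one]
    obtain ⟨he1, _, a, ha⟩ := he
    exact ⟨hb, h2, a, fun h3 => ha (TreeX.Hf_child (a := e.1) he1 hb h3)⟩
  · exact ee_core T U (e := (e.2, b)) hb hne h2 (h1.resolve_left hne)

/-- nodes -/
abbrev Nd (T : TreeX G) (U : UA G) : Type := {z : U.S × (T.V × T.V) // z.2 ∈ EE T U}

instance ndFinite : Finite (Nd T U) := by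
  have := U.finS
  have h : (EE T U).Finite := ee_finite T U
  have : Finite (EE T U) := h.to_subtype
  have h2 : Function.Injective (fun z : Nd T U => ((z.1.1, ⟨z.1.2, z.2⟩) : U.S × EE T U)) := by
    intro z z' hz
    apply Subtype.ext
    simp only [Prod.mk.injEq, Subtype.mk.injEq] at hz
    exact Prod.ext hz.1 hz.2
  exact Finite.of_injective _ h2

noncomputable instance ndFintype : Fintype (Nd T U) := Fintype.ofFinite _

variable (lw : U.S → U.A → ℝ≥0∞)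

/-- weight of a word -/
def wl (U : UA G) (lw : U.S → U.A → ℝ≥0∞) : U.S → List U.A → ℝ≥0∞
  | _, [] => 1
  | s, a :: w => lw s a * wl U lw (U.step s a) w

theorem wl_append (s : U.S) (u v : List U.A) :
    wl U lw s (u ++ v) = wl U lw s u * wl U lw (U.run s u) v := by
  induction u generalizing s with
  | nil => simp [wl, UA.run_nil]
  | cons a u ih =>
    rw [List.cons_append, wl, wl, ih, run_cons]; ring

/-- weighted number of completions -/
def Kw (m : ℕ) (z : Nd T U) : ℝ≥0∞ := ∑' W : WW T U m z.1.1 z.1.2, wl U lw z.1.1 W.1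

/-- one level step -/
def Stp (z : Nd T U) (W1 : List U.A) (z' : Nd T U) : Prop :=
  ∃ b, T.E z.1.2.2 b ∧ LP T U z.1.2 (z.1.2.2, b) W1 ∧
    z'.1 = (U.run z.1.1 W1, T.actE (U.ev W1)⁻¹ (z.1.2.2, b))

/-- transfer matrix -/
def Mw (z z' : Nd T U) : ℝ≥0∞ := ∑' W1 : {W1 : List U.A // Stp T U z W1 z'}, wl U lw z.1.1 W1.1

/-- decomposition of `WW (m+1)` -/
def wwEquivFun (m : ℕ) (z : Nd T U) :
    (Σ z' : Nd T U, {W1 : List U.A // Stp T U z W1 z'} × WW T U m z'.1.1 z'.1.2) →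
      WW T U (m + 1) z.1.1 z.1.2 := fun x =>
  ⟨x.2.1.1 ++ x.2.2.1, by
    obtain ⟨z', ⟨W1, b, hb, hLP, hz'⟩, ⟨W2, hW2⟩⟩ := x
    refine (ww_succ T U z.2.1 m _ _).2 ⟨b, W1, W2, hb, rfl, hLP, ?_⟩
    have h1 : z'.1.1 = U.run z.1.1 W1 := congrArg Prod.fst hz'
    have h2 : z'.1.2 = T.actE (U.ev W1)⁻¹ (z.1.2.2, b) := congrArg Prod.snd hz'
    rw [← h1, ← h2]
    exact hW2⟩

theorem wwEquiv_bij (m : ℕ) (z : Nd T U) : Function.Bijective (wwEquivFun T U m z) := by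
  constructor
  · rintro ⟨z', ⟨W1, b, hb, hLP, hz'⟩, ⟨W2, hW2⟩⟩ ⟨z'', ⟨W1', b', hb', hLP', hz''⟩, ⟨W2', hW2'⟩⟩ h
    have h0 : W1 ++ W2 = W1' ++ W2' := congrArg Subtype.val h
    have h1 : z'.1.1 = U.run z.1.1 W1 := congrArg Prod.fst hz'
    have h2 : z'.1.2 = T.actE (U.ev W1)⁻¹ (z.1.2.2, b) := congrArg Prod.snd hz'
    have h1' : z''.1.1 = U.run z.1.1 W1' := congrArg Prod.fst hz''
    have h2' : z''.1.2 = T.actE (U.ev W1')⁻¹ (z.1.2.2, b') := congrArg Prod.snd hz''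
    have hW2a := hW2
    have hW2a' := hW2'
    rw [h1, h2] at hW2a
    rw [h1', h2'] at hW2a'
    obtain ⟨e1, e2, e3⟩ := ww_succ_unique T U m z.1.1 hb hb' h0 hLP hW2a hLP' hW2a'
    subst e1 e2 e3
    have e4 : z' = z'' := Subtype.ext (hz'.trans hz''.symm)
    subst e4
    rfl
  · rintro ⟨W, hW⟩
    obtain ⟨b, W1, W2, hb, rfl, hLP, hW2⟩ := (ww_succ T U z.2.1 m _ _).1 hW
    exact ⟨⟨⟨(U.run z.1.1 W1, T.actE (U.ev W1)⁻¹ (z.1.2.2, b)), ee_lev T U z.2 hb hLP⟩,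
      ⟨W1, b, hb, hLP, rfl⟩, ⟨W2, hW2⟩⟩, rfl⟩

theorem Kw_succ (m : ℕ) (z : Nd T U) :
    Kw T U lw (m + 1) z = ∑ z' : Nd T U, Mw T U lw z z' * Kw T U lw m z' := by
  unfold Kw
  rw [← (Equiv.ofBijective _ (wwEquiv_bij T U m z)).tsum_eq
    (fun W : WW T U (m + 1) z.1.1 z.1.2 => wl U lw z.1.1 W.1), ENNReal.tsum_sigma', tsum_fintype]
  refine Finset.sum_congr rfl fun z' _ => ?_
  rw [ENNReal.tsum_prod']
  unfold Mw
  rw [← ENNReal.tsum_mul_right]
  refine tsum_congr fun W1 => ?_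
  rw [← ENNReal.tsum_mul_left]
  refine tsum_congr fun W2 => ?_
  obtain ⟨W1, b, hb, hLP, hz'⟩ := W1
  obtain ⟨W2, hW2⟩ := W2
  have h1 : z'.1.1 = U.run z.1.1 W1 := congrArg Prod.fst hz'
  show wl U lw z.1.1 (W1 ++ W2) = wl U lw z.1.1 W1 * wl U lw z'.1.1 W2
  rw [wl_append, h1]

/-- normal form -/
def nf (U : UA G) (g : G) : List U.A := (U.ev_surj g).choose
theorem nf_mem (g : G) : nf U g ∈ U.L := (U.ev_surj g).choose_spec.1
theorem nf_ev (g : G) : U.ev (nf U g) = g := (U.ev_surj g).choose_spec.2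
theorem nf_eq {w : List U.A} (h : w ∈ U.L) : nf U (U.ev w) = w :=
  U.ev_inj (nf_mem U _) h (nf_ev U _)

/-- entrances into `e` with node `z` -/
def EntZ (T : TreeX G) (U : UA G) (e : T.V × T.V) (z : Nd T U) : Set (List U.A) :=
  {P | Ent T U e P ∧ z.1 = (U.run U.s0 P, rel T U P e)}

/-- weighted number of entrances -/
def Lw (e : T.V × T.V) (a : List U.A → ℝ≥0∞) (z : Nd T U) : ℝ≥0∞ :=
  ∑' P : EntZ T U e z, wl U lw U.s0 P.1 * a P.1

def topFun (m : ℕ) (e : T.V × T.V) :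
    (Σ z : Nd T U, EntZ T U e z × WW T U m z.1.1 z.1.2) → {g : G // T.vx g ∈ T.Vt m e.2} :=
  fun x => ⟨U.ev (x.2.1.1 ++ x.2.2.1), by
    obtain ⟨z, ⟨P, hP, hz⟩, ⟨W, hW⟩⟩ := x
    have h1 : z.1.1 = U.run U.s0 P := congrArg Prod.fst hz
    have h2 : z.1.2 = T.actE (U.ev P)⁻¹ e := congrArg Prod.snd hz
    rw [h1, h2, WW_shift] at hW
    exact hW.2.2⟩

theorem top_bij (m : ℕ) (e : T.V × T.V) (he : T.IsE e) (ho : T.o ∉ T.Hf e) :
    Function.Bijective (topFun T U m e) := by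
  constructor
  · rintro ⟨z, ⟨P, hP, hz⟩, ⟨W, hW⟩⟩ ⟨z', ⟨P', hP', hz'⟩, ⟨W', hW'⟩⟩ h
    have h0 : U.ev (P ++ W) = U.ev (P' ++ W') := congrArg Subtype.val h
    have hWa := hW
    have hWa' := hW'
    have h1 : z.1.1 = U.run U.s0 P := congrArg Prod.fst hz
    have h2 : z.1.2 = T.actE (U.ev P)⁻¹ e := congrArg Prod.snd hz
    have h1' : z'.1.1 = U.run U.s0 P' := congrArg Prod.fst hz'
    have h2' : z'.1.2 = T.actE (U.ev P')⁻¹ e := congrArg Prod.snd hz'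
    rw [h1, h2, WW_shift] at hWa
    rw [h1', h2', WW_shift] at hWa'
    have h3 : P ++ W = P' ++ W' := U.ev_inj hWa.1 hWa'.1 h0
    obtain ⟨e1, e2⟩ := lst_unique T U h3 (ent_lst T U hP hWa.2.1) (ent_lst T U hP' hWa'.2.1)
    subst e1 e2
    have e4 : z = z' := Subtype.ext (hz.trans hz'.symm)
    subst e4
    rfl
  · rintro ⟨g, hg⟩
    have h4 : T.vx (U.ev (nf U g)) ∈ T.Hf e := by
      rw [nf_ev]; exact TreeX.Vt_sub' he m hg
    obtain ⟨P, W, hPW, hL⟩ := lst_exists T U h4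
    have hE := lst_ent T U ho hL
    have hW : W ∈ WW T U m (U.run U.s0 P) (T.actE (U.ev P)⁻¹ e) := by
      rw [WW_shift]
      refine ⟨?_, hL.2, ?_⟩
      · rw [← hPW]; exact nf_mem U g
      · rw [← hPW, nf_ev]; exact hg
    refine ⟨⟨⟨(U.run U.s0 P, rel T U P e), ee_of_ent T U he hE⟩, ⟨P, hE, rfl⟩, ⟨W, hW⟩⟩, ?_⟩
    apply Subtype.ext
    show U.ev (P ++ W) = g
    rw [← hPW, nf_ev]

theorem top_sum (m : ℕ) (e : T.V × T.V) (he : T.IsE e) (ho : T.o ∉ T.Hf e)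
    (a : List U.A → ℝ≥0∞) (b : G → ℝ≥0∞)
    (hab : ∀ P W, Ent T U e P → W ∈ WW T U m (U.run U.s0 P) (rel T U P e) →
      b (U.ev (P ++ W)) = a P) :
    ∑' g : {g : G // T.vx g ∈ T.Vt m e.2}, wl U lw U.s0 (nf U g.1) * b g.1 =
      ∑ z : Nd T U, Lw T U lw e a z * Kw T U lw m z := by
  rw [← (Equiv.ofBijective _ (top_bij T U m e he ho)).tsum_eq
    (fun g : {g : G // T.vx g ∈ T.Vt m e.2} => wl U lw U.s0 (nf U g.1) * b g.1),
    ENNReal.tsum_sigma', tsum_fintype]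
  refine Finset.sum_congr rfl fun z _ => ?_
  rw [ENNReal.tsum_prod']
  unfold Lw Kw
  rw [← ENNReal.tsum_mul_right]
  refine tsum_congr fun P => ?_
  rw [← ENNReal.tsum_mul_left]
  refine tsum_congr fun W => ?_
  obtain ⟨P, hP, hz⟩ := P
  obtain ⟨W, hW⟩ := W
  have h1 : z.1.1 = U.run U.s0 P := congrArg Prod.fst hz
  have h2 : z.1.2 = T.actE (U.ev P)⁻¹ e := congrArg Prod.snd hz
  show wl U lw U.s0 (nf U (U.ev (P ++ W))) * b (U.ev (P ++ W)) =
    wl U lw U.s0 P * a P * wl U lw z.1.1 W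
  have hW' := hW
  rw [h1, h2] at hW'
  rw [hab P W hP hW', nf_eq U, wl_append, h1]
  · ring
  · rw [WW_shift] at hW'
    exact hW'.1

end levels

end

end Pool.Agent.TH109
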