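import Mathlib
import Pool.Agent.TH109.Lev

set_option autoImplicit false

namespace Pool.Agent.TH109

open Pool.Agent.Helper943.LM (UA)

/-- The automaton reading the padded pairs `(nf g, nf (g * c))`, again a `UA` structure for `G`
(evaluated through the first coordinate). -/
structure PairUA {G : Type} [Group G] (U : UA G) (c : G) where
  P : UA G
  fst : P.A → Option U.A
  snd : P.A → Option U.A
  pr : P.S → U.S
  pr_s0 : pr P.s0 = U.s0
  pr_some : ∀ s a b, fst a = some b → pr (P.step s a) = U.step (pr s) b
  pr_none : ∀ s a, fst a = none → pr (P.step s a) = pr s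
  mu_some : ∀ a b, fst a = some b → P.mu a = U.mu b
  mu_none : ∀ a, fst a = none → P.mu a = 1
  take_fst : ∀ g t, ((nf P g).take t).filterMap fst = (nf U g).take t
  take_snd : ∀ g t, ((nf P g).take t).filterMap snd = (nf U (g * c)).take t

end Pool.Agent.TH109
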