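import Mathlib
import Pool.Agent.TH109.Zer2

set_option autoImplicit false

open scoped Classical

namespace Pool.Agent.TH109

open Pool.Agent.Helper943.LM

noncomputable section

variable {G : Type} [Group G]

/-- a word ending in the `n`-th half tree near `lam` whose remaining part there has many
non-`Z0` transitions -/
def BadW (T : TX G) (U : UA G) (m T0 : ℕ) (lam : G) (n : ℕ) (w : List U.A) (t : ℕ) : Prop :=
  w ∈ U.L ∧ (∀ i, t ≤ i → T.vx (U.ev (w.take i)) ∈ T.Hf (T.rt n)) ∧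
    T0 < c1 T U (U.run U.s0 (w.take t)) (w.drop t) ∧
    (∃ m' ≤ m, T.vx (U.ev w) ∈ T.Vt m' (T.rt n).2) ∧ T.loc (U.ev w) = lam

theorem ft_set (U : UA G) (Q : Set G) (hQ : Q.Finite) : ∃ (D : Set G) (C : ℕ), D.Finite ∧
    ∀ w ∈ U.L, ∀ w' ∈ U.L, (U.ev w)⁻¹ * U.ev w' ∈ Q →
      (∀ t, (U.ev (w.take t))⁻¹ * U.ev (w'.take t) ∈ D) ∧ w'.length ≤ w.length + C := by
  choose D hD hft using U.ft'
  choose C hC using lenS U
  refine ⟨⋃ q ∈ Q, D q, ∑ q ∈ hQ.toFinset, C q, Set.Finite.biUnion hQ fun q _ => hD q, ?_⟩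
  intro w hw w' hw' hq
  have e : U.ev w * ((U.ev w)⁻¹ * U.ev w') = U.ev w' := mul_inv_cancel_left _ _
  refine ⟨fun t => ?_, ?_⟩
  · rw [Set.mem_iUnion₂]
    exact ⟨_, hq, hft _ w hw w' hw' e t⟩
  · refine (hC _ w hw w' hw' e).trans ?_
    have : C ((U.ev w)⁻¹ * U.ev w') ≤ ∑ q ∈ hQ.toFinset, C q :=
      Finset.single_le_sum (f := C) (fun _ _ => Nat.zero_le _) (hQ.mem_toFinset.2 hq)
    omega

theorem ft_loc (T : TX G) (U : UA G) : ∃ (D : ℕ → Set G) (Ψ : ℕ → ℕ), (∀ k, (D k).Finite) ∧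
    Monotone Ψ ∧ (∀ k, ∀ d ∈ D k, T.nm d ≤ Ψ k) ∧
    ∀ k, ∀ w ∈ U.L, ∀ w' ∈ U.L, T.loc (U.ev w) = T.loc (U.ev w') →
      T.dT (T.vx (U.ev w)) (T.vx (U.ev w')) ≤ k →
      (∀ t, (U.ev (w.take t))⁻¹ * U.ev (w'.take t) ∈ D k) ∧ w'.length ≤ w.length + Ψ k := by
  have h1 : ∀ k : ℕ, ∃ (D : Set G) (C : ℕ), D.Finite ∧ ∀ w ∈ U.L, ∀ w' ∈ U.L,
      T.loc (U.ev w) = T.loc (U.ev w') → T.dT (T.vx (U.ev w)) (T.vx (U.ev w')) ≤ k →
      (∀ t, (U.ev (w.take t))⁻¹ * U.ev (w'.take t) ∈ D) ∧ w'.length ≤ w.length + C := by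
    intro k
    obtain ⟨Q, hQ, hloc⟩ := T.loc_fin k
    obtain ⟨D, C, hD, h⟩ := ft_set U Q hQ
    exact ⟨D, C, hD, fun w hw w' hw' hl hd => h w hw w' hw' (hloc _ _ hl hd)⟩
  choose D C hD h using h1
  have h2 : ∀ k : ℕ, ∃ N : ℕ, ∀ d ∈ D k, T.nm d ≤ N := by
    intro k
    obtain ⟨N, hN⟩ := ((hD k).image T.nm).bddAbove
    exact ⟨N, fun d hd => hN ⟨d, hd, rfl⟩⟩
  choose N hN using h2
  have hle : ∀ (f : ℕ → ℕ) (k : ℕ), f k ≤ ∑ i ∈ Finset.range (k + 1), f i := fun f k =>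
    Finset.single_le_sum (f := f) (fun _ _ => Nat.zero_le _) (Finset.mem_range.2 (by omega))
  refine ⟨D, fun k => ∑ i ∈ Finset.range (k + 1), (C i + N i), hD, ?_, ?_, ?_⟩
  · intro a b hab
    exact Finset.sum_le_sum_of_subset (Finset.range_mono (by omega))
  · intro k d hd
    have h3 := hN k d hd
    have h4 := hle (fun i => C i + N i) k
    simp only at h4 ⊢
    omega
  · intro k w hw w' hw' hl hd
    obtain ⟨h5, h6⟩ := h k w hw w' hw' hl hd
    have h4 := hle (fun i => C i + N i) k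
    refine ⟨h5, ?_⟩
    simp only at h4 ⊢
    omega

/-- pairs of bad words hover -/
theorem pairS' (T : TX G) (U : UA G) (m : ℕ) : ∃ (D : ℕ → Set G) (Ψ : ℕ → ℕ),
    (∀ k, (D k).Finite) ∧ Monotone Ψ ∧
    ∀ (T0 T0' : ℕ) (lam : G) (n n' : ℕ) (w w' : List U.A) (t t' : ℕ),
    n ≠ n' → BadW T U m T0 lam n w t → BadW T U m T0' lam n' w' t' →
    w'.length ≤ w.length + Ψ (((n : ℤ) - n').natAbs) ∧
    (∀ i, (U.ev (w.take i))⁻¹ * U.ev (w'.take i) ∈ D (((n : ℤ) - n').natAbs)) ∧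
    ∀ i, t ≤ i → t' ≤ i →
      T.dT (T.vx (U.ev (w.take i))) (T.rt n).1 ≤ Ψ (((n : ℤ) - n').natAbs) := by
  obtain ⟨D, Φ, hD, hΦ, hΦD, h⟩ := ft_loc T U
  refine ⟨fun k => D (k + 2 * m + 2), fun k => Φ (k + 2 * m + 2), fun k => hD _,
    fun a b hab => hΦ (by omega), ?_⟩
  intro T0 T0' lam n n' w w' t t' hnn hb hb'
  obtain ⟨hw, hin, hlen, ⟨m1, hm1, hv⟩, hp⟩ := hb
  obtain ⟨hw', hin', hlen', ⟨m2, hm2, hv'⟩, hp'⟩ := hb'
  have hd := TreeX.rt_top_dist hv hv'
  have hd' : T.dT (T.vx (U.ev w)) (T.vx (U.ev w')) ≤ ((n : ℤ) - n').natAbs + 2 * m + 2 := by omega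
  obtain ⟨h1, h2⟩ := h _ w hw w' hw' (hp.trans hp'.symm) hd'
  refine ⟨h2, h1, fun i hi hi' => ?_⟩
  have a1 := hin i hi
  have a2 : T.vx (U.ev (w'.take i)) ∉ T.Hf (T.rt n) :=
    fun hh => Set.disjoint_left.1 (TreeX.rt_disj hnn) hh (hin' i hi')
  refine ((TreeX.Hf_out_le (TreeX.rt_IsE n) a1 a2).1).trans ?_
  rw [← TreeX.nm_inv_mul]
  exact hΦD _ _ (h1 i)

/-- values of closed words at elliptic states have tree-bounded powers -/
theorem closed_tb (T : TX G) (U : UA G) (s : U.S) (hs : U.live s) (hE : Elp T.toTreeX U s)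
    (X : List U.A) (hX : U.run s X = s) : ∃ C : ℕ, ∀ j : ℕ, T.nm (U.ev X ^ j) ≤ C := by
  obtain ⟨y, hy, hsy, C, hC⟩ := hE
  have h1 := closed_eq T U s hs ⟨y, hy, hsy, C, hC⟩ (wpow X y.length) (wpow y X.length)
    (U.run_wpow hX _) (U.run_wpow hsy _) (by rw [wpow_length, wpow_length, mul_comm])
  have h2 : U.ev X ^ y.length = U.ev y ^ X.length := by
    rw [← UA.ev_wpow, h1, UA.ev_wpow]
  have hyl : 0 < y.length := List.length_pos_of_ne_nil hy
  refine ⟨(∑ r ∈ Finset.range y.length, T.nm (U.ev X ^ r)) + C, fun j => ?_⟩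
  have e : U.ev X ^ j = U.ev X ^ (j % y.length) * U.ev y ^ (X.length * (j / y.length)) := by
    rw [pow_mul, ← h2, ← pow_mul, ← pow_add, Nat.mod_add_div]
  rw [e]
  refine (TreeX.nm_mul _ _).trans (Nat.add_le_add ?_ (hC _))
  exact Finset.single_le_sum (f := fun r => T.nm (U.ev X ^ r)) (fun _ _ => Nat.zero_le _)
    (Finset.mem_range.2 (Nat.mod_lt _ hyl))

theorem c1_take_mono (T : TX G) (U : UA G) (s : U.S) (R : List U.A) (i j : ℕ) (hij : i ≤ j) :
    c1 T U s (R.take i) ≤ c1 T U s (R.take j) ∧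
    c1 T U s (R.take j) ≤ c1 T U s (R.take i) + (j - i) := by
  have e : R.take j = R.take i ++ (R.drop i).take (j - i) := by
    conv_lhs => rw [← Nat.add_sub_cancel' hij]
    rw [List.take_add]
  have h1 := c1_append T U s (R.take i) ((R.drop i).take (j - i))
  rw [← e] at h1
  have h2 := c1_le T U (U.run s (R.take i)) ((R.drop i).take (j - i))
  have h3 : ((R.drop i).take (j - i)).length ≤ j - i := by
    rw [List.length_take]; exact min_le_left _ _
  omega

theorem c1_ivt (T : TX G) (U : UA G) (s : U.S) (R : List U.A) :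
    ∀ v ≤ c1 T U s R, ∃ i, c1 T U s (R.take i) = v := by
  have h : ∀ L v, v ≤ c1 T U s (R.take L) → ∃ i, c1 T U s (R.take i) = v := by
    intro L
    induction L with
    | zero =>
      intro v hv
      exact ⟨0, by have : c1 T U s (R.take 0) = 0 := rfl; omega⟩
    | succ L ih =>
      intro v hv
      by_cases hv' : v ≤ c1 T U s (R.take L)
      · exact ih v hv'
      · have h1 := (c1_take_mono T U s R L (L + 1) (Nat.le_succ L)).2
        exact ⟨L + 1, by omega⟩
  intro v hv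
  exact h R.length v (by rw [List.take_length]; exact hv)

/-- the hovering lemma -/
theorem hovS' (T : TX G) (U : UA G) (m J : ℕ) : ∃ T0 : ℕ, ∀ (lam : G) (Q : Finset ℕ),
    (∀ n ∈ Q, n ≤ J) → ∀ (w : ℕ → List U.A) (t : ℕ → ℕ),
    (∀ n ∈ Q, BadW T U m T0 lam n (w n) (t n)) →
    ∃ n0 ta : ℕ, (∀ n ∈ Q, n ≠ n0 → t n ≤ ta) ∧
      ∀ n ∈ Q, ∀ n' ∈ Q, n ≠ n0 → n' ≠ n0 →
        U.run U.s0 ((w n).take ta) = U.run U.s0 ((w n').take ta) →
        T.tau (U.ev ((w n).take ta)) = T.tau (U.ev ((w n').take ta)) := by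
  obtain ⟨D, Ψ, hD, hΨm, hΨ⟩ := pairS' T U m
  set K := Ψ J with hK
  obtain ⟨B, hB⟩ := closed_bdd' T U (2 * K)
  set T1 := B + 1 with hT1
  set DJ : Set G := insert 1 (⋃ k ∈ Finset.range (J + 1), D k) with hDJ
  have hDJf : DJ.Finite := (Set.Finite.biUnion (Finset.finite_toSet _) fun k _ => hD k).insert 1
  haveI := U.finS
  haveI : Finite DJ := hDJf.to_subtype
  set N := Nat.card (Fin (J + 1) → U.S × Option DJ) with hN
  refine ⟨K + N * T1, fun lam Q hQ w t hbad => ?_⟩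
  rcases Q.eq_empty_or_nonempty with hQe | hQne
  · subst hQe
    exact ⟨0, 0, fun n hn => by simp at hn, fun n hn => by simp at hn⟩
  obtain ⟨n0, hn0, hmin⟩ := Finset.exists_min_image Q t hQne
  rcases (Q.erase n0).eq_empty_or_nonempty with hQ'e | hQ'ne
  · have hall : ∀ n ∈ Q, n = n0 := by
      intro n hn
      by_contra hne
      have : n ∈ Q.erase n0 := Finset.mem_erase.2 ⟨hne, hn⟩
      rw [hQ'e] at this
      simp at this
    exact ⟨n0, 0, fun n hn hne => absurd (hall n hn) hne,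
      fun n hn _ _ hne => absurd (hall n hn) hne⟩
  obtain ⟨n1, hn1, hmax⟩ := Finset.exists_max_image (Q.erase n0) t hQ'ne
  have hn1Q : n1 ∈ Q := Finset.mem_of_mem_erase hn1
  have hn1ne : n1 ≠ n0 := Finset.ne_of_mem_erase hn1
  have habs0 : ∀ n ∈ Q, ∀ n' ∈ Q, ((n : ℤ) - n').natAbs ≤ J := by
    intro n hn n' hn'
    have := hQ n hn
    have := hQ n' hn'
    omega
  have habs : ∀ n ∈ Q, ∀ n' ∈ Q, Ψ (((n : ℤ) - n').natAbs) ≤ K := fun n hn n' hn' =>
    hΨm (habs0 n hn n' hn')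
  -- near the root
  have hroot : ∀ n ∈ Q, n ≠ n0 → ∀ i, t n ≤ i →
      T.dT (T.vx (U.ev ((w n).take i))) (T.rt n).1 ≤ K := by
    intro n hn hne i hi
    have := (hΨ _ _ lam n n0 (w n) (w n0) (t n) (t n0) hne (hbad n hn) (hbad n0 hn0)).2.2 i hi
      ((hmin n hn).trans hi)
    exact this.trans (habs n hn n0 hn0)
  -- differences
  have hdiff : ∀ n ∈ Q, ∀ i, (U.ev ((w n1).take i))⁻¹ * U.ev ((w n).take i) ∈ DJ := by
    intro n hn i
    by_cases h : n1 = n
    · subst h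
      rw [inv_mul_cancel]
      exact Set.mem_insert _ _
    · refine Set.mem_insert_of_mem _ ?_
      rw [Set.mem_iUnion₂]
      exact ⟨_, Finset.mem_range.2 (Nat.lt_succ_of_le (habs0 n1 hn1Q n hn)),
        (hΨ _ _ lam n1 n (w n1) (w n) (t n1) (t n) h (hbad n1 hn1Q) (hbad n hn)).2.1 i⟩
  -- times
  set R := (w n1).drop (t n1) with hR
  set s1 := U.run U.s0 ((w n1).take (t n1)) with hs1
  have hcR : K + N * T1 < c1 T U s1 R := (hbad n1 hn1Q).2.2.1
  have htimes : ∀ k : Fin (N + 1), ∃ i, c1 T U s1 (R.take i) = k * T1 := by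
    intro k
    apply c1_ivt
    have h1 : (k : ℕ) * T1 ≤ N * T1 := Nat.mul_le_mul_right _ (Nat.lt_succ_iff.1 k.2)
    omega
  choose ti hti using htimes
  -- all words are long enough at these times
  have hlen : ∀ n ∈ Q, n ≠ n0 → ∀ k, t n1 + ti k ≤ (w n).length := by
    intro n hn hne k
    have hk : (k : ℕ) * T1 ≤ N * T1 := Nat.mul_le_mul_right _ (Nat.lt_succ_iff.1 k.2)
    have h3 : (w n1).length ≤ (w n).length + K := by
      by_cases h : n = n1
      · subst h; omega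
      · have h3 := (hΨ _ _ lam n n1 (w n) (w n1) (t n) (t n1) h (hbad n hn) (hbad n1 hn1Q)).1
        have h4 := habs n hn n1 hn1Q
        omega
    by_contra hlt
    push Not at hlt
    have hRl : R.length = (w n1).length - t n1 := by rw [hR, List.length_drop]
    have h5 : c1 T U s1 R ≤ c1 T U s1 (R.take (ti k)) + K := by
      rcases le_total (ti k) R.length with h | h
      · have h6 := (c1_take_mono T U s1 R (ti k) R.length h).2
        rw [List.take_length] at h6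
        omega
      · rw [List.take_of_length_le h]; omega
    rw [hti] at h5
    omega
  -- pigeonhole
  let f : Fin (N + 1) → (Fin (J + 1) → U.S × Option DJ) := fun k n =>
    (U.run U.s0 ((w n).take (t n1 + ti k)),
      if h : (U.ev ((w n1).take (t n1 + ti k)))⁻¹ * U.ev ((w n).take (t n1 + ti k)) ∈ DJ
      then some ⟨_, h⟩ else none)
  obtain ⟨i, j, hij, hfij⟩ : ∃ i j : Fin (N + 1), i < j ∧ f i = f j := by
    have hninj : ¬ Function.Injective f := by
      intro hinj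
      have h1 := Nat.card_le_card_of_injective f hinj
      rw [Nat.card_fin] at h1
      omega
    rw [Function.Injective] at hninj
    push Not at hninj
    obtain ⟨i, j, hf, hne⟩ := hninj
    rcases lt_or_gt_of_ne hne with h | h
    · exact ⟨i, j, h, hf⟩
    · exact ⟨j, i, h, hf.symm⟩
  set ta := t n1 + ti i with hta
  set tb := t n1 + ti j with htb
  have hγ : c1 T U s1 (R.take (ti i)) + T1 ≤ c1 T U s1 (R.take (ti j)) := by
    rw [hti, hti]
    have : ((i : ℕ) + 1) * T1 ≤ (j : ℕ) * T1 := Nat.mul_le_mul_right _ hij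
    rw [Nat.add_mul, one_mul] at this
    exact this
  have htij : ti i + T1 ≤ ti j := by
    rcases le_total (ti i) (ti j) with h | h
    · have := (c1_take_mono T U s1 R _ _ h).2
      omega
    · have := (c1_take_mono T U s1 R _ _ h).1
      omega
  have htab : ta + T1 ≤ tb := by omega
  have htle : ∀ n ∈ Q, n ≠ n0 → t n ≤ ta := by
    intro n hn hne
    have := hmax n (Finset.mem_erase.2 ⟨hne, hn⟩)
    omega
  refine ⟨n0, ta, htle, ?_⟩
  -- facts about one word
  have hone : ∀ n ∈ Q, n ≠ n0 → (w n).take ta ++ ((w n).take tb).drop ta = (w n).take tb ∧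
      U.run (U.run U.s0 ((w n).take ta)) (((w n).take tb).drop ta) =
        U.run U.s0 ((w n).take ta) ∧
      (((w n).take tb).drop ta).length = tb - ta ∧
      T.nm (U.ev (((w n).take tb).drop ta)) ≤ 2 * K ∧
      (U.ev ((w n1).take ta))⁻¹ * U.ev ((w n).take ta) =
        (U.ev ((w n1).take tb))⁻¹ * U.ev ((w n).take tb) := by
    intro n hn hne
    have hnJ : n < J + 1 := Nat.lt_succ_of_le (hQ n hn)
    have hfn := congrFun hfij ⟨n, hnJ⟩
    have e0 : ((w n).take tb).take ta = (w n).take ta := by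
      rw [List.take_take, min_eq_left (by omega)]
    have e1 : (w n).take ta ++ ((w n).take tb).drop ta = (w n).take tb := by
      conv_lhs => rw [← e0]
      exact List.take_append_drop ta _
    have e2 : U.run U.s0 ((w n).take ta) = U.run U.s0 ((w n).take tb) := congrArg Prod.fst hfn
    have e3 : U.run (U.run U.s0 ((w n).take ta)) (((w n).take tb).drop ta) =
        U.run U.s0 ((w n).take ta) := by
      rw [← UA.run_append, e1, e2]
    have hl := hlen n hn hne j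
    have e4 : (((w n).take tb).drop ta).length = tb - ta := by
      rw [List.length_drop, List.length_take, min_eq_left (by omega)]
    have e5 : T.nm (U.ev (((w n).take tb).drop ta)) ≤ 2 * K := by
      have e6 : U.ev (((w n).take tb).drop ta) =
          (U.ev ((w n).take ta))⁻¹ * U.ev ((w n).take tb) := by
        have e7 := congrArg U.ev e1
        rw [UA.ev_append] at e7
        rw [← e7, inv_mul_cancel_left]
      rw [e6, TreeX.nm_inv_mul]
      have h5 := hroot n hn hne ta (htle n hn hne)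
      have h6 := hroot n hn hne tb ((htle n hn hne).trans (by omega))
      have h7 := T.dT_tri (T.vx (U.ev ((w n).take ta))) (T.rt n).1 (T.vx (U.ev ((w n).take tb)))
      rw [T.dT_comm (T.rt n).1] at h7
      omega
    refine ⟨e1, e3, e4, e5, ?_⟩
    have h8 : (if h : (U.ev ((w n1).take ta))⁻¹ * U.ev ((w n).take ta) ∈ DJ
        then some (⟨_, h⟩ : DJ) else none) =
        (if h : (U.ev ((w n1).take tb))⁻¹ * U.ev ((w n).take tb) ∈ DJ
        then some (⟨_, h⟩ : DJ) else none) := congrArg Prod.snd hfn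
    rw [dif_pos (hdiff n hn ta), dif_pos (hdiff n hn tb)] at h8
    exact congrArg Subtype.val (Option.some.inj h8)
  -- conjugation relation
  have hconj : ∀ n ∈ Q, n ≠ n0 → ∀ n' ∈ Q, n' ≠ n0 →
      U.ev (((w n).take tb).drop ta) * ((U.ev ((w n).take ta))⁻¹ * U.ev ((w n').take ta)) =
      ((U.ev ((w n).take ta))⁻¹ * U.ev ((w n').take ta)) * U.ev (((w n').take tb).drop ta) := by
    intro n hn hne n' hn' hne'
    obtain ⟨a1, -, -, -, a5⟩ := hone n hn hne
    obtain ⟨b1, -, -, -, b5⟩ := hone n' hn' hne'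
    have a1' := congrArg U.ev a1
    have b1' := congrArg U.ev b1
    rw [UA.ev_append] at a1' b1'
    rw [← a1'] at a5
    rw [← b1'] at b5
    generalize U.ev ((w n).take ta) = x at *
    generalize U.ev ((w n').take ta) = y at *
    generalize U.ev (((w n).take tb).drop ta) = X at *
    generalize U.ev (((w n').take tb).drop ta) = Y at *
    generalize (U.ev ((w n1).take ta))⁻¹ = p at *
    generalize (U.ev ((w n1).take tb))⁻¹ = q at *
    -- a5 : p * x = q * (x * X), b5 : p * y = q * (y * Y)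
    have h1 : q⁻¹ * p = x * X * x⁻¹ := by
      have : q⁻¹ * (p * x) * x⁻¹ = q⁻¹ * (q * (x * X)) * x⁻¹ := by rw [a5]
      calc q⁻¹ * p = q⁻¹ * (p * x) * x⁻¹ := by group
        _ = _ := this
        _ = _ := by group
    have h2 : q⁻¹ * p = y * Y * y⁻¹ := by
      have : q⁻¹ * (p * y) * y⁻¹ = q⁻¹ * (q * (y * Y)) * y⁻¹ := by rw [b5]
      calc q⁻¹ * p = q⁻¹ * (p * y) * y⁻¹ := by group
        _ = _ := this
        _ = _ := by group
    have h3 : x * X * x⁻¹ = y * Y * y⁻¹ := h1.symm.trans h2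
    calc X * (x⁻¹ * y) = x⁻¹ * (x * X * x⁻¹) * y := by group
      _ = x⁻¹ * (y * Y * y⁻¹) * y := by rw [h3]
      _ = _ := by group
  -- the loop of `n1` is not in `K0`
  have hn1K : U.ev (((w n1).take tb).drop ta) ∉ K0 T := by
    intro hK0
    obtain ⟨a1, a2, a3, -, -⟩ := hone n1 hn1Q hn1ne
    have h1 := closed_all T U _ _ a2 hK0
    have e1 : (w n1).take ta = (w n1).take (t n1) ++ R.take (ti i) := by
      rw [hta, List.take_add]
    have e2 : (w n1).take tb = (w n1).take (t n1) ++ R.take (ti j) := by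
      rw [htb, List.take_add]
    have h2 : c1 T U U.s0 ((w n1).take tb) = c1 T U U.s0 ((w n1).take ta) := by
      rw [← a1, c1_append, h1, add_zero]
    rw [e1, e2, c1_append, c1_append] at h2
    have h3 : c1 T U s1 (R.take (ti j)) = c1 T U s1 (R.take (ti i)) := by
      have : U.run U.s0 ((w n1).take (t n1)) = s1 := rfl
      rw [this] at h2
      omega
    omega
  intro n hn n' hn' hne hne' hrun
  obtain ⟨a1, a2, a3, a4, a5⟩ := hone n hn hne
  obtain ⟨b1, b2, b3, b4, b5⟩ := hone n' hn' hne'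
  have hnK : U.ev (((w n).take tb).drop ta) ∉ K0 T := fun h =>
    hn1K ((K0_conj_iff (hconj n1 hn1Q hn1ne n hn hne)).2 h)
  have hlive : U.live (U.run U.s0 ((w n).take ta)) := by
    apply UA.live_of_mem (v := (w n).drop ta)
    rw [List.take_append_drop]
    exact (hbad n hn).1
  have hE : Elp T.toTreeX U (U.run U.s0 ((w n).take ta)) := by
    by_contra hE
    have := hB _ hlive hE _ a2 a4
    omega
  have hXX := closed_eq T U _ hlive hE _ _ a2 (by rw [hrun]; exact b2) (a3.trans b3.symm)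
  have hc := hconj n hn hne n' hn' hne'
  rw [← hXX] at hc
  by_contra htau
  obtain ⟨j', hj', hN0⟩ := T.hov _ _ (closed_tb T U _ hlive hE _ a2) (by
    rw [T.tau_mul, TreeX.tau_inv]
    intro h0
    apply htau
    omega) hc
  exact hnK ⟨j', hj', hN0⟩

/-- few bad roots -/
theorem badS' (T : TX G) (U : UA G) (m : ℕ) (η : ℝ) (hη : 0 < η) : ∃ J T0 : ℕ, ∀ lam : G,
    ({n : ℕ | n ≤ J ∧ ∃ w t, BadW T U m T0 lam n w t}.ncard : ℝ) ≤ η * (J + 1) := by
  obtain ⟨D, Ψ, hD, hΨm, hΨ⟩ := pairS' T U m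
  have := U.finS
  let e := Finite.equivFin U.S
  obtain ⟨J, hJ⟩ := cntS Ψ hΨm (Nat.card U.S) η hη
  obtain ⟨T0, hT0⟩ := hovS' T U m J
  refine ⟨J, T0, fun z => ?_⟩
  have hfin : {n : ℕ | n ≤ J ∧ ∃ w t, BadW T U m T0 z n w t}.Finite :=
    (Set.finite_Iic J).subset (fun n hn => hn.1)
  rw [Set.ncard_eq_toFinset_card _ hfin]
  generalize hQ : hfin.toFinset = Q
  have hmem : ∀ n, n ∈ Q ↔ n ≤ J ∧ ∃ w t, BadW T U m T0 z n w t := fun n => by
    rw [← hQ, Set.Finite.mem_toFinset]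
    exact Iff.rfl
  have hex : ∀ n, n ∈ Q → ∃ w t, BadW T U m T0 z n w t := fun n hn => ((hmem n).1 hn).2
  choose! w hw using hex
  choose! t ht using hw
  obtain ⟨n0, ta, hta, hrun⟩ := hT0 z Q (fun n hn => ((hmem n).1 hn).1) w t ht
  have key := hJ (Q.erase n0) (fun n hn => ((hmem n).1 (Finset.mem_of_mem_erase hn)).1)
    (fun n => e (U.run U.s0 ((w n).take ta))) (fun n => T.tau (U.ev ((w n).take ta))) ?_
  · have hc : Q.card ≤ (Q.erase n0).card + 1 := by
      have := Finset.pred_card_le_card_erase (s := Q) (a := n0)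
      omega
    have hc' : (Q.card : ℝ) ≤ ((Q.erase n0).card : ℝ) + 1 := by exact_mod_cast hc
    exact hc'.trans key
  · intro n hn n' hn' hne hs
    rw [Finset.mem_erase] at hn hn'
    have hs' := e.injective hs
    have h4 := hrun n hn.2 n' hn'.2 hn.1 hn'.1 hs'
    refine ⟨h4, ?_⟩
    obtain ⟨-, -, h5⟩ := hΨ T0 T0 z n n' (w n) (w n') (t n) (t n') hne (ht n hn.2) (ht n' hn'.2)
    have h6 := h5 ta (hta n hn.2 hn.1) (hta n' hn'.2 hn'.1)
    have h7 := T.ex_lip (T.vx (U.ev ((w n).take ta))) (T.rt n).1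
    rw [TreeX.ex_vx, TreeX.rt_ex_fst] at h7
    refine h7.trans ?_
    exact_mod_cast h6

end

end Pool.Agent.TH109
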