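import Mathlib
import Pool.Agent.TH109.Lev
import Pool.Agent.TH109.Bad

set_option autoImplicit false

open scoped Classical ENNReal

namespace Pool.Agent.TH109

open Pool.Agent.Helper943.LM (UA)

noncomputable section

variable {G : Type} [Group G]

/-- letter weights -/
def lwU (T : TX G) (U : UA G) (x θ : ℝ) : U.S → U.A → ℝ≥0∞ := fun s a =>
  if Z0 T U s a then ENNReal.ofReal θ else ENNReal.ofReal x

/-- weight of a group element -/
def Wt (T : TX G) (U : UA G) (x θ : ℝ) (g : G) : ℝ :=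
  θ ^ c0 T U U.s0 (nf U g) * x ^ c1 T U U.s0 (nf U g)

theorem ser_sum {x : ℝ} (hx0 : 0 < x) (hx : x < 1) (c : ℝ) (d : ℕ) :
    Summable (fun l : ℕ => (c : ℝ) * ((l : ℝ) + 1) ^ d * x ^ l) := by
  have hs0 : Summable (fun l : ℕ => ((l : ℝ) + 1) ^ d * x ^ l) := by
    have h1 := summable_pow_mul_geometric_of_norm_lt_one d
      (r := x) (by rw [Real.norm_eq_abs, abs_of_pos hx0]; exact hx)
    have h2 := (summable_nat_add_iff 1).2 h1
    have h3 := h2.mul_right x⁻¹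
    refine h3.congr fun l => ?_
    push_cast
    rw [pow_succ x l]
    field_simp
  exact (hs0.mul_left (c : ℝ)).congr fun l => by ring

theorem len_sum {α : Type} (len : α → ℕ) (f : α → ℝ) (hf : ∀ a, 0 ≤ f a) {x : ℝ} (hx0 : 0 < x)
    (hx : x < 1) (hfx : ∀ a, f a ≤ x ^ len a) (c : ℝ) (hc0 : 0 ≤ c) (d : ℕ)
    (hc : ∀ l : ℕ, ∀ F : Finset α, (∀ g ∈ F, len g = l) → (F.card : ℝ) ≤ c * ((l : ℝ) + 1) ^ d) :
    Summable f := by
  have hs := ser_sum hx0 hx c d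
  refine summable_of_sum_le hf
      (c := ∑' l : ℕ, (c : ℝ) * ((l : ℝ) + 1) ^ d * x ^ l) fun F => ?_
  have e1 : ∑ g ∈ F, f g ≤ ∑ g ∈ F, x ^ (len g) :=
    Finset.sum_le_sum fun g _ => hfx g
  have e2 : ∑ g ∈ F, x ^ (len g) = ∑ l ∈ F.image len,
      ∑ g ∈ F with len g = l, x ^ (len g) :=
    (Finset.sum_fiberwise_of_maps_to (fun g hg => Finset.mem_image_of_mem _ hg) _).symm
  have e3 : ∀ l ∈ F.image len,
      ∑ g ∈ F with len g = l, x ^ (len g) ≤
        (c : ℝ) * ((l : ℝ) + 1) ^ d * x ^ l := by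
    intro l _
    have e4 : ∑ g ∈ F with len g = l, x ^ (len g) =
        ((F.filter (fun g => len g = l)).card : ℝ) * x ^ l := by
      rw [← nsmul_eq_mul, ← Finset.sum_const]
      exact Finset.sum_congr rfl fun g hg => by rw [(Finset.mem_filter.1 hg).2]
    rw [e4]
    exact mul_le_mul_of_nonneg_right (hc l _ (fun g hg => (Finset.mem_filter.1 hg).2))
      (pow_nonneg hx0.le _)
  have e5 : ∑ l ∈ F.image len, (c : ℝ) * ((l : ℝ) + 1) ^ d * x ^ l
      ≤ ∑' l : ℕ, (c : ℝ) * ((l : ℝ) + 1) ^ d * x ^ l :=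
    hs.sum_le_tsum _ (fun l _ => by positivity)
  rw [e2] at e1
  exact e1.trans ((Finset.sum_le_sum e3).trans e5)

section mass

variable (T : TX G) (U : UA G)

theorem wl_lwU {x θ : ℝ} (hx : 0 ≤ x) (hθ : 0 ≤ θ) (s : U.S) (w : List U.A) :
    wl U (lwU T U x θ) s w = ENNReal.ofReal (θ ^ c0 T U s w * x ^ c1 T U s w) := by
  induction w generalizing s with
  | nil => simp [wl, c0, c1]
  | cons a w ih =>
    rw [wl, ih, c0, c1, lwU]
    split_ifs with h
    · rw [← ENNReal.ofReal_mul hθ]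
      congr 1
      rw [pow_add, pow_one, zero_add]; ring
    · rw [← ENNReal.ofReal_mul hx]
      congr 1
      rw [zero_add, pow_add, pow_one]; ring

theorem wl_nf {x θ : ℝ} (hx : 0 ≤ x) (hθ : 0 ≤ θ) (g : G) :
    wl U (lwU T U x θ) U.s0 (nf U g) = ENNReal.ofReal (Wt T U x θ g) := wl_lwU T U hx hθ _ _

theorem Wt_pos {x θ : ℝ} (hx : 0 < x) (hθ : 0 < θ) (g : G) : 0 < Wt T U x θ g := by
  unfold Wt; positivity

theorem Wt_le {x θ : ℝ} (hθ : 0 < θ) (hθx : θ ≤ x) (g : G) :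
    Wt T U x θ g ≤ x ^ (nf U g).length := by
  unfold Wt
  rw [← c0_add_c1 T U U.s0 (nf U g), pow_add]
  exact mul_le_mul_of_nonneg_right (pow_le_pow_left₀ hθ.le hθx _)
    (pow_nonneg (hθ.le.trans hθx) _)

/-- Lipschitz property of the weights, uniform in the parameters -/
theorem Wt_lip (Q : Set G) (hQ : Q.Finite) : ∃ C : ℕ, ∀ x θ : ℝ, 0 < θ → θ ≤ x → x ≤ 1 →
    ∀ g, ∀ h ∈ Q, θ ^ C * Wt T U x θ g ≤ Wt T U x θ (g * h) := by
  choose C hC using c_lip T U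
  refine ⟨∑ q ∈ hQ.toFinset, 2 * C q, fun x θ hθ hθx hx g h hh => ?_⟩
  obtain ⟨⟨-, h1⟩, ⟨-, h2⟩⟩ := hC h (nf U g) (nf_mem U g) (nf U (g * h)) (nf_mem U _)
    (by rw [nf_ev, nf_ev])
  have hx0 : 0 < x := hθ.trans_le hθx
  have hθ1 : θ ≤ 1 := hθx.trans hx
  have h3 : 2 * C h ≤ ∑ q ∈ hQ.toFinset, 2 * C q :=
    Finset.single_le_sum (f := fun q => 2 * C q) (fun _ _ => Nat.zero_le _)
      (hQ.mem_toFinset.2 hh)
  have h4 : θ ^ (∑ q ∈ hQ.toFinset, 2 * C q) ≤ θ ^ C h * x ^ C h := by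
    calc θ ^ (∑ q ∈ hQ.toFinset, 2 * C q) ≤ θ ^ (2 * C h) :=
          pow_le_pow_of_le_one hθ.le hθ1 h3
      _ = θ ^ C h * θ ^ C h := by rw [two_mul, pow_add]
      _ ≤ θ ^ C h * x ^ C h :=
          mul_le_mul_of_nonneg_left (pow_le_pow_left₀ hθ.le hθx _) (by positivity)
  unfold Wt
  calc θ ^ (∑ q ∈ hQ.toFinset, 2 * C q) *
        (θ ^ c0 T U U.s0 (nf U g) * x ^ c1 T U U.s0 (nf U g))
      ≤ (θ ^ C h * x ^ C h) * (θ ^ c0 T U U.s0 (nf U g) * x ^ c1 T U U.s0 (nf U g)) :=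
        mul_le_mul_of_nonneg_right h4 (by positivity)
    _ = θ ^ (c0 T U U.s0 (nf U g) + C h) * x ^ (c1 T U U.s0 (nf U g) + C h) := by
        rw [pow_add, pow_add]; ring
    _ ≤ θ ^ c0 T U U.s0 (nf U (g * h)) * x ^ c1 T U U.s0 (nf U (g * h)) := by
        apply mul_le_mul
        · exact pow_le_pow_of_le_one hθ.le hθ1 h1
        · exact pow_le_pow_of_le_one hx0.le hx h2
        · positivity
        · positivity

/-- two-sided version -/
theorem Wt_lip2 (Q : Set G) (hQ : Q.Finite) : ∃ C : ℕ, ∀ x θ : ℝ, 0 < θ → θ ≤ x → x ≤ 1 →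
    ∀ g, ∀ h ∈ Q, θ ^ C * Wt T U x θ g ≤ Wt T U x θ (g * h) ∧
      θ ^ C * Wt T U x θ (g * h) ≤ Wt T U x θ g := by
  obtain ⟨C, hC⟩ := Wt_lip T U (Q ∪ Q⁻¹) (hQ.union hQ.inv)
  refine ⟨C, fun x θ hθ hθx hx g h hh => ⟨hC x θ hθ hθx hx g h (Or.inl hh), ?_⟩⟩
  have := hC x θ hθ hθx hx (g * h) h⁻¹ (Or.inr (by rw [Set.mem_inv, inv_inv]; exact hh))
  rwa [mul_inv_cancel_right] at this

/-- mass of a set -/
def mE (x θ : ℝ) (S : Set G) : ℝ≥0∞ := ∑' g : S, ENNReal.ofReal (Wt T U x θ g.1)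

variable {T U}

theorem mE_mono {x θ : ℝ} {S S' : Set G} (h : S ⊆ S') : mE T U x θ S ≤ mE T U x θ S' :=
  ENNReal.tsum_mono_subtype (fun g => ENNReal.ofReal (Wt T U x θ g)) h

theorem mE_biUnion {x θ : ℝ} {ι : Type} (s : Finset ι) (S : ι → Set G)
    (hd : (s : Set ι).PairwiseDisjoint S) :
    mE T U x θ (⋃ i ∈ s, S i) = ∑ i ∈ s, mE T U x θ (S i) := by
  unfold mE
  rw [Summable.tsum_finset_bUnion_disjoint (f := fun g => ENNReal.ofReal (Wt T U x θ g)) hd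
    (fun i _ => ENNReal.summable)]

theorem mE_union_le {x θ : ℝ} (S S' : Set G) :
    mE T U x θ (S ∪ S') ≤ mE T U x θ S + mE T U x θ S' := by
  unfold mE
  exact ENNReal.tsum_union_le (fun g => ENNReal.ofReal (Wt T U x θ g)) S S'

/-- the flat over a vertex -/
def flat (T : TreeX G) (q : T.V) : Set G := {g | T.vx g = q}

/-- elements over the vertices `m` levels above `q` -/
def Top (T : TreeX G) (m : ℕ) (q : T.V) : Set G := {g | T.vx g ∈ T.Vt m q}

theorem Top_zero (q : T.V) : Top T.toTreeX 0 q = flat T.toTreeX q := rfl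

theorem Top_succ (m : ℕ) (q : T.V) : Top T.toTreeX (m + 1) q =
    ⋃ b ∈ (T.ch_fin q).toFinset, Top T.toTreeX m b := by
  ext g
  simp only [Set.mem_iUnion, exists_prop, Set.Finite.mem_toFinset]
  exact Iff.rfl

theorem Top_disj (m : ℕ) (q : T.V) :
    (((T.ch_fin q).toFinset : Finset T.V) : Set T.V).PairwiseDisjoint (Top T.toTreeX m) := by
  intro b hb b' hb' hne
  rw [Set.Finite.coe_toFinset] at hb hb'
  rw [Function.onFun, Set.disjoint_left]
  intro g hg hg'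
  exact hne (TreeX.Vt_succ_unique hb hb' hg hg')

theorem mE_Top_succ {x θ : ℝ} (m : ℕ) (q : T.V) : mE T U x θ (Top T.toTreeX (m + 1) q) =
    ∑ b ∈ (T.ch_fin q).toFinset, mE T U x θ (Top T.toTreeX m b) := by
  rw [Top_succ, mE_biUnion _ _ (Top_disj m q)]

theorem ch_card' (q : T.V) : (T.ch_fin q).toFinset.card = T.d := by
  rw [← Set.ncard_eq_toFinset_card _ (T.ch_fin q)]
  exact T.ch_card q

variable (T U)

/-- adjacent flats have comparable masses -/
theorem mass_adj : ∃ C : ℕ, ∀ x θ : ℝ, 0 < θ → θ ≤ x → x ≤ 1 → ∀ a b, T.E a b →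
    ENNReal.ofReal (θ ^ C) * mE T U x θ (flat T.toTreeX a) ≤ mE T U x θ (flat T.toTreeX b) ∧
    ENNReal.ofReal (θ ^ C) * mE T U x θ (flat T.toTreeX b) ≤ mE T U x θ (flat T.toTreeX a) := by
  obtain ⟨C, hC⟩ := Wt_lip2 T U T.Q1 T.Q1_fin
  refine ⟨C, fun x θ hθ hθx hx a b hab => ?_⟩
  obtain ⟨σ, hσ⟩ := T.adj a b hab
  have e1 : mE T U x θ (flat T.toTreeX b) =
      ∑' g : {g : G // T.act g T.o = a}, ENNReal.ofReal (Wt T U x θ (σ g).1) := by
    unfold mE
    exact (σ.tsum_eq (fun g : {g : G // T.act g T.o = b} => ENNReal.ofReal (Wt T U x θ g.1))).symm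
  have e2 : mE T U x θ (flat T.toTreeX a) =
      ∑' g : {g : G // T.act g T.o = a}, ENNReal.ofReal (Wt T U x θ g.1) := rfl
  rw [e1, e2, ← ENNReal.tsum_mul_left, ← ENNReal.tsum_mul_left]
  constructor
  · refine ENNReal.tsum_le_tsum fun g => ?_
    rw [← ENNReal.ofReal_mul (by positivity)]
    apply ENNReal.ofReal_le_ofReal
    have := (hC x θ hθ hθx hx g.1 _ (hσ g)).1
    rwa [mul_inv_cancel_left] at this
  · refine ENNReal.tsum_le_tsum fun g => ?_
    rw [← ENNReal.ofReal_mul (by positivity)]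
    apply ENNReal.ofReal_le_ofReal
    have := (hC x θ hθ hθx hx g.1 _ (hσ g)).2
    rwa [mul_inv_cancel_left] at this

/-- masses of consecutive levels -/
theorem mass_lev : ∃ C : ℕ, ∀ x θ : ℝ, 0 < θ → θ ≤ x → x ≤ 1 →
    (∀ a b, T.E a b →
      ENNReal.ofReal (θ ^ C) * mE T U x θ (flat T.toTreeX a) ≤ mE T U x θ (flat T.toTreeX b) ∧
      ENNReal.ofReal (θ ^ C) * mE T U x θ (flat T.toTreeX b) ≤ mE T U x θ (flat T.toTreeX a)) ∧
    ∀ m q,
      ENNReal.ofReal (θ ^ C) * ((T.d : ℝ≥0∞) * mE T U x θ (Top T.toTreeX m q)) ≤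
        mE T U x θ (Top T.toTreeX (m + 1) q) ∧
      ENNReal.ofReal (θ ^ C) * mE T U x θ (Top T.toTreeX (m + 1) q) ≤
        (T.d : ℝ≥0∞) * mE T U x θ (Top T.toTreeX m q) := by
  obtain ⟨C, hC⟩ := mass_adj T U
  refine ⟨C, fun x θ hθ hθx hx => ⟨fun a b hab => hC x θ hθ hθx hx a b hab, fun m => ?_⟩⟩
  induction m with
  | zero =>
    intro q
    rw [mE_Top_succ, Top_zero]
    constructor
    · calc ENNReal.ofReal (θ ^ C) * ((T.d : ℝ≥0∞) * mE T U x θ (flat T.toTreeX q))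
          = ∑ b ∈ (T.ch_fin q).toFinset,
              ENNReal.ofReal (θ ^ C) * mE T U x θ (flat T.toTreeX q) := by
            rw [Finset.sum_const, ch_card', nsmul_eq_mul]; ring
        _ ≤ _ := Finset.sum_le_sum fun b hb =>
            (hC x θ hθ hθx hx q b ((T.ch_fin q).mem_toFinset.1 hb)).1
    · rw [Finset.mul_sum]
      calc ∑ b ∈ (T.ch_fin q).toFinset, ENNReal.ofReal (θ ^ C) * mE T U x θ (Top T.toTreeX 0 b)
          ≤ ∑ b ∈ (T.ch_fin q).toFinset, mE T U x θ (flat T.toTreeX q) :=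
            Finset.sum_le_sum fun b hb =>
              (hC x θ hθ hθx hx q b ((T.ch_fin q).mem_toFinset.1 hb)).2
        _ = _ := by rw [Finset.sum_const, ch_card', nsmul_eq_mul]
  | succ m ih =>
    intro q
    rw [mE_Top_succ (m + 1), mE_Top_succ m q]
    constructor
    · rw [Finset.mul_sum, Finset.mul_sum]
      exact Finset.sum_le_sum fun b _ => (ih b).1
    · rw [Finset.mul_sum, Finset.mul_sum]
      exact Finset.sum_le_sum fun b _ => (ih b).2

/-- number of elements of given length over a vertex -/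
theorem len_count (q : T.V) : ∃ c : ℕ, ∀ l : ℕ, ∀ F : Finset {g : G // g ∈ flat T.toTreeX q},
    (∀ g ∈ F, (nf U g.1).length = l) → (F.card : ℝ) ≤ c * ((l : ℝ) + 1) ^ T.dim := by
  have := U.finA
  obtain ⟨R, hR⟩ := (Set.finite_range (fun a : U.A => T.N (U.mu a))).bddAbove
  obtain ⟨C, hC, hC1⟩ : ∃ C : ℕ, (∀ a, T.N (U.mu a) ≤ C) ∧ T.N 1 ≤ C := by
    refine ⟨⌈R⌉₊ + ⌈T.N 1⌉₊, fun a => ?_, ?_⟩
    · refine ((hR ⟨a, rfl⟩).trans (Nat.le_ceil R)).trans ?_
      push_cast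
      have : (0 : ℝ) ≤ (⌈T.N 1⌉₊ : ℝ) := Nat.cast_nonneg _
      linarith
    · refine (Nat.le_ceil (T.N 1)).trans ?_
      push_cast
      have : (0 : ℝ) ≤ (⌈R⌉₊ : ℝ) := Nat.cast_nonneg _
      linarith
  have hN : ∀ w : List U.A, T.N (U.ev w) ≤ C * ((w.length : ℝ) + 1) := by
    intro w
    induction w with
    | nil => rw [UA.ev_nil]; simpa using hC1
    | cons a w ih =>
      have e : U.ev (a :: w) = U.mu a * U.ev w := by simp [UA.ev]
      rw [e, List.length_cons]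
      calc T.N (U.mu a * U.ev w) ≤ T.N (U.mu a) + T.N (U.ev w) := T.N_mul _ _
        _ ≤ C + C * ((w.length : ℝ) + 1) := add_le_add (hC a) ih
        _ = _ := by push_cast; ring
  refine ⟨T.ca ^ (T.dT T.o q) * (T.kap * (C + 1) ^ T.dim), fun l F hF => ?_⟩
  have h0 := T.cnt (T.dT T.o q) (C * ((l : ℝ) + 1)) (by positivity)
  have h1 : (F.card : ℝ) ≤
      ({g | T.dT T.o (T.act g T.o) ≤ T.dT T.o q ∧ T.N g ≤ C * ((l : ℝ) + 1)}.ncard : ℝ) := by
    have h2 : ((F : Set {g : G // g ∈ flat T.toTreeX q})).ncard ≤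
      {g | T.dT T.o (T.act g T.o) ≤ T.dT T.o q ∧ T.N g ≤ C * ((l : ℝ) + 1)}.ncard := by
      refine Set.ncard_le_ncard_of_injOn (fun g => g.1) ?_ ?_ (T.cnt_fin _ _)
      · intro g hg
        refine ⟨?_, ?_⟩
        · have : T.act g.1 T.o = q := g.2
          rw [this]
        · have := hN (nf U g.1)
          rw [nf_ev, hF g hg] at this
          exact this
      · intro a _ b _ hab
        exact Subtype.ext hab
    rw [Set.ncard_coe_finset] at h2
    exact_mod_cast h2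
  refine h1.trans (h0.trans ?_)
  push_cast
  rw [mul_assoc, mul_assoc]
  apply mul_le_mul_of_nonneg_left _ (by positivity)
  apply mul_le_mul_of_nonneg_left _ (by positivity)
  rw [← mul_pow]
  apply pow_le_pow_left₀ (by positivity)
  have : (0 : ℝ) ≤ l := Nat.cast_nonneg l
  nlinarith

/-- flats have finite mass -/
theorem mass_sum {x θ : ℝ} (hθ : 0 < θ) (hθx : θ ≤ x) (hx : x < 1) (q : T.V) :
    Summable (fun g : (flat T.toTreeX q) => Wt T U x θ g.1) := by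
  obtain ⟨c, hc⟩ := len_count T U q
  have hx0 : 0 < x := hθ.trans_le hθx
  exact len_sum (fun g : (flat T.toTreeX q) => (nf U g.1).length) _
    (fun g => (Wt_pos T U hx0 hθ g.1).le) hx0 hx (fun g => Wt_le T U hθ hθx g.1) c
    (Nat.cast_nonneg c) T.dim hc

theorem mass_fin {x θ : ℝ} (hθ : 0 < θ) (hθx : θ ≤ x) (hx : x < 1) (q : T.V) :
    mE T U x θ (flat T.toTreeX q) ≠ ∞ := by
  have hx0 : 0 < x := hθ.trans_le hθx
  have h := ENNReal.ofReal_tsum_of_nonneg (f := fun g : (flat T.toTreeX q) => Wt T U x θ g.1)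
    (fun g => (Wt_pos T U hx0 hθ g.1).le) (mass_sum T U hθ hθx hx q)
  intro h2
  have h3 : ENNReal.ofReal (∑' g : (flat T.toTreeX q), Wt T U x θ g.1) = ∞ := h.trans h2
  exact absurd h3 ENNReal.ofReal_ne_top

theorem mass_Top_fin {x θ : ℝ} (hθ : 0 < θ) (hθx : θ ≤ x) (hx : x < 1) (m : ℕ) :
    ∀ q : T.V, mE T U x θ (Top T.toTreeX m q) ≠ ∞ := by
  induction m with
  | zero => intro q; exact mass_fin T U hθ hθx hx q
  | succ m ih =>
    intro q
    rw [mE_Top_succ]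
    exact ENNReal.sum_ne_top.2 fun b _ => ih b

theorem mass_pos {x θ : ℝ} (hθ : 0 < θ) (hθx : θ ≤ x) (q : T.V) :
    0 < mE T U x θ (flat T.toTreeX q) := by
  obtain ⟨g, hg⟩ := T.trans q
  have h1 : ENNReal.ofReal (Wt T U x θ g) ≤ mE T U x θ (flat T.toTreeX q) :=
    ENNReal.le_tsum (f := fun g : (flat T.toTreeX q) => ENNReal.ofReal (Wt T U x θ g.1)) ⟨g, hg⟩
  exact (ENNReal.ofReal_pos.2 (Wt_pos T U (hθ.trans_le hθx) hθ g)).trans_le h1

/-- masses along the trunk and of the tops -/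
theorem mass_rt : ∃ C : ℕ, ∀ x θ : ℝ, 0 < θ → θ ≤ x → x ≤ 1 → ∀ n m : ℕ,
    ENNReal.ofReal (θ ^ (C * (n + 1 + m))) *
        ((T.d : ℝ≥0∞) ^ m * mE T U x θ (flat T.toTreeX T.o)) ≤
      mE T U x θ (Top T.toTreeX m (T.rt n).2) ∧
    ENNReal.ofReal (θ ^ (C * (n + 1 + m))) * mE T U x θ (Top T.toTreeX m (T.rt n).2) ≤
      (T.d : ℝ≥0∞) ^ m * mE T U x θ (flat T.toTreeX T.o) := by
  obtain ⟨C, hC⟩ := mass_lev T U
  refine ⟨C, fun x θ hθ hθx hx n m => ?_⟩
  obtain ⟨h1, h2⟩ := hC x θ hθ hθx hx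
  have hpow : ∀ a : ℕ, ENNReal.ofReal (θ ^ (C * (a + 1))) =
      ENNReal.ofReal (θ ^ C) * ENNReal.ofReal (θ ^ (C * a)) := by
    intro a
    rw [← ENNReal.ofReal_mul (by positivity), ← pow_add]
    congr 2; ring
  have htr : ∀ n : ℕ, ENNReal.ofReal (θ ^ (C * n)) * mE T U x θ (flat T.toTreeX T.o) ≤
      mE T U x θ (flat T.toTreeX (T.trunk n)) ∧
      ENNReal.ofReal (θ ^ (C * n)) * mE T U x θ (flat T.toTreeX (T.trunk n)) ≤
      mE T U x θ (flat T.toTreeX T.o) := by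
    intro n
    induction n with
    | zero => rw [T.trunk_zero]; simp
    | succ n ih =>
      obtain ⟨h3, h4⟩ := h1 _ _ (T.trunk_E n)
      rw [hpow]
      constructor
      · calc ENNReal.ofReal (θ ^ C) * ENNReal.ofReal (θ ^ (C * n)) *
              mE T U x θ (flat T.toTreeX T.o)
            = ENNReal.ofReal (θ ^ C) * (ENNReal.ofReal (θ ^ (C * n)) *
              mE T U x θ (flat T.toTreeX T.o)) := by ring
          _ ≤ ENNReal.ofReal (θ ^ C) * mE T U x θ (flat T.toTreeX (T.trunk n)) := by gcongr; exact ih.1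
          _ ≤ _ := h3
      · calc ENNReal.ofReal (θ ^ C) * ENNReal.ofReal (θ ^ (C * n)) *
              mE T U x θ (flat T.toTreeX (T.trunk (n + 1)))
            = ENNReal.ofReal (θ ^ (C * n)) * (ENNReal.ofReal (θ ^ C) *
              mE T U x θ (flat T.toTreeX (T.trunk (n + 1)))) := by ring
          _ ≤ ENNReal.ofReal (θ ^ (C * n)) * mE T U x θ (flat T.toTreeX (T.trunk n)) := by
              gcongr
          _ ≤ _ := ih.2
  induction m with
  | zero =>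
    obtain ⟨h3, h4⟩ := h1 _ _ (T.side_E n)
    obtain ⟨h5, h6⟩ := htr n
    rw [Nat.add_zero, pow_zero, one_mul, hpow, Top_zero]
    constructor
    · calc ENNReal.ofReal (θ ^ C) * ENNReal.ofReal (θ ^ (C * n)) *
            mE T U x θ (flat T.toTreeX T.o)
          = ENNReal.ofReal (θ ^ C) * (ENNReal.ofReal (θ ^ (C * n)) *
            mE T U x θ (flat T.toTreeX T.o)) := by ring
        _ ≤ ENNReal.ofReal (θ ^ C) * mE T U x θ (flat T.toTreeX (T.trunk n)) := by gcongr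
        _ ≤ _ := h3
    · calc ENNReal.ofReal (θ ^ C) * ENNReal.ofReal (θ ^ (C * n)) *
            mE T U x θ (flat T.toTreeX (T.rt n).2)
          = ENNReal.ofReal (θ ^ (C * n)) * (ENNReal.ofReal (θ ^ C) *
            mE T U x θ (flat T.toTreeX (T.rt n).2)) := by ring
        _ ≤ ENNReal.ofReal (θ ^ (C * n)) * mE T U x θ (flat T.toTreeX (T.trunk n)) := by
            gcongr; exact h4
        _ ≤ _ := h6
  | succ m ih =>
    obtain ⟨h3, h4⟩ := h2 m (T.rt n).2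
    have e : C * (n + 1 + (m + 1)) = C * ((n + 1 + m) + 1) := by ring
    rw [e, hpow]
    constructor
    · calc ENNReal.ofReal (θ ^ C) * ENNReal.ofReal (θ ^ (C * (n + 1 + m))) *
            ((T.d : ℝ≥0∞) ^ (m + 1) * mE T U x θ (flat T.toTreeX T.o))
          = ENNReal.ofReal (θ ^ C) * ((T.d : ℝ≥0∞) * (ENNReal.ofReal (θ ^ (C * (n + 1 + m))) *
            ((T.d : ℝ≥0∞) ^ m * mE T U x θ (flat T.toTreeX T.o)))) := by rw [pow_succ]; ring
        _ ≤ ENNReal.ofReal (θ ^ C) * ((T.d : ℝ≥0∞) * mE T U x θ (Top T.toTreeX m (T.rt n).2)) := by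
            gcongr; exact ih.1
        _ ≤ _ := h3
    · calc ENNReal.ofReal (θ ^ C) * ENNReal.ofReal (θ ^ (C * (n + 1 + m))) *
            mE T U x θ (Top T.toTreeX (m + 1) (T.rt n).2)
          = ENNReal.ofReal (θ ^ (C * (n + 1 + m))) * (ENNReal.ofReal (θ ^ C) *
            mE T U x θ (Top T.toTreeX (m + 1) (T.rt n).2)) := by ring
        _ ≤ ENNReal.ofReal (θ ^ (C * (n + 1 + m))) *
            ((T.d : ℝ≥0∞) * mE T U x θ (Top T.toTreeX m (T.rt n).2)) := by gcongr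
        _ = (T.d : ℝ≥0∞) * (ENNReal.ofReal (θ ^ (C * (n + 1 + m))) *
            mE T U x θ (Top T.toTreeX m (T.rt n).2)) := by ring
        _ ≤ (T.d : ℝ≥0∞) * ((T.d : ℝ≥0∞) ^ m * mE T U x θ (flat T.toTreeX T.o)) :=
            mul_le_mul_right ih.2 _
        _ = _ := by rw [pow_succ]; ring

end mass

end

end Pool.Agent.TH109
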