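import Mathlib
import Pool.Agent.TH109.Mass

set_option autoImplicit false

open scoped Classical ENNReal

namespace Pool.Agent.TH109

open Pool.Agent.Helper943.LM (UA)

noncomputable section

variable {G : Type} [Group G]

/-- tame nodes: bounded number of non-`Z0` transitions on each `WW m` -/
def Tame (T : TX G) (U : UA G) (s : U.S) (e : T.V × T.V) : Prop :=
  ∀ m, ∃ C : ℕ, ∀ W ∈ WW T.toTreeX U m s e, c1 T U s W ≤ C

/-- bad tops over the root `n`: many non-`Z0` transitions after the last entrance -/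
def BG (T : TX G) (U : UA G) (n m T0 : ℕ) : Set G :=
  {g | (∃ m' ≤ m, T.vx g ∈ T.Vt m' (T.rt n).2) ∧ ∃ t, BadW T U m T0 (T.loc g) n (nf U g) t}

/-- tops of depth `m` over the root `n` with non-tame entrance and few non-`Z0` transitions
after it -/
def NTS (T : TX G) (U : UA G) (n m T0 : ℕ) : Set G :=
  {g | ∃ P W, Ent T.toTreeX U (T.rt n) P ∧
    W ∈ WW T.toTreeX U m (U.run U.s0 P) (rel T.toTreeX U P (T.rt n)) ∧ U.ev (P ++ W) = g ∧
    ¬ Tame T U (U.run U.s0 P) (rel T.toTreeX U P (T.rt n)) ∧ c1 T U (U.run U.s0 P) W ≤ T0}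

end

end Pool.Agent.TH109
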