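import Mathlib
import Pool.Agent.TH109.Main0

set_option autoImplicit false

open scoped Classical ENNReal

namespace Pool.Agent.TH109

open Pool.Agent.Helper943.LM (UA)

noncomputable section

variable {G : Type} [Group G] (T : TX G) (U : UA G)

theorem norm_om_zpow (k : ℤ) : ‖T.om ^ k‖ = 1 := by
  rw [norm_zpow, T.om_norm, one_zpow]

theorem norm_p_mul_sub (g h : G) : ‖T.p (g * h) - T.p g‖ = ‖T.p h‖ := by
  rw [T.p_mul, add_sub_cancel_left, norm_mul, norm_om_zpow, one_mul]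

theorem norm_p_mul_le (g h : G) : ‖T.p (g * h)‖ ≤ ‖T.p g‖ + ‖T.p h‖ := by
  rw [T.p_mul]
  refine (norm_add_le _ _).trans ?_
  rw [norm_mul, norm_om_zpow, one_mul]

theorem live_take {w : List U.A} (hw : w ∈ U.L) (t : ℕ) : U.live (U.run U.s0 (w.take t)) := by
  apply UA.live_of_mem (v := w.drop t)
  rw [List.take_append_drop]; exact hw

theorem live_app {P W : List U.A} (hw : P ++ W ∈ U.L) : U.live (U.run U.s0 P) :=
  UA.live_of_mem U hw

theorem live_full {P W : List U.A} (hw : P ++ W ∈ U.L) : U.live (U.run (U.run U.s0 P) W) := by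
  rw [← UA.run_append]
  exact UA.live_of_mem U (v := []) (by rw [List.append_nil]; exact hw)

theorem mem_L_of_WW {e : T.V × T.V} {m : ℕ} {P W : List U.A}
    (hW : W ∈ WW T.toTreeX U m (U.run U.s0 P) (rel T.toTreeX U P e)) : P ++ W ∈ U.L := by
  rw [UA.mem_L, UA.run_append]; exact hW.1

/-- uniform bounds for tame nodes -/
theorem tame_unif : ∃ Ct : Nd T.toTreeX U → ℕ → ℕ, ∀ z, Tame T U z.1.1 z.1.2 → ∀ m,
    ∀ W ∈ WW T.toTreeX U m z.1.1 z.1.2, c1 T U z.1.1 W ≤ Ct z m := by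
  have h : ∀ (z : Nd T.toTreeX U) (m : ℕ), ∃ C : ℕ, Tame T U z.1.1 z.1.2 →
      ∀ W ∈ WW T.toTreeX U m z.1.1 z.1.2, c1 T U z.1.1 W ≤ C := by
    intro z m
    by_cases hz : Tame T U z.1.1 z.1.2
    · obtain ⟨C, hC⟩ := hz m
      exact ⟨C, fun _ => hC⟩
    · exact ⟨0, fun h => absurd h hz⟩
  choose Ct hCt using h
  exact ⟨Ct, fun z hz m => hCt z m hz⟩

theorem phi_bd (m : ℕ) : ∃ C : ℝ, 0 ≤ C ∧ ∀ (e : T.V × T.V) (P W : List U.A), T.IsE e →
    ∀ m' ≤ m, Ent T.toTreeX U e P →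
    W ∈ WW T.toTreeX U m' (U.run U.s0 P) (rel T.toTreeX U P e) →
    Tame T U (U.run U.s0 P) (rel T.toTreeX U P e) →
    ‖T.p (U.ev P) - T.p (U.ev (P ++ W))‖ ≤ C := by
  obtain ⟨Ct, hCt⟩ := tame_unif T U
  obtain ⟨C, hC⟩ := drift T U
  refine ⟨C * ((∑ z : Nd T.toTreeX U, ∑ i ∈ Finset.range (m + 1), Ct z i : ℕ) + 1),
    by positivity, fun e P W he m' hm' hE hW ht => ?_⟩
  have hz := ee_of_ent T.toTreeX U he hE
  have h1 := hCt ⟨(U.run U.s0 P, rel T.toTreeX U P e), hz⟩ ht m' W hW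
  have h2 : Ct ⟨(U.run U.s0 P, rel T.toTreeX U P e), hz⟩ m' ≤
      ∑ z : Nd T.toTreeX U, ∑ i ∈ Finset.range (m + 1), Ct z i := by
    refine (Finset.single_le_sum (f := fun i => Ct ⟨(U.run U.s0 P, rel T.toTreeX U P e), hz⟩ i)
      (fun _ _ => Nat.zero_le _) (Finset.mem_range.2 (by omega : m' < m + 1))).trans ?_
    exact Finset.single_le_sum (f := fun z => ∑ i ∈ Finset.range (m + 1), Ct z i)
      (fun _ _ => Nat.zero_le _) (Finset.mem_univ _)
  have hL := mem_L_of_WW T U hW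
  have h3 := (hC _ W (live_app U hL) (live_full U hL)).2
  rw [norm_sub_rev, UA.ev_append, norm_p_mul_sub]
  refine h3.trans ?_
  apply mul_le_mul_of_nonneg_left _ (Nat.cast_nonneg _)
  have h4 : c1 T U (U.run U.s0 P) W ≤ ∑ z : Nd T.toTreeX U, ∑ i ∈ Finset.range (m + 1), Ct z i :=
    h1.trans h2
  have h5 : (c1 T U (U.run U.s0 P) W : ℝ) ≤
      ((∑ z : Nd T.toTreeX U, ∑ i ∈ Finset.range (m + 1), Ct z i : ℕ) : ℝ) := by exact_mod_cast h4
  linarith

theorem one_side (D : Set G) (hD : D.Finite) : ∃ F : ℝ, 0 ≤ F ∧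
    ∀ (e : T.V × T.V) (m : ℕ) (P P' W W' : List U.A), T.IsE e → P.length ≤ P'.length →
    Ent T.toTreeX U e P → Ent T.toTreeX U e P' →
    W ∈ WW T.toTreeX U m (U.run U.s0 P) (rel T.toTreeX U P e) →
    Tame T U (U.run U.s0 P) (rel T.toTreeX U P e) →
    (∀ t, (U.ev ((P ++ W).take t))⁻¹ * U.ev ((P' ++ W').take t) ∈ D) →
    ‖T.p (U.ev P') - T.p (U.ev P)‖ ≤ F := by
  have := U.finA
  have := U.finS
  obtain ⟨κ, hκ⟩ : ∃ κ : ℕ, ∀ d ∈ D, T.nm d ≤ κ := by
    obtain ⟨κ, hκ⟩ := (hD.image T.nm).bddAbove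
    exact ⟨κ, fun d hd => hκ ⟨d, hd, rfl⟩⟩
  obtain ⟨κp, hκp⟩ : ∃ κ : ℝ, ∀ d ∈ D, ‖T.p d‖ ≤ κ := by
    obtain ⟨κ, hκ⟩ := (hD.image (fun d => ‖T.p d‖)).bddAbove
    exact ⟨κ, fun d hd => hκ ⟨d, hd, rfl⟩⟩
  obtain ⟨A1, hA1⟩ := (Set.finite_range (fun a : U.A => T.nm (U.mu a))).bddAbove
  have hA1' : ∀ a, T.nm (U.mu a) ≤ A1 := fun a => hA1 ⟨a, rfl⟩
  obtain ⟨Ct, hCt⟩ := tame_unif T U
  obtain ⟨C, hC⟩ := drift T U
  -- configurations
  set Sep : Set (T.V × T.V) :=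
    {e | T.IsE e ∧ T.o ∈ T.Hf e ∧ ∃ w, T.dT T.o w ≤ κ + A1 ∧ w ∉ T.Hf e} with hSep
  have hSepf : Sep.Finite := TreeX.sep_finite (κ + A1)
  have : Finite Sep := hSepf.to_subtype
  have hchoice : ∀ c : U.S × Sep, ∃ (mc : ℕ) (Wc : List U.A),
      (∃ m W, W ∈ WW T.toTreeX U m c.1 c.2.1) → Wc ∈ WW T.toTreeX U mc c.1 c.2.1 := by
    intro c
    by_cases h : ∃ m W, W ∈ WW T.toTreeX U m c.1 c.2.1
    · obtain ⟨m, W, hW⟩ := h
      exact ⟨m, W, fun _ => hW⟩
    · exact ⟨0, [], fun h' => absurd h' h⟩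
  choose mc Wc hWc using hchoice
  obtain ⟨B, hB⟩ : ∃ B : ℕ, ∀ (z : Nd T.toTreeX U) (c : U.S × Sep), Ct z (mc c) ≤ B := by
    obtain ⟨B, hB⟩ := Finite.exists_le (fun x : Nd T.toTreeX U × (U.S × Sep) => Ct x.1 (mc x.2))
    exact ⟨B, fun z c => hB (z, c)⟩
  refine ⟨C * ((B : ℝ) + 1) + |κp|, by positivity, ?_⟩
  intro e m P P' W W' he hle hE hE' hW ht hd
  have hL := mem_L_of_WW T U hW
  -- the prefix of `W`
  set V := W.take (P'.length - P.length) with hV
  have e1 : (P ++ W).take P'.length = P ++ V := by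
    rw [List.take_append, List.take_of_length_le hle]
  have e2 : (P' ++ W').take P'.length = P' := by
    rw [List.take_append_of_le_length le_rfl, List.take_length]
  have hδ := hd P'.length
  rw [e1, e2] at hδ
  -- live states
  have hlP : U.live (U.run U.s0 P) := live_app U hL
  have hlV : U.live (U.run (U.run U.s0 P) V) := by
    rw [← UA.run_append, ← e1]
    exact live_take U hL _
  -- relative edge at the end of `V`
  have hVin : ∀ t, T.vx (U.ev (V.take t)) ∈ T.Hf (rel T.toTreeX U P e) := by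
    intro t
    rw [hV, List.take_take]
    exact hW.2.1 _
  have hconf : T.actE (U.ev V)⁻¹ (rel T.toTreeX U P e) ∈ Sep := by
    refine ⟨TreeX.act_IsE _ _ (TreeX.act_IsE _ _ he), ?_, ?_⟩
    · have h1 := hVin V.length
      rw [List.take_length] at h1
      have h2 : T.act (U.ev V)⁻¹ (T.vx (U.ev V)) = T.o := TreeX.act_inv_act _ _
      rw [← h2, TreeX.act_Hf]
      exact h1
    · refine ⟨T.vx ((U.ev (P ++ V))⁻¹ * U.ev P'.dropLast), ?_, ?_⟩
      · rw [← TreeX.nm_eq]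
        obtain ⟨b, hP'⟩ : ∃ b, U.ev P' = U.ev P'.dropLast * U.mu b := by
          refine ⟨P'.getLast hE'.1, ?_⟩
          conv_lhs => rw [← List.dropLast_append_getLast hE'.1]
          rw [UA.ev_append]
          simp [UA.ev]
        have h3 : (U.ev (P ++ V))⁻¹ * U.ev P'.dropLast =
            ((U.ev (P ++ V))⁻¹ * U.ev P') * (U.mu b)⁻¹ := by
          rw [hP']; group
        rw [h3]
        refine (TreeX.nm_mul _ _).trans (Nat.add_le_add (hκ _ hδ) ?_)
        rw [TreeX.nm_inv]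
        exact hA1' _
      · have h4 : T.actE (U.ev V)⁻¹ (rel T.toTreeX U P e) = T.actE (U.ev (P ++ V))⁻¹ e := by
          unfold rel
          rw [UA.ev_append, mul_inv_rev, TreeX.actE_mul]
        rw [h4, TreeX.vx_mul, TreeX.act_Hf]
        exact hE'.2.2
  set cc : U.S × Sep := (U.run (U.run U.s0 P) V, ⟨_, hconf⟩) with hcc
  have hdec : V ++ W.drop (P'.length - P.length) = W := List.take_append_drop _ _
  have hcompl : ∃ m W, W ∈ WW T.toTreeX U m cc.1 cc.2.1 := by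
    refine ⟨m, W.drop (P'.length - P.length), ?_⟩
    show W.drop (P'.length - P.length) ∈ WW T.toTreeX U m (U.run (U.run U.s0 P) V)
      (T.actE (U.ev V)⁻¹ (rel T.toTreeX U P e))
    rw [WW_shift, hdec]
    refine ⟨hW.1, fun t => ?_, hW.2.2⟩
    have h5 : V ++ (W.drop (P'.length - P.length)).take t =
        W.take (P'.length - P.length + t) := by
      rw [List.take_add]
    rw [h5]
    exact hW.2.1 _
  have hWcc := hWc cc hcompl
  have hVW : V ++ Wc cc ∈ WW T.toTreeX U (mc cc) (U.run U.s0 P) (rel T.toTreeX U P e) := by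
    have h6 : Wc cc ∈ WW T.toTreeX U (mc cc) (U.run (U.run U.s0 P) V)
      (T.actE (U.ev V)⁻¹ (rel T.toTreeX U P e)) := hWcc
    rw [WW_shift] at h6
    refine ⟨h6.1, fun t => ?_, h6.2.2⟩
    rcases le_total t V.length with h | h
    · rw [List.take_append_of_le_length h]
      exact hVin t
    · rw [List.take_append, List.take_of_length_le h]
      exact h6.2.1 _
  have hz := ee_of_ent T.toTreeX U he hE
  have h7 := hCt ⟨(U.run U.s0 P, rel T.toTreeX U P e), hz⟩ ht _ _ hVW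
  have h8 := hB ⟨(U.run U.s0 P, rel T.toTreeX U P e), hz⟩ cc
  have h9 : c1 T U (U.run U.s0 P) V ≤ B := by
    have h10 := c1_append T U (U.run U.s0 P) V (Wc cc)
    have h11 : c1 T U (U.run U.s0 P) (V ++ Wc cc) ≤ B := h7.trans h8
    omega
  have h12 := (hC _ V hlP hlV).2
  have h13 : (c1 T U (U.run U.s0 P) V : ℝ) ≤ B := by exact_mod_cast h9
  have h14 : U.ev P' = U.ev P * (U.ev V * ((U.ev (P ++ V))⁻¹ * U.ev P')) := by
    rw [UA.ev_append]; group
  rw [h14, norm_p_mul_sub]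
  refine (norm_p_mul_le T _ _).trans (add_le_add ?_ ?_)
  · refine h12.trans ?_
    apply mul_le_mul_of_nonneg_left _ (Nat.cast_nonneg _)
    linarith
  · exact (hκp _ hδ).trans (le_abs_self _)

/-- uniform bound for paired tame entrances -/
theorem tame_F : ∃ F : ℝ, 0 ≤ F ∧ ∀ (e : T.V × T.V) (m m' : ℕ) (P P' W W' : List U.A), T.IsE e →
    Ent T.toTreeX U e P → Ent T.toTreeX U e P' →
    W ∈ WW T.toTreeX U m (U.run U.s0 P) (rel T.toTreeX U P e) →
    W' ∈ WW T.toTreeX U m' (U.run U.s0 P') (rel T.toTreeX U P' e) →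
    Tame T U (U.run U.s0 P) (rel T.toTreeX U P e) →
    Tame T U (U.run U.s0 P') (rel T.toTreeX U P' e) →
    U.ev (P ++ W) * T.c = U.ev (P' ++ W') →
    ‖T.p (U.ev P') - T.p (U.ev P)‖ ≤ F := by
  obtain ⟨D, hD, hft⟩ := U.ft' T.c
  obtain ⟨F1, hF1, h1⟩ := one_side T U D hD
  obtain ⟨F2, hF2, h2⟩ := one_side T U D⁻¹ hD.inv
  refine ⟨F1 + F2, by positivity, ?_⟩
  intro e m m' P P' W W' he hE hE' hW hW' ht ht' hev
  have hft' := hft _ (mem_L_of_WW T U hW) _ (mem_L_of_WW T U hW') hev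
  rcases le_total P.length P'.length with hle | hle
  · have := h1 e m P P' W W' he hle hE hE' hW ht hft'
    linarith
  · have := h2 e m' P' P W' W he hle hE' hE hW' ht' (fun t => by
      rw [Set.mem_inv, mul_inv_rev, inv_inv]
      exact hft' t)
    rw [norm_sub_rev] at this
    linarith

end

end Pool.Agent.TH109
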