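import Mathlib
import Pool.Agent.TH109.TameB
import Pool.Agent.TH109.PairDef

set_option autoImplicit false

open scoped Classical ENNReal

namespace Pool.Agent.TH109

open Pool.Agent.Helper943.LM (UA)

noncomputable section

variable {G : Type} [Group G]

section ent

variable (T : TreeX G) (U : UA G)

/-- the prefix up to the last entrance -/
def entw (e : T.V × T.V) (u : List U.A) : List U.A :=
  if h : T.vx (U.ev u) ∈ T.Hf e then (lst_exists T U h).choose else []

theorem entw_lst {e : T.V × T.V} {P W : List U.A} (h : Lst T U e P W) :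
    entw T U e (P ++ W) = P := by
  have h1 : T.vx (U.ev (P ++ W)) ∈ T.Hf e := by
    have := h.2 W.length
    rwa [List.take_length] at this
  unfold entw
  rw [dif_pos h1]
  obtain ⟨W2, hW2, hL⟩ := (lst_exists T U h1).choose_spec
  exact ((lst_unique T U hW2 h hL).1).symm

theorem entw_eq {e : T.V × T.V} {P W : List U.A} (hE : Ent T U e P)
    (h : ∀ t, T.vx (U.ev (P ++ W.take t)) ∈ T.Hf e) : entw T U e (P ++ W) = P :=
  entw_lst T U (ent_lst T U hE h)

theorem entw_take {e : T.V × T.V} {w : List U.A} {t : ℕ}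
    (h : ∀ i, t ≤ i → T.vx (U.ev (w.take i)) ∈ T.Hf e) :
    entw T U e w = entw T U e (w.take t) := by
  obtain ⟨P, W, hPW, hL⟩ := lst_exists T U (h t le_rfl)
  have h1 : w = P ++ (W ++ w.drop t) := by
    rw [← List.append_assoc, ← hPW, List.take_append_drop]
  have h2 : Lst T U e P (W ++ w.drop t) := by
    refine ⟨hL.1, fun i => ?_⟩
    rcases le_total i W.length with hi | hi
    · rw [List.take_append_of_le_length hi]
      exact hL.2 i
    · have h3 : P ++ (W ++ w.drop t).take i = w.take (t + (i - W.length)) := by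
        rw [List.take_append, List.take_of_length_le hi, ← List.append_assoc, ← hPW,
          List.take_add]
      rw [h3]
      exact h _ (Nat.le_add_right _ _)
  rw [hPW, entw_lst T U hL]
  conv_lhs => rw [h1]
  exact entw_lst T U h2

/-- descendants of an edge -/
def DE : ℕ → T.V × T.V → Set (T.V × T.V)
  | 0, e => {e}
  | k + 1, e => {e' | ∃ b, T.E e.2 b ∧ e' ∈ DE k (e.2, b)}

theorem DE_fin (k : ℕ) : ∀ e, (DE T k e).Finite := by
  induction k with
  | zero => intro e; exact Set.finite_singleton e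
  | succ k ih =>
    intro e
    have h : DE T (k + 1) e = ⋃ b ∈ (T.ch_fin e.2).toFinset, DE T k (e.2, b) := by
      ext u
      simp only [Set.mem_iUnion, exists_prop, Set.Finite.mem_toFinset]
      exact Iff.rfl
    rw [h]
    exact Set.Finite.biUnion (Finset.finite_toSet _) fun b _ => ih _

theorem DE_facts (k : ℕ) : ∀ e, T.IsE e → ∀ e' ∈ DE T k e, T.IsE e' ∧ T.Hf e' ⊆ T.Hf e ∧
    ∀ w ∈ T.Hf e', k ≤ T.dT e.2 w := by
  induction k with
  | zero =>
    intro e he e' h
    have : e' = e := h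
    subst this
    exact ⟨he, subset_rfl, fun _ _ => Nat.zero_le _⟩
  | succ k ih =>
    rintro e he e' ⟨b, hb, h⟩
    obtain ⟨h1, h2, h3⟩ := ih (e.2, b) hb e' h
    refine ⟨h1, h2.trans (TreeX.Hf_child (a := e.1) he hb), fun w hw => ?_⟩
    have h4 := h3 w hw
    have h5 : T.dT e.2 w = T.dT b w + 1 := T.Hf_mem _ _ _ hb (h2 hw)
    have h6 : T.dT (e.2, b).2 w = T.dT b w := rfl
    omega

theorem DE_dist {k : ℕ} {e e' : T.V × T.V} (he : T.IsE e) (h : e' ∈ DE T k e) {w w' : T.V}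
    (hw : w ∈ T.Hf e') (hw' : w' ∉ T.Hf e) : k + 1 ≤ T.dT w w' := by
  obtain ⟨h1, h2, h3⟩ := DE_facts T k e he e' h
  have h4 := TreeX.Hf_cross' he (h2 hw) hw'
  have h5 := h3 w hw
  rw [T.dT_comm w e.2] at h4
  omega

theorem Vt_DE (k m : ℕ) : ∀ (e : T.V × T.V) (u : T.V), u ∈ T.Vt (k + m) e.2 ↔
    ∃ e' ∈ DE T k e, u ∈ T.Vt m e'.2 := by
  induction k with
  | zero =>
    intro e u
    rw [Nat.zero_add]
    constructor
    · intro h; exact ⟨e, rfl, h⟩
    · rintro ⟨e', h, hu⟩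
      have : e' = e := h
      subst this
      exact hu
  | succ k ih =>
    intro e u
    have e1 : k + 1 + m = (k + m) + 1 := by omega
    rw [e1]
    constructor
    · rintro ⟨b, hb, hu⟩
      obtain ⟨e', h1, h2⟩ := (ih (e.2, b) u).1 hu
      exact ⟨e', ⟨b, hb, h1⟩, h2⟩
    · rintro ⟨e', ⟨b, hb, h1⟩, h2⟩
      exact ⟨b, hb, (ih (e.2, b) u).2 ⟨e', h1, h2⟩⟩

theorem DE_disj (k m : ℕ) : ∀ (e e' e'' : T.V × T.V) (u : T.V), T.IsE e → e' ∈ DE T k e →
    e'' ∈ DE T k e → u ∈ T.Vt m e'.2 → u ∈ T.Vt m e''.2 → e' = e'' := by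
  induction k with
  | zero =>
    intro e e' e'' u _ h1 h2 _ _
    have h3 : e' = e := h1
    have h4 : e'' = e := h2
    rw [h3, h4]
  | succ k ih =>
    rintro e e' e'' u he ⟨b, hb, h1⟩ ⟨b', hb', h2⟩ h3 h4
    have h5 : u ∈ T.Vt (k + m) b := (Vt_DE T k m (e.2, b) u).2 ⟨e', h1, h3⟩
    have h6 : u ∈ T.Vt (k + m) b' := (Vt_DE T k m (e.2, b') u).2 ⟨e'', h2, h4⟩
    have h7 := TreeX.Vt_succ_unique hb hb' h5 h6
    subst h7
    exact ih (e.2, b) e' e'' u hb h1 h2 h3 h4

theorem tsum_DE (k m : ℕ) (e : T.V × T.V) (he : T.IsE e) (f : G → ℝ≥0∞) :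
    ∑' g : Top T (k + m) e.2, f g.1 =
      ∑ e' ∈ (DE_fin T k e).toFinset, ∑' g : {g : G // T.vx g ∈ T.Vt m e'.2}, f g.1 := by
  have h1 : Top T (k + m) e.2 = ⋃ e' ∈ (DE_fin T k e).toFinset, {g : G | T.vx g ∈ T.Vt m e'.2} := by
    ext g
    simp only [Set.mem_iUnion, exists_prop, Set.Finite.mem_toFinset]
    exact Vt_DE T k m e (T.vx g)
  have h2 : (((DE_fin T k e).toFinset : Finset (T.V × T.V)) : Set (T.V × T.V)).PairwiseDisjoint
      (fun e' => {g : G | T.vx g ∈ T.Vt m e'.2}) := by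
    intro e' h' e'' h'' hne
    rw [Set.Finite.coe_toFinset] at h' h''
    rw [Function.onFun, Set.disjoint_left]
    intro g hg hg'
    exact hne (DE_disj T k m e e' e'' _ he h' h'' hg hg')
  rw [h1, Summable.tsum_finset_bUnion_disjoint (f := f) h2 (fun i _ => ENNReal.summable)]
  rfl

end ent

section pair

variable {U : UA G} {c : G} (PU : PairUA U c)

/-- letter weights of the pair automaton -/
def lwP (lw : U.S → U.A → ℝ≥0∞) : PU.P.S → PU.P.A → ℝ≥0∞ := fun σ a =>
  match PU.fst a with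
  | some b => lw (PU.pr σ) b
  | none => 1

theorem wl_pair (lw : U.S → U.A → ℝ≥0∞) (σ : PU.P.S) (w : List PU.P.A) :
    wl PU.P (lwP PU lw) σ w = wl U lw (PU.pr σ) (w.filterMap PU.fst) := by
  induction w generalizing σ with
  | nil => simp [wl]
  | cons a w ih =>
    rw [wl, ih]
    unfold lwP
    rcases h : PU.fst a with _ | b
    · rw [List.filterMap_cons_none h, PU.pr_none σ a h, one_mul]
    · rw [List.filterMap_cons_some h, PU.pr_some σ a b h, wl]

theorem ev_pair (w : List PU.P.A) : PU.P.ev w = U.ev (w.filterMap PU.fst) := by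
  induction w with
  | nil => rw [List.filterMap_nil, UA.ev_nil, UA.ev_nil]
  | cons a w ih =>
    have e : PU.P.ev (a :: w) = PU.P.mu a * PU.P.ev w := by simp [UA.ev]
    rw [e, ih]
    rcases h : PU.fst a with _ | b
    · rw [List.filterMap_cons_none h, PU.mu_none a h, one_mul]
    · rw [List.filterMap_cons_some h, PU.mu_some a b h]
      simp [UA.ev]

theorem nf_fst (g : G) : (nf PU.P g).filterMap PU.fst = nf U g := by
  have h := PU.take_fst g (max (nf PU.P g).length (nf U g).length)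
  rwa [List.take_of_length_le (le_max_left _ _), List.take_of_length_le (le_max_right _ _)] at h

theorem nf_snd (g : G) : (nf PU.P g).filterMap PU.snd = nf U (g * c) := by
  have h := PU.take_snd g (max (nf PU.P g).length (nf U (g * c)).length)
  rwa [List.take_of_length_le (le_max_left _ _), List.take_of_length_le (le_max_right _ _)] at h

theorem wl_nf_pair (lw : U.S → U.A → ℝ≥0∞) (g : G) :
    wl PU.P (lwP PU lw) PU.P.s0 (nf PU.P g) = wl U lw U.s0 (nf U g) := by
  rw [wl_pair, PU.pr_s0, nf_fst]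

/-- the main sum over tops through the pair automaton -/
theorem pair_sum (T : TreeX G) (lw : U.S → U.A → ℝ≥0∞) (k m : ℕ) (e : T.V × T.V) (he : T.IsE e)
    (ho : T.o ∉ T.Hf e) (a : List PU.P.A → ℝ≥0∞) (b : G → ℝ≥0∞)
    (hab : ∀ e' ∈ DE T k e, ∀ P W, Ent T PU.P e' P →
      W ∈ WW T PU.P m (PU.P.run PU.P.s0 P) (rel T PU.P P e') → b (PU.P.ev (P ++ W)) = a P) :
    ∑' g : Top T (k + m) e.2, wl U lw U.s0 (nf U g.1) * b g.1 =
      ∑ z : Nd T PU.P, (∑ e' ∈ (DE_fin T k e).toFinset, Lw T PU.P (lwP PU lw) e' a z) *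
        Kw T PU.P (lwP PU lw) m z := by
  rw [tsum_DE T k m e he (fun g => wl U lw U.s0 (nf U g) * b g)]
  have h1 : ∀ e' ∈ (DE_fin T k e).toFinset,
      ∑' g : {g : G // T.vx g ∈ T.Vt m e'.2}, wl U lw U.s0 (nf U g.1) * b g.1 =
      ∑ z : Nd T PU.P, Lw T PU.P (lwP PU lw) e' a z * Kw T PU.P (lwP PU lw) m z := by
    intro e' he'
    rw [Set.Finite.mem_toFinset] at he'
    obtain ⟨h2, h3, -⟩ := DE_facts T k e he e' he'
    rw [← top_sum T PU.P (lwP PU lw) m e' h2 (fun h => ho (h3 h)) a b (hab e' he')]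
    exact tsum_congr fun g => by rw [wl_nf_pair]
  rw [Finset.sum_congr rfl h1, Finset.sum_comm]
  exact Finset.sum_congr rfl fun z _ => by rw [Finset.sum_mul]

end pair

/-- telescoping estimate -/
theorem tele {S : Type} (τ : S ≃ S) (W : S → ℝ) (hW0 : ∀ g, 0 < W g) (hWs : Summable W)
    (κ : ℝ) (hκ : 0 < κ) (hκ1 : κ ≤ 1) (hτ1 : ∀ g, κ * W g ≤ W (τ g))
    (hτ2 : ∀ g, κ * W (τ g) ≤ W g) (φ D : S → ℂ) (α : ℂ) (C : ℝ) (hC : 0 ≤ C)
    (hφ : ∀ g, ‖φ g‖ ≤ C) (bad : Set S)
    (hgood : ∀ g, g ∉ bad → τ g ∉ bad → D g = φ (τ g) - φ g + α)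
    (hbad : ∀ g, (g ∈ bad ∨ τ g ∈ bad) → D g = 0) :
    ‖(∑' g, (W g : ℂ) * D g) - α * ((∑' g, W g : ℝ) : ℂ)‖ ≤
      C * (κ⁻¹ - 1) * (∑' g, W g) + (2 * C + ‖α‖) * (1 + κ⁻¹) * ∑' g, Set.indicator bad W g := by
  have hκi : 1 ≤ κ⁻¹ := (one_le_inv₀ hκ).2 hκ1
  -- summability helper
  have hsum : ∀ (f : S → ℂ) (B : ℝ), (∀ g, ‖f g‖ ≤ B * W g) → Summable f := fun f B hf =>
    Summable.of_norm_bounded (hWs.mul_left B) hf
  have hnW : ∀ g, ‖(W g : ℂ)‖ = W g := fun g => by
    rw [Complex.norm_real, Real.norm_eq_abs, abs_of_pos (hW0 g)]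
  have s1 : Summable (fun g => (W g : ℂ) * φ (τ g)) := hsum _ C fun g => by
    rw [norm_mul, hnW, mul_comm]
    exact mul_le_mul_of_nonneg_right (hφ _) (hW0 g).le
  have s2 : Summable (fun g => (W g : ℂ) * φ g) := hsum _ C fun g => by
    rw [norm_mul, hnW, mul_comm]
    exact mul_le_mul_of_nonneg_right (hφ _) (hW0 g).le
  have s3 : Summable (fun g => (W g : ℂ) * α) := hsum _ ‖α‖ fun g => by
    rw [norm_mul, hnW, mul_comm]
  set err : S → ℂ := fun g => (W g : ℂ) * (D g - (φ (τ g) - φ g + α)) with herr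
  have hWτs : Summable (fun g => Set.indicator bad W (τ g)) := by
    have h1 : Summable (Set.indicator bad W) := hWs.indicator bad
    exact (τ.summable_iff).2 h1
  have herrb : ∀ g, ‖err g‖ ≤ (2 * C + ‖α‖) *
      (Set.indicator bad W g + κ⁻¹ * Set.indicator bad W (τ g)) := by
    intro g
    have h0 : 0 ≤ Set.indicator bad W g := Set.indicator_nonneg (fun g _ => (hW0 g).le) g
    have h0' : 0 ≤ Set.indicator bad W (τ g) := Set.indicator_nonneg (fun g _ => (hW0 g).le) _
    by_cases hb : g ∈ bad ∨ τ g ∈ bad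
    · have h1 : ‖err g‖ ≤ (2 * C + ‖α‖) * W g := by
        rw [herr]
        simp only
        rw [norm_mul, hnW, hbad g hb, zero_sub, norm_neg, mul_comm]
        apply mul_le_mul_of_nonneg_right _ (hW0 g).le
        have h2 := norm_add_le (φ (τ g) - φ g) α
        have h3 := norm_sub_le (φ (τ g)) (φ g)
        have h4 := hφ (τ g)
        have h5 := hφ g
        linarith
      refine h1.trans (mul_le_mul_of_nonneg_left ?_ (by positivity))
      rcases hb with hb | hb
      · rw [Set.indicator_of_mem hb]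
        have : 0 ≤ κ⁻¹ * Set.indicator bad W (τ g) := by positivity
        linarith
      · rw [Set.indicator_of_mem hb]
        have h6 : W g ≤ κ⁻¹ * W (τ g) := by
          rw [← div_eq_inv_mul, le_div_iff₀ hκ, mul_comm]
          exact hτ1 g
        linarith
    · push Not at hb
      have h1 : err g = 0 := by
        rw [herr]
        simp only
        rw [hgood g hb.1 hb.2, sub_self, mul_zero]
      rw [h1, norm_zero]
      positivity
  have hbs : Summable (fun g => (2 * C + ‖α‖) *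
      (Set.indicator bad W g + κ⁻¹ * Set.indicator bad W (τ g))) :=
    ((hWs.indicator bad).add (hWτs.mul_left κ⁻¹)).mul_left _
  have s4 : Summable err := Summable.of_norm_bounded hbs herrb
  have hdec : ∀ g, (W g : ℂ) * D g =
      ((W g : ℂ) * φ (τ g) - (W g : ℂ) * φ g + (W g : ℂ) * α) + err g := by
    intro g; rw [herr]; ring
  have e1 : ∑' g, (W g : ℂ) * D g = (∑' g, (W g : ℂ) * φ (τ g)) - (∑' g, (W g : ℂ) * φ g) +
      (∑' g, (W g : ℂ) * α) + ∑' g, err g := by
    rw [tsum_congr hdec, Summable.tsum_add ((s1.sub s2).add s3) s4,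
      Summable.tsum_add (s1.sub s2) s3, Summable.tsum_sub s1 s2]
  have e2 : ∑' g, (W g : ℂ) * α = α * ((∑' g, W g : ℝ) : ℂ) := by
    rw [tsum_mul_right, mul_comm, Complex.ofReal_tsum]
  have s5 : Summable (fun g => (W (τ.symm g) : ℂ) * φ g) := by
    have := (τ.symm.summable_iff).2 s1
    refine this.congr fun g => ?_
    simp
  have e3 : ∑' g, (W g : ℂ) * φ (τ g) = ∑' g, (W (τ.symm g) : ℂ) * φ g := by
    rw [← τ.tsum_eq (fun g => (W (τ.symm g) : ℂ) * φ g)]
    exact tsum_congr fun g => by simp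
  have e4 : (∑' g, (W g : ℂ) * φ (τ g)) - (∑' g, (W g : ℂ) * φ g) =
      ∑' g, ((W (τ.symm g) : ℂ) - W g) * φ g := by
    rw [e3, ← Summable.tsum_sub s5 s2]
    exact tsum_congr fun g => by ring
  have b1 : ‖∑' g, ((W (τ.symm g) : ℂ) - W g) * φ g‖ ≤ C * (κ⁻¹ - 1) * (∑' g, W g) := by
    have h1 : ∀ g, ‖((W (τ.symm g) : ℂ) - W g) * φ g‖ ≤ (C * (κ⁻¹ - 1)) * W g := by
      intro g
      rw [norm_mul, ← Complex.ofReal_sub, Complex.norm_real, Real.norm_eq_abs]
      have h2 : |W (τ.symm g) - W g| ≤ (κ⁻¹ - 1) * W g := by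
        have h3 := hτ1 (τ.symm g)
        have h4 := hτ2 (τ.symm g)
        rw [Equiv.apply_symm_apply] at h3 h4
        have h5 : W (τ.symm g) ≤ κ⁻¹ * W g := by
          rw [← div_eq_inv_mul, le_div_iff₀ hκ, mul_comm]
          exact h3
        have h6 : 1 - κ ≤ κ⁻¹ - 1 := by
          have h7 : κ + κ⁻¹ ≥ 2 := by
            have h8 : κ * κ⁻¹ = 1 := mul_inv_cancel₀ hκ.ne'
            nlinarith [sq_nonneg (κ - 1)]
          linarith
        rw [abs_le]
        constructor
        · have h9 : (1 - κ) * W g ≤ (κ⁻¹ - 1) * W g := mul_le_mul_of_nonneg_right h6 (hW0 g).le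
          linarith
        · linarith
      calc |W (τ.symm g) - W g| * ‖φ g‖ ≤ ((κ⁻¹ - 1) * W g) * C := by
            apply mul_le_mul h2 (hφ g) (norm_nonneg _)
            have : 0 ≤ κ⁻¹ - 1 := by linarith
            exact mul_nonneg this (hW0 g).le
        _ = _ := by ring
    have h3 := tsum_of_norm_bounded ((hWs.mul_left (C * (κ⁻¹ - 1))).hasSum) h1
    rw [tsum_mul_left] at h3
    exact h3
  have b2 : ‖∑' g, err g‖ ≤ (2 * C + ‖α‖) * (1 + κ⁻¹) * ∑' g, Set.indicator bad W g := by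
    have h3 := tsum_of_norm_bounded hbs.hasSum herrb
    refine h3.trans (le_of_eq ?_)
    rw [tsum_mul_left, Summable.tsum_add (hWs.indicator bad) (hWτs.mul_left κ⁻¹), tsum_mul_left,
      τ.tsum_eq (Set.indicator bad W)]
    ring
  have e5 : (∑' g, (W g : ℂ) * D g) - α * ((∑' g, W g : ℝ) : ℂ) =
      (∑' g, ((W (τ.symm g) : ℂ) - W g) * φ g) + ∑' g, err g := by
    rw [e1, e2, e4]; ring
  rw [e5]
  exact (norm_add_le _ _).trans (add_le_add b1 b2)

end

end Pool.Agent.TH109
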