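import Mathlib
import Pool.Agent.TH109.Fin1

set_option autoImplicit false

open scoped Classical ENNReal

namespace Pool.Agent.TH109

open Pool.Agent.Helper943.LM (UA)

noncomputable section

variable {G : Type} [Group G] (T : TX G) (U : UA G)

/-- tameness of the node of a prefix -/
def TameP (e : T.V × T.V) (P : List U.A) : Prop := Tame T U (U.run U.s0 P) (rel T.toTreeX U P e)

/-- the last entrance of the normal form -/
def lastE (e : T.V × T.V) (g : G) : List U.A := entw T.toTreeX U e (nf U g)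

/-- the bounded potential -/
def phiF (e : T.V × T.V) (g : G) : ℂ :=
  if TameP T U e (lastE T U e g) then T.p (U.ev (lastE T U e g)) - T.p g else 0

variable {U} in
/-- difference of the entrances of a pair word -/
def DFw (PU : PairUA U T.c) (e : T.V × T.V) (w : List PU.P.A) : ℂ :=
  if TameP T U e (entw T.toTreeX U e (w.filterMap PU.fst)) ∧
      TameP T U e (entw T.toTreeX U e (w.filterMap PU.snd)) then
    T.p (U.ev (entw T.toTreeX U e (w.filterMap PU.snd))) -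
      T.p (U.ev (entw T.toTreeX U e (w.filterMap PU.fst))) else 0

theorem top_split {e : T.V × T.V} (he : T.IsE e) (ho : T.o ∉ T.Hf e) (k : ℕ) {g : G}
    (hg : g ∈ Top T.toTreeX k e.2) :
    ∃ W, nf U g = lastE T U e g ++ W ∧ Ent T.toTreeX U e (lastE T U e g) ∧
      W ∈ WW T.toTreeX U k (U.run U.s0 (lastE T U e g)) (rel T.toTreeX U (lastE T U e g) e) := by
  have h4 : T.vx (U.ev (nf U g)) ∈ T.Hf e := by
    rw [nf_ev]; exact TreeX.Vt_sub' he k hg
  obtain ⟨P, W, hPW, hL⟩ := lst_exists T.toTreeX U h4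
  have hE := lst_ent T.toTreeX U ho hL
  have h5 : lastE T U e g = P := by
    unfold lastE
    rw [hPW]
    exact entw_lst T.toTreeX U hL
  have hW : W ∈ WW T.toTreeX U k (U.run U.s0 P) (T.actE (U.ev P)⁻¹ e) := by
    rw [WW_shift]
    refine ⟨?_, hL.2, ?_⟩
    · rw [← hPW]; exact nf_mem U g
    · rw [← hPW, nf_ev]; exact hg
  rw [h5]
  exact ⟨W, hPW, hE, hW⟩

theorem top_c {k : ℕ} {q : T.V} {g : G} : g * T.c ∈ Top T.toTreeX k q ↔ g ∈ Top T.toTreeX k q := by
  show T.act (g * T.c) T.o ∈ T.Vt k q ↔ T.act g T.o ∈ T.Vt k q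
  rw [T.act_mul, T.c_o]

theorem phiF_bd {m : ℕ} {C : ℝ} (hC0 : 0 ≤ C)
    (hC : ∀ (e : T.V × T.V) (P W : List U.A), T.IsE e →
      ∀ m' ≤ m, Ent T.toTreeX U e P →
      W ∈ WW T.toTreeX U m' (U.run U.s0 P) (rel T.toTreeX U P e) →
      Tame T U (U.run U.s0 P) (rel T.toTreeX U P e) →
      ‖T.p (U.ev P) - T.p (U.ev (P ++ W))‖ ≤ C)
    {e : T.V × T.V} (he : T.IsE e) (ho : T.o ∉ T.Hf e) {k : ℕ} (hk : k ≤ m) {g : G}
    (hg : g ∈ Top T.toTreeX k e.2) : ‖phiF T U e g‖ ≤ C := by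
  unfold phiF
  split_ifs with ht
  · obtain ⟨W, h1, h2, h3⟩ := top_split T U he ho k hg
    have h4 := hC e _ W he k hk h2 h3 ht
    rwa [← h1, nf_ev] at h4
  · rw [norm_zero]; exact hC0

variable {U}

theorem DFw_nf (PU : PairUA U T.c) (e : T.V × T.V) (g : G) : DFw T PU e (nf PU.P g) =
    if TameP T U e (lastE T U e g) ∧ TameP T U e (lastE T U e (g * T.c)) then
      T.p (U.ev (lastE T U e (g * T.c))) - T.p (U.ev (lastE T U e g)) else 0 := by
  unfold DFw lastE
  rw [nf_fst, nf_snd]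

theorem DFw_bd (PU : PairUA U T.c) {F : ℝ} (hF0 : 0 ≤ F)
    (hF : ∀ (e : T.V × T.V) (m m' : ℕ) (P P' W W' : List U.A), T.IsE e →
      Ent T.toTreeX U e P → Ent T.toTreeX U e P' →
      W ∈ WW T.toTreeX U m (U.run U.s0 P) (rel T.toTreeX U P e) →
      W' ∈ WW T.toTreeX U m' (U.run U.s0 P') (rel T.toTreeX U P' e) →
      Tame T U (U.run U.s0 P) (rel T.toTreeX U P e) →
      Tame T U (U.run U.s0 P') (rel T.toTreeX U P' e) →
      U.ev (P ++ W) * T.c = U.ev (P' ++ W') →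
      ‖T.p (U.ev P') - T.p (U.ev P)‖ ≤ F)
    {e : T.V × T.V} (he : T.IsE e) (ho : T.o ∉ T.Hf e) {k : ℕ} {g : G}
    (hg : g ∈ Top T.toTreeX k e.2) : ‖DFw T PU e (nf PU.P g)‖ ≤ F := by
  rw [DFw_nf]
  split_ifs with ht
  · obtain ⟨W, h1, h2, h3⟩ := top_split T U he ho k hg
    obtain ⟨W', h1', h2', h3'⟩ := top_split T U he ho k ((top_c T).2 hg)
    exact hF e k k _ _ W W' he h2 h2' h3 h3' ht.1 ht.2 (by rw [← h1, ← h1', nf_ev, nf_ev])
  · rw [norm_zero]; exact hF0

theorem DFw_good (PU : PairUA U T.c) (e : T.V × T.V) (g : G) (h1 : TameP T U e (lastE T U e g))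
    (h2 : TameP T U e (lastE T U e (g * T.c))) :
    DFw T PU e (nf PU.P g) = phiF T U e (g * T.c) - phiF T U e g + T.om ^ (T.tau g) * T.p T.c := by
  rw [DFw_nf, if_pos ⟨h1, h2⟩]
  unfold phiF
  rw [if_pos h1, if_pos h2, T.p_mul g T.c]
  ring

theorem DFw_zero (PU : PairUA U T.c) (e : T.V × T.V) (g : G)
    (h : ¬ TameP T U e (lastE T U e g) ∨ ¬ TameP T U e (lastE T U e (g * T.c))) :
    DFw T PU e (nf PU.P g) = 0 := by
  rw [DFw_nf, if_neg]
  rintro ⟨h1, h2⟩
  rcases h with h | h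
  · exact h h1
  · exact h h2

/-- the pair prefix at a deep entrance determines the difference -/
theorem DFw_prefix (PU : PairUA U T.c) {D : Set G} {k : ℕ} (hk : ∀ d ∈ D, T.nm d ≤ k)
    (hD : ∀ w ∈ U.L, ∀ w' ∈ U.L, U.ev w * T.c = U.ev w' →
      ∀ t, (U.ev (w.take t))⁻¹ * U.ev (w'.take t) ∈ D)
    {e e' : T.V × T.V} (he : T.IsE e) (he' : e' ∈ DE T.toTreeX k e) {m : ℕ} {P W : List PU.P.A}
    (hW : W ∈ WW T.toTreeX PU.P m (PU.P.run PU.P.s0 P) (rel T.toTreeX PU.P P e')) :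
    DFw T PU e (nf PU.P (PU.P.ev (P ++ W))) = DFw T PU e P := by
  obtain ⟨-, hsub, -⟩ := DE_facts T.toTreeX k e he e' he'
  have hW' : W ∈ WW T.toTreeX PU.P m (PU.P.run PU.P.s0 P) (T.actE (PU.P.ev P)⁻¹ e') := hW
  rw [WW_shift] at hW'
  obtain ⟨h1, h2, -⟩ := hW'
  set g := PU.P.ev (P ++ W) with hg
  have hnf : nf PU.P g = P ++ W := nf_eq PU.P h1
  have hP : P = (nf PU.P g).take P.length := by
    rw [hnf, List.take_append_of_le_length le_rfl, List.take_length]
  have hin : ∀ i, P.length ≤ i → T.vx (U.ev ((nf U g).take i)) ∈ T.Hf e' := by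
    intro i hi
    rw [← PU.take_fst, ← ev_pair, hnf, List.take_append, List.take_of_length_le hi]
    exact h2 _
  have hin1 : ∀ i, P.length ≤ i → T.vx (U.ev ((nf U g).take i)) ∈ T.Hf e :=
    fun i hi => hsub (hin i hi)
  have hin2 : ∀ i, P.length ≤ i → T.vx (U.ev ((nf U (g * T.c)).take i)) ∈ T.Hf e := by
    intro i hi
    by_contra hn
    have h3 := DE_dist T.toTreeX he he' (hin i hi) hn
    have h4 := hk _ (hD (nf U g) (nf_mem U g) (nf U (g * T.c)) (nf_mem U _)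
      (by rw [nf_ev, nf_ev]) i)
    rw [TreeX.nm_inv_mul] at h4
    omega
  have e1 : P.filterMap PU.fst = (nf U g).take P.length := by
    conv_lhs => rw [hP]
    exact PU.take_fst g _
  have e2 : P.filterMap PU.snd = (nf U (g * T.c)).take P.length := by
    conv_lhs => rw [hP]
    exact PU.take_snd g _
  unfold DFw
  rw [nf_fst, nf_snd, e1, e2, ← entw_take T.toTreeX U hin1, ← entw_take T.toTreeX U hin2]

/-- bad tops -/
def badT (T : TX G) (U : UA G) (e : T.V × T.V) (k : ℕ) : Set G :=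
  {g | g ∈ Top T.toTreeX k e.2 ∧ ¬ TameP T U e (lastE T U e g)}

theorem badT_sub (n k M T0 : ℕ) (hkM : k ≤ M) :
    badT T U (T.rt n) k ⊆ BG T U n M T0 ∪ NTS T U n k T0 := by
  rintro g ⟨hg, ht⟩
  obtain ⟨W, h1, h2, h3⟩ := top_split T U (TreeX.rt_IsE n) (TreeX.rt_one n) k hg
  by_cases hc : c1 T U (U.run U.s0 (lastE T U (T.rt n) g)) W ≤ T0
  · right
    exact ⟨_, W, h2, h3, by rw [← h1, nf_ev], ht, hc⟩
  · left
    refine ⟨⟨k, hkM, hg⟩, (lastE T U (T.rt n) g).length, nf_mem U g, ?_, ?_, ?_, ?_⟩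
    · intro i hi
      rw [h1, List.take_append, List.take_of_length_le hi]
      have h3' := h3
      unfold rel at h3'
      rw [WW_shift] at h3'
      exact h3'.2.1 _
    · rw [h1, List.take_append_of_le_length le_rfl, List.take_length, List.drop_append_of_le_length le_rfl,
        List.drop_length, List.nil_append]
      omega
    · rw [nf_ev]
      exact ⟨k, hkM, hg⟩
    · rw [nf_ev]

end

end Pool.Agent.TH109
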