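import Mathlib
import Pool.Agent.TH109.Fin2

set_option autoImplicit false

open scoped Classical ENNReal

namespace Pool.Agent.TH109

open Pool.Agent.Helper943.LM (UA)

noncomputable section

variable {G : Type} [Group G] (T : TX G) {U : UA G}

theorem pow_near (C : ℕ) (δ : ℝ) (hδ : 0 < δ) : ∃ θ : ℝ, 0 < θ ∧ θ < 1 ∧ (θ ^ C)⁻¹ ≤ 1 + δ := by
  have h1 : 0 < (C : ℝ) + 1 := by positivity
  set t : ℝ := δ / (((C : ℝ) + 1) * (1 + δ)) with ht
  have ht0 : 0 < t := by rw [ht]; positivity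
  have ht1 : t < 1 := by
    rw [ht, div_lt_one (by positivity)]
    nlinarith
  have hCt : (C : ℝ) * t ≤ δ / (1 + δ) := by
    rw [ht, mul_div_assoc', div_le_div_iff₀ (by positivity) (by positivity)]
    nlinarith [mul_pos hδ (by positivity : (0 : ℝ) < 1 + δ)]
  refine ⟨1 - t, by linarith, by linarith, ?_⟩
  have h2 := one_add_mul_le_pow (a := -t) (by linarith) C
  have h3 : (1 - t) ^ C = (1 + -t) ^ C := by rw [sub_eq_add_neg]
  have h4 : (1 + δ)⁻¹ ≤ (1 - t) ^ C := by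
    rw [h3]
    refine le_trans ?_ h2
    have h5 : (1 + δ)⁻¹ = 1 - δ / (1 + δ) := by field_simp; ring
    rw [h5]
    linarith
  exact inv_le_of_inv_le₀ (by positivity) h4

/-- level vector -/
def LL (PU : PairUA U T.c) (x θ : ℝ) (k : ℕ) (e : T.V × T.V) (a : List PU.P.A → ℝ≥0∞)
    (z : Nd T.toTreeX PU.P) : ℝ≥0∞ :=
  ∑ e' ∈ (DE_fin T.toTreeX k e).toFinset, Lw T.toTreeX PU.P (lwP PU (lwU T U x θ)) e' a z

/-- completion vector -/
def KK (PU : PairUA U T.c) (x θ : ℝ) (m : ℕ) (z : Nd T.toTreeX PU.P) : ℝ≥0∞ :=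
  Kw T.toTreeX PU.P (lwP PU (lwU T U x θ)) m z

/-- transfer matrix -/
def MM (PU : PairUA U T.c) (x θ : ℝ) (z z' : Nd T.toTreeX PU.P) : ℝ≥0∞ :=
  Mw T.toTreeX PU.P (lwP PU (lwU T U x θ)) z z'

theorem KK_succ (PU : PairUA U T.c) (x θ : ℝ) (m : ℕ) (z : Nd T.toTreeX PU.P) :
    KK T PU x θ (m + 1) z = ∑ z', MM T PU x θ z z' * KK T PU x θ m z' :=
  Kw_succ T.toTreeX PU.P _ m z

theorem LL_le (PU : PairUA U T.c) (x θ : ℝ) (k : ℕ) (e : T.V × T.V) (a : List PU.P.A → ℝ≥0∞)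
    (c : ℝ≥0∞) (ha : ∀ P, a P ≤ c) (z : Nd T.toTreeX PU.P) :
    LL T PU x θ k e a z ≤ c * LL T PU x θ k e (fun _ => 1) z := by
  unfold LL
  rw [Finset.mul_sum]
  refine Finset.sum_le_sum fun e' _ => ?_
  unfold Lw
  rw [← ENNReal.tsum_mul_left]
  refine ENNReal.tsum_le_tsum fun P => ?_
  rw [mul_one, mul_comm]
  exact mul_le_mul_left (ha _) _

theorem LL_sum (PU : PairUA U T.c) {x θ : ℝ} (hx : 0 ≤ x) (hθ : 0 ≤ θ) (k m : ℕ)
    {e : T.V × T.V} (he : T.IsE e)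
    (ho : T.o ∉ T.Hf e) (a : List PU.P.A → ℝ≥0∞) (b : G → ℝ≥0∞)
    (hab : ∀ e' ∈ DE T.toTreeX k e, ∀ P W,
      W ∈ WW T.toTreeX PU.P m (PU.P.run PU.P.s0 P) (rel T.toTreeX PU.P P e') →
      b (PU.P.ev (P ++ W)) = a P) :
    ∑ z, LL T PU x θ k e a z * KK T PU x θ m z =
      ∑' g : Top T.toTreeX (k + m) e.2, ENNReal.ofReal (Wt T U x θ g.1) * b g.1 := by
  have h := pair_sum PU T.toTreeX (lwU T U x θ) k m e he ho a b
    (fun e' he' P W _ hW => hab e' he' P W hW)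
  rw [show (∑ z, LL T PU x θ k e a z * KK T PU x θ m z) = _ from h.symm]
  exact tsum_congr fun g => by rw [wl_nf T U hx hθ]

theorem LL_one (PU : PairUA U T.c) {x θ : ℝ} (hx : 0 ≤ x) (hθ : 0 ≤ θ) (k m : ℕ)
    {e : T.V × T.V} (he : T.IsE e) (ho : T.o ∉ T.Hf e) :
    ∑ z, LL T PU x θ k e (fun _ => 1) z * KK T PU x θ m z =
      mE T U x θ (Top T.toTreeX (k + m) e.2) := by
  rw [LL_sum T PU hx hθ k m he ho (fun _ => 1) (fun _ => 1) (fun _ _ _ _ _ => rfl)]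
  unfold mE
  exact tsum_congr fun g => by rw [mul_one]

theorem Wt_summable {x θ : ℝ} (hθ : 0 < θ) (hθx : θ ≤ x) (hx : x < 1) (m : ℕ) (q : T.V) :
    Summable (fun g : Top T.toTreeX m q => Wt T U x θ g.1) := by
  have h1 := ENNReal.summable_toReal (mass_Top_fin T U hθ hθx hx m q)
  refine h1.congr fun g => ?_
  exact ENNReal.toReal_ofReal (Wt_pos T U (hθ.trans_le hθx) hθ g.1).le

theorem mE_toReal {x θ : ℝ} (hθ : 0 < θ) (hθx : θ ≤ x) (m : ℕ) (q : T.V) :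
    (mE T U x θ (Top T.toTreeX m q)).toReal = ∑' g : Top T.toTreeX m q, Wt T U x θ g.1 := by
  unfold mE
  rw [ENNReal.tsum_toReal_eq (fun _ => ENNReal.ofReal_ne_top)]
  exact tsum_congr fun g => ENNReal.toReal_ofReal (Wt_pos T U (hθ.trans_le hθx) hθ g.1).le

theorem LL_real (PU : PairUA U T.c) {x θ : ℝ} (hθ : 0 < θ) (hθx : θ ≤ x) (hx : x < 1) (k m : ℕ)
    {e : T.V × T.V} (he : T.IsE e) (ho : T.o ∉ T.Hf e) (F : ℝ)
    (a : List PU.P.A → ℝ) (b : G → ℝ) (hb : ∀ g ∈ Top T.toTreeX (k + m) e.2, |b g| ≤ F)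
    (hab : ∀ e' ∈ DE T.toTreeX k e, ∀ P W,
      W ∈ WW T.toTreeX PU.P m (PU.P.run PU.P.s0 P) (rel T.toTreeX PU.P P e') →
      b (PU.P.ev (P ++ W)) = a P) :
    (∑ z, LL T PU x θ k e (fun P => ENNReal.ofReal (min (a P + F) (2 * F))) z *
      KK T PU x θ m z).toReal - F * (mE T U x θ (Top T.toTreeX (k + m) e.2)).toReal =
      ∑' g : Top T.toTreeX (k + m) e.2, Wt T U x θ g.1 * b g.1 := by
  have hx0 : 0 < x := hθ.trans_le hθx
  rw [LL_sum T PU hx0.le hθ.le k m he ho _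
    (fun g => ENNReal.ofReal (min (b g + F) (2 * F))) (fun e' he' P W hW => by
      simp only [hab e' he' P W hW])]
  have hs := Wt_summable T (U := U) hθ hθx hx (k + m) e.2
  have hW0 : ∀ g : Top T.toTreeX (k + m) e.2, 0 < Wt T U x θ g.1 := fun g => Wt_pos T U hx0 hθ g.1
  rw [ENNReal.tsum_toReal_eq (fun g => ENNReal.mul_ne_top ENNReal.ofReal_ne_top
    ENNReal.ofReal_ne_top)]
  have h1 : ∀ g : Top T.toTreeX (k + m) e.2,
      (ENNReal.ofReal (Wt T U x θ g.1) * ENNReal.ofReal (min (b g.1 + F) (2 * F))).toReal =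
      Wt T U x θ g.1 * b g.1 + F * Wt T U x θ g.1 := by
    intro g
    have h2 := abs_le.1 (hb g.1 g.2)
    rw [ENNReal.toReal_mul, ENNReal.toReal_ofReal (hW0 g).le, min_eq_left (by linarith),
      ENNReal.toReal_ofReal (by linarith)]
    ring
  have h3 : Summable (fun g : Top T.toTreeX (k + m) e.2 => Wt T U x θ g.1 * b g.1) := by
    refine Summable.of_norm_bounded (hs.mul_left F) fun g => ?_
    rw [Real.norm_eq_abs, abs_mul, abs_of_pos (hW0 g), mul_comm]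
    exact mul_le_mul_of_nonneg_right (hb g.1 g.2) (hW0 g).le
  rw [tsum_congr h1, Summable.tsum_add h3 (hs.mul_left F), tsum_mul_left, mE_toReal T hθ hθx]
  ring

/-- combination of real and imaginary parts -/
theorem comb {S : Type} (W : S → ℝ) (D : S → ℂ) (h : Summable (fun g => (W g : ℂ) * D g)) :
    (((∑' g, W g * (D g).re : ℝ) : ℂ) + ((∑' g, W g * (D g).im : ℝ) : ℂ) * Complex.I) =
      ∑' g, (W g : ℂ) * D g := by
  apply Complex.ext
  · rw [Complex.re_tsum h]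
    simp
  · rw [Complex.im_tsum h]
    simp

end

end Pool.Agent.TH109
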