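import Mathlib
import Pool.Agent.TH109.Fin3
import Pool.Agent.TH111.J720

set_option autoImplicit false

open scoped Classical ENNReal

namespace Pool.Agent.TH109

open Pool.Agent.Helper943.LM (UA)

noncomputable section

variable {G : Type} [Group G]

/-- translation by `c` on the tops -/
def tauc (T : TX G) (k : ℕ) (q : T.V) : Top T.toTreeX k q ≃ Top T.toTreeX k q where
  toFun g := ⟨g.1 * T.c, (top_c T).2 g.2⟩
  invFun g := ⟨g.1 * T.c⁻¹, (top_c T).1 (by rw [inv_mul_cancel_right]; exact g.2)⟩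
  left_inv g := Subtype.ext (mul_inv_cancel_right _ _)
  right_inv g := Subtype.ext (inv_mul_cancel_right _ _)

/-- the error of the level sums -/
theorem level_err (T : TX G) {U : UA G} (PU : PairUA U T.c) {M : ℕ} {Cs : ℝ} (hCs : 0 ≤ Cs)
    (hphi : ∀ (e : T.V × T.V) (P W : List U.A), T.IsE e →
      ∀ m' ≤ M, Ent T.toTreeX U e P →
      W ∈ WW T.toTreeX U m' (U.run U.s0 P) (rel T.toTreeX U P e) →
      Tame T U (U.run U.s0 P) (rel T.toTreeX U P e) →
      ‖T.p (U.ev P) - T.p (U.ev (P ++ W))‖ ≤ Cs)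
    {x θ : ℝ} (hθ : 0 < θ) (hθx : θ ≤ x) (hx : x < 1) {κ : ℝ} (hκ : 0 < κ) (hκ1 : κ ≤ 1)
    (hlip : ∀ g, κ * Wt T U x θ g ≤ Wt T U x θ (g * T.c) ∧ κ * Wt T U x θ (g * T.c) ≤ Wt T U x θ g)
    (n K : ℕ) (hK : K ≤ M) :
    ‖(∑' g : Top T.toTreeX K (T.rt n).2,
        (Wt T U x θ g.1 : ℂ) * DFw T PU (T.rt n) (nf PU.P g.1)) -
      (T.om ^ (n + 1 + K) * T.p T.c) * (((mE T U x θ (Top T.toTreeX K (T.rt n).2)).toReal : ℝ) : ℂ)‖ ≤
    Cs * (κ⁻¹ - 1) * (mE T U x θ (Top T.toTreeX K (T.rt n).2)).toReal +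
      (2 * Cs + ‖T.p T.c‖) * (1 + κ⁻¹) * (mE T U x θ (badT T U (T.rt n) K)).toReal := by
  have hx0 : 0 < x := hθ.trans_le hθx
  have he := TreeX.rt_IsE (T := T.toTreeX) n
  have ho := TreeX.rt_one (T := T.toTreeX) n
  set S := Top T.toTreeX K (T.rt n).2 with hS
  have hs := Wt_summable T (U := U) hθ hθx hx K (T.rt n).2
  have hW0 : ∀ g : S, 0 < Wt T U x θ g.1 := fun g => Wt_pos T U hx0 hθ g.1
  have hα : ‖T.om ^ (n + 1 + K) * T.p T.c‖ = ‖T.p T.c‖ := by
    rw [norm_mul, norm_pow, T.om_norm, one_pow, one_mul]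
  have htau : ∀ g : S, T.om ^ (T.tau g.1) = T.om ^ (n + 1 + K) := by
    intro g
    have h1 : T.ex (T.vx g.1) = T.ex (T.rt n).2 + K := TreeX.Vt_ex g.2
    rw [TreeX.rt_ex_snd, TreeX.ex_vx] at h1
    have h2 : T.tau g.1 = ((n + 1 + K : ℕ) : ℤ) := by push_cast; linarith
    rw [h2, zpow_natCast]
  have h := tele (tauc T K (T.rt n).2) (fun g : S => Wt T U x θ g.1) hW0 hs κ hκ hκ1
    (fun g => (hlip g.1).1) (fun g => (hlip g.1).2) (fun g => phiF T U (T.rt n) g.1)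
    (fun g => DFw T PU (T.rt n) (nf PU.P g.1)) (T.om ^ (n + 1 + K) * T.p T.c) Cs hCs
    (fun g => phiF_bd T U hCs hphi he ho hK g.2)
    {g : S | ¬ TameP T U (T.rt n) (lastE T U (T.rt n) g.1)}
    (fun g h1 h2 => by
      have h1' : TameP T U (T.rt n) (lastE T U (T.rt n) g.1) := not_not.1 h1
      have h2' : TameP T U (T.rt n) (lastE T U (T.rt n) (g.1 * T.c)) := not_not.1 h2
      rw [DFw_good T PU (T.rt n) g.1 h1' h2', htau g]
      rfl)
    (fun g h1 => DFw_zero T PU (T.rt n) g.1 h1)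
  rw [hα, ← mE_toReal T hθ hθx] at h
  refine h.trans (add_le_add le_rfl (mul_le_mul_of_nonneg_left ?_ ?_))
  · -- bad mass
    have hfin : mE T U x θ (badT T U (T.rt n) K) ≠ ∞ := by
      refine ne_top_of_le_ne_top (mass_Top_fin T U hθ hθx hx K (T.rt n).2) (mE_mono ?_)
      exact fun g hg => hg.1
    set F : G → ℝ≥0∞ := Set.indicator (badT T U (T.rt n) K)
      (fun g => ENNReal.ofReal (Wt T U x θ g)) with hF
    have h1 : ∀ g : S, Set.indicator {g : S | ¬ TameP T U (T.rt n) (lastE T U (T.rt n) g.1)}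
        (fun g : S => Wt T U x θ g.1) g = (F g.1).toReal := by
      intro g
      by_cases hg : TameP T U (T.rt n) (lastE T U (T.rt n) g.1)
      · rw [Set.indicator_of_notMem (by simpa using hg), hF,
          Set.indicator_of_notMem (fun h => h.2 hg), ENNReal.toReal_zero]
      · rw [Set.indicator_of_mem (by simpa using hg), hF,
          Set.indicator_of_mem (show g.1 ∈ badT T U (T.rt n) K from ⟨g.2, hg⟩),
          ENNReal.toReal_ofReal (hW0 g).le]
    have h2 : ∑' g : S, F g.1 ≤ mE T U x θ (badT T U (T.rt n) K) := by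
      have h3 : mE T U x θ (badT T U (T.rt n) K) = ∑' g, F g := by
        unfold mE
        rw [hF, ← tsum_subtype (badT T U (T.rt n) K) (fun g => ENNReal.ofReal (Wt T U x θ g))]
      rw [h3]
      exact ENNReal.tsum_comp_le_tsum_of_injective Subtype.val_injective F
    have hFt : ∀ g : S, F g.1 ≠ ∞ := by
      intro g
      rw [hF, Set.indicator_apply]
      split_ifs
      · exact ENNReal.ofReal_ne_top
      · exact ENNReal.zero_ne_top
    rw [tsum_congr h1, ← ENNReal.tsum_toReal_eq hFt]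
    exact ENNReal.toReal_mono hfin h2
  · have : 0 < κ⁻¹ := inv_pos.2 hκ
    positivity

theorem no_UA_TX_aux (T : TX G) (U : UA G)
    (hbad : ∀ (m : ℕ) (η : ℝ), 0 < η → ∃ J T0 C : ℕ, ∀ x θ : ℝ, 0 < θ → θ ≤ x → x < 1 → ∃ n ≤ J,
      ENNReal.ofReal (θ ^ C) * mE T U x θ (BG T U n m T0) ≤
        ENNReal.ofReal η * mE T U x θ (flat T.toTreeX T.o))
    (hnts : ∀ (m T0 J : ℕ) (η θ : ℝ), 0 < η → 0 < θ → θ < 1 → ∃ x0 : ℝ, x0 < 1 ∧
      ∀ x : ℝ, x0 ≤ x → θ ≤ x → x < 1 → ∀ n ≤ J, ∀ m' ≤ m,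
      mE T U x θ (NTS T U n m' T0) ≤ ENNReal.ofReal η * mE T U x θ (flat T.toTreeX T.o))
    (hpf : ∀ (Z : Type) [Fintype Z] (F d : ℝ) (om κ : ℂ), 0 ≤ F → 0 < d →
      ‖om‖ = 1 → (∀ n : ℕ, 0 < n → om ^ n ≠ 1) → κ ≠ 0 →
      ∃ (M0 : ℕ) (ε : ℝ), 0 < ε ∧
      ∀ (M : Z → Z → ℝ≥0∞) (K : ℕ → Z → ℝ≥0∞) (L L1 L2 : Z → ℝ≥0∞) (u : ℂ),
        (∀ m z, K (m + 1) z = ∑ z', M z z' * K m z') →
        (∀ z, L1 z ≤ ENNReal.ofReal (2 * F) * L z) → (∀ z, L2 z ≤ ENNReal.ofReal (2 * F) * L z) →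
        ‖u‖ = 1 → (∀ m, ∑ z, L z * K m z ≠ ∞) → (0 < ∑ z, L z * K 0 z) →
        (∀ m, m < M0 → |(∑ z, L z * K (m + 1) z).toReal - d * (∑ z, L z * K m z).toReal| ≤
          ε * (∑ z, L z * K m z).toReal) →
        (∀ m, m ≤ M0 →
          ‖((((∑ z, L1 z * K m z).toReal - F * (∑ z, L z * K m z).toReal : ℝ) : ℂ) +
            (((∑ z, L2 z * K m z).toReal - F * (∑ z, L z * K m z).toReal : ℝ) : ℂ) * Complex.I) -
            u * om ^ m * κ * (((∑ z, L z * K m z).toReal : ℝ) : ℂ)‖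
            ≤ ε * (∑ z, L z * K m z).toReal) → False) : False := by
  obtain ⟨PU⟩ := Pool.Agent.TH111.J720.exists_pair U T.c
  obtain ⟨D, hDfin, hD⟩ := U.ft' T.c
  obtain ⟨k, hk⟩ : ∃ k : ℕ, ∀ d ∈ D, T.nm d ≤ k := by
    obtain ⟨k, hk⟩ := (hDfin.image T.nm).bddAbove
    exact ⟨k, fun d hd => hk ⟨d, hd, rfl⟩⟩
  obtain ⟨F, hF0, hF⟩ := tame_F T U
  have hd : 0 < T.d := by
    rw [← T.ch_card T.o, Set.ncard_pos (T.ch_fin T.o)]
    refine ⟨T.side 0, ?_⟩
    have := T.side_E 0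
    rwa [T.trunk_zero] at this
  obtain ⟨M0, ε, hε, hPF⟩ := hpf (Nd T.toTreeX PU.P) F T.d T.om (T.p T.c) hF0
    (by exact_mod_cast hd) T.om_norm T.om_pow T.c_p
  set M := k + M0 with hM
  obtain ⟨Cs, hCs, hphi⟩ := phi_bd T U M
  set η : ℝ := ε / (36 * (2 * Cs + ‖T.p T.c‖ + 1)) with hη
  have hden : 0 < 36 * (2 * Cs + ‖T.p T.c‖ + 1) := by positivity
  have hη0 : 0 < η := by rw [hη]; positivity
  obtain ⟨J, T0, C1, hB⟩ := hbad M η hη0
  obtain ⟨C2, hlev⟩ := mass_lev T U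
  obtain ⟨C3, hrt⟩ := mass_rt T U
  obtain ⟨C4, hlip⟩ := Wt_lip2 T U {T.c} (Set.finite_singleton _)
  set Cm := C1 + C2 + C3 * (J + 1 + M) + C4 with hCm
  set δ : ℝ := min 1 (min (ε / (2 * (Cs + 1))) (ε / (T.d + 1))) with hδ
  have hδ0 : 0 < δ := by rw [hδ]; positivity
  have hδ1 : δ ≤ 1 := min_le_left _ _
  have hδ2 : Cs * δ ≤ ε / 2 := by
    have h1 : δ ≤ ε / (2 * (Cs + 1)) := (min_le_right _ _).trans (min_le_left _ _)
    calc Cs * δ ≤ Cs * (ε / (2 * (Cs + 1))) := mul_le_mul_of_nonneg_left h1 hCs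
      _ = (Cs / (Cs + 1)) * (ε / 2) := by field_simp
      _ ≤ 1 * (ε / 2) := by
          apply mul_le_mul_of_nonneg_right _ (by positivity)
          rw [div_le_one (by positivity)]; linarith
      _ = _ := one_mul _
  have hδ3 : (T.d : ℝ) * δ ≤ ε := by
    have h1 : δ ≤ ε / (T.d + 1) := (min_le_right _ _).trans (min_le_right _ _)
    calc (T.d : ℝ) * δ ≤ T.d * (ε / (T.d + 1)) := mul_le_mul_of_nonneg_left h1 (by positivity)
      _ = ((T.d : ℝ) / (T.d + 1)) * ε := by field_simp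
      _ ≤ 1 * ε := by
          apply mul_le_mul_of_nonneg_right _ hε.le
          rw [div_le_one (by positivity)]; linarith
      _ = _ := one_mul _
  obtain ⟨θ, hθ, hθ1, hθC⟩ := pow_near Cm δ hδ0
  have hpw : ∀ C ≤ Cm, (θ ^ C)⁻¹ ≤ 1 + δ := by
    intro C hC
    refine le_trans ?_ hθC
    apply inv_anti₀ (by positivity)
    exact pow_le_pow_of_le_one hθ.le hθ1.le hC
  have hpw2 : ∀ C ≤ Cm, ∀ a b : ℝ≥0∞, ENNReal.ofReal (θ ^ C) * a ≤ b → a ≤ 2 * b := by
    intro C hC a b hab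
    have h1 : (1 : ℝ≥0∞) ≤ 2 * ENNReal.ofReal (θ ^ C) := by
      have h2 := hpw C hC
      have h3 : (0 : ℝ) < θ ^ C := by positivity
      have h4 : 1 ≤ 2 * θ ^ C := by
        rw [inv_le_iff_one_le_mul₀ h3] at h2
        nlinarith
      have h5 : (2 : ℝ≥0∞) = ENNReal.ofReal 2 := by simp
      rw [h5, ← ENNReal.ofReal_mul (by norm_num)]
      exact ENNReal.one_le_ofReal.2 h4
    calc a = 1 * a := (one_mul a).symm
      _ ≤ (2 * ENNReal.ofReal (θ ^ C)) * a := mul_le_mul_left h1 _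
      _ = 2 * (ENNReal.ofReal (θ ^ C) * a) := by ring
      _ ≤ 2 * b := mul_le_mul_right hab _
  obtain ⟨x0, hx0, hN⟩ := hnts M T0 J η θ hη0 hθ hθ1
  set x := max x0 θ with hx
  have hx1 : x < 1 := max_lt hx0 hθ1
  have hθx : θ ≤ x := le_max_right _ _
  have hx00 : x0 ≤ x := le_max_left _ _
  have hxpos : 0 < x := hθ.trans_le hθx
  obtain ⟨n, hnJ, hBn⟩ := hB x θ hθ hθx hx1
  have he := TreeX.rt_IsE (T := T.toTreeX) n
  have ho := TreeX.rt_one (T := T.toTreeX) n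
  -- lower bound on the masses
  have hmass : ∀ m ≤ M, mE T U x θ (flat T.toTreeX T.o) ≤
      2 * mE T U x θ (Top T.toTreeX m (T.rt n).2) := by
    intro m hm
    apply hpw2 (C3 * (n + 1 + m))
    · have : C3 * (n + 1 + m) ≤ C3 * (J + 1 + M) := Nat.mul_le_mul_left _ (by omega)
      omega
    · refine le_trans ?_ (hrt x θ hθ hθx hx1.le n m).1
      apply mul_le_mul_right
      calc mE T U x θ (flat T.toTreeX T.o) = 1 * mE T U x θ (flat T.toTreeX T.o) := (one_mul _).symm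
        _ ≤ _ := mul_le_mul_left (one_le_pow₀ (by exact_mod_cast hd)) _
  have hbadm : ∀ m ≤ M, mE T U x θ (badT T U (T.rt n) m) ≤
      ENNReal.ofReal (6 * η) * mE T U x θ (Top T.toTreeX m (T.rt n).2) := by
    intro m hm
    have h1 : mE T U x θ (BG T U n M T0) ≤ 2 * (ENNReal.ofReal η * mE T U x θ (flat T.toTreeX T.o)) :=
      hpw2 C1 (by omega) _ _ hBn
    have h2 := hN x hx00 hθx hx1 n hnJ m hm
    have h6 : ENNReal.ofReal (6 * η) = 6 * ENNReal.ofReal η := by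
      rw [ENNReal.ofReal_mul (by norm_num)]
      simp
    calc mE T U x θ (badT T U (T.rt n) m)
        ≤ mE T U x θ (BG T U n M T0 ∪ NTS T U n m T0) := mE_mono (badT_sub T n m M T0 hm)
      _ ≤ mE T U x θ (BG T U n M T0) + mE T U x θ (NTS T U n m T0) := mE_union_le _ _
      _ ≤ 2 * (ENNReal.ofReal η * mE T U x θ (flat T.toTreeX T.o)) +
          ENNReal.ofReal η * mE T U x θ (flat T.toTreeX T.o) := add_le_add h1 h2
      _ = 3 * (ENNReal.ofReal η * mE T U x θ (flat T.toTreeX T.o)) := by ring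
      _ ≤ 3 * (ENNReal.ofReal η * (2 * mE T U x θ (Top T.toTreeX m (T.rt n).2))) := by
          gcongr
          exact hmass m hm
      _ = ENNReal.ofReal (6 * η) * mE T U x θ (Top T.toTreeX m (T.rt n).2) := by
          rw [h6]; ring
  have hkey := hPF (MM T PU x θ) (KK T PU x θ) (LL T PU x θ k (T.rt n) (fun _ => 1))
    (LL T PU x θ k (T.rt n) (fun P => ENNReal.ofReal (min ((DFw T PU (T.rt n) P).re + F) (2 * F))))
    (LL T PU x θ k (T.rt n) (fun P => ENNReal.ofReal (min ((DFw T PU (T.rt n) P).im + F) (2 * F))))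
    (T.om ^ (n + 1 + k))
  refine hkey (KK_succ T PU x θ) ?_ ?_ ?_ ?_ ?_ ?_ ?_
  · exact fun z => LL_le T PU x θ k _ _ _ (fun P => ENNReal.ofReal_le_ofReal (min_le_right _ _)) z
  · exact fun z => LL_le T PU x θ k _ _ _ (fun P => ENNReal.ofReal_le_ofReal (min_le_right _ _)) z
  · rw [norm_pow, T.om_norm, one_pow]
  · intro m
    rw [LL_one T PU hxpos.le hθ.le k m he ho]
    exact mass_Top_fin T U hθ hθx hx1 _ _
  · rw [LL_one T PU hxpos.le hθ.le k 0 he ho]
    have h1 := hmass (k + 0) (by omega)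
    have h2 := mass_pos T U hθ hθx T.o
    by_contra hn
    rw [not_lt, nonpos_iff_eq_zero] at hn
    rw [hn, mul_zero, nonpos_iff_eq_zero] at h1
    exact absurd h1 h2.ne'
  · intro m hm
    rw [LL_one T PU hxpos.le hθ.le k (m + 1) he ho, LL_one T PU hxpos.le hθ.le k m he ho]
    obtain ⟨h1, h2⟩ := (hlev x θ hθ hθx hx1.le).2 (k + m) (T.rt n).2
    have hf1 := mass_Top_fin T U hθ hθx hx1 (k + m) (T.rt n).2
    have hf2 := mass_Top_fin T U hθ hθx hx1 (k + m + 1) (T.rt n).2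
    have e1 : k + (m + 1) = k + m + 1 := by ring
    rw [e1]
    set A := mE T U x θ (Top T.toTreeX (k + m) (T.rt n).2) with hA
    set B := mE T U x θ (Top T.toTreeX (k + m + 1) (T.rt n).2) with hB
    have hθ2 : (0 : ℝ) < θ ^ C2 := by positivity
    have h3 : θ ^ C2 * (T.d * A.toReal) ≤ B.toReal := by
      have := ENNReal.toReal_mono hf2 h1
      rwa [ENNReal.toReal_mul, ENNReal.toReal_mul, ENNReal.toReal_ofReal hθ2.le,
        ENNReal.toReal_natCast] at this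
    have h4 : θ ^ C2 * B.toReal ≤ T.d * A.toReal := by
      have := ENNReal.toReal_mono (ENNReal.mul_ne_top (ENNReal.natCast_ne_top _) hf1) h2
      rwa [ENNReal.toReal_mul, ENNReal.toReal_mul, ENNReal.toReal_ofReal hθ2.le,
        ENNReal.toReal_natCast] at this
    have hA0 : 0 ≤ A.toReal := ENNReal.toReal_nonneg
    have h5 := hpw C2 (by omega)
    have h6 : B.toReal ≤ (1 + δ) * (T.d * A.toReal) := by
      have h7 : B.toReal ≤ (θ ^ C2)⁻¹ * (T.d * A.toReal) := by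
        rw [← div_eq_inv_mul, le_div_iff₀ hθ2, mul_comm]
        exact h4
      exact h7.trans (mul_le_mul_of_nonneg_right h5 (by positivity))
    have h8 : 1 - δ ≤ θ ^ C2 := by
      have h9 : (1 + δ)⁻¹ ≤ θ ^ C2 := inv_le_of_inv_le₀ hθ2 h5
      have h10 : 1 - δ ≤ (1 + δ)⁻¹ := by
        rw [← one_div, le_div_iff₀ (by positivity)]
        nlinarith [sq_nonneg δ]
      linarith
    have h11 : (1 - δ) * (T.d * A.toReal) ≤ B.toReal :=
      (mul_le_mul_of_nonneg_right h8 (by positivity)).trans h3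
    have h12 : (T.d : ℝ) * δ * A.toReal ≤ ε * A.toReal := mul_le_mul_of_nonneg_right hδ3 hA0
    rw [abs_le]
    constructor
    · nlinarith
    · nlinarith
  · intro m hm
    have hKM : k + m ≤ M := by omega
    have hDF : ∀ g ∈ Top T.toTreeX (k + m) (T.rt n).2, ‖DFw T PU (T.rt n) (nf PU.P g)‖ ≤ F :=
      fun g hg => DFw_bd T PU hF0 hF he ho hg
    have hpre : ∀ e' ∈ DE T.toTreeX k (T.rt n), ∀ P W,
        W ∈ WW T.toTreeX PU.P m (PU.P.run PU.P.s0 P) (rel T.toTreeX PU.P P e') →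
        DFw T PU (T.rt n) (nf PU.P (PU.P.ev (P ++ W))) = DFw T PU (T.rt n) P :=
      fun e' he' P W hW => DFw_prefix T PU hk hD he he' hW
    have r1 := LL_real T PU hθ hθx hx1 k m he ho F (fun P => (DFw T PU (T.rt n) P).re)
      (fun g => (DFw T PU (T.rt n) (nf PU.P g)).re)
      (fun g hg => (Complex.abs_re_le_norm _).trans (hDF g hg))
      (fun e' he' P W hW => by simp only [hpre e' he' P W hW])
    have r2 := LL_real T PU hθ hθx hx1 k m he ho F (fun P => (DFw T PU (T.rt n) P).im)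
      (fun g => (DFw T PU (T.rt n) (nf PU.P g)).im)
      (fun g hg => (Complex.abs_im_le_norm _).trans (hDF g hg))
      (fun e' he' P W hW => by simp only [hpre e' he' P W hW])
    rw [LL_one T PU hxpos.le hθ.le k m he ho, r1, r2]
    have hsum : Summable (fun g : Top T.toTreeX (k + m) (T.rt n).2 =>
        (Wt T U x θ g.1 : ℂ) * DFw T PU (T.rt n) (nf PU.P g.1)) := by
      refine Summable.of_norm_bounded
        ((Wt_summable T (U := U) hθ hθx hx1 (k + m) (T.rt n).2).mul_left F) fun g => ?_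
      rw [norm_mul, Complex.norm_real, Real.norm_eq_abs, abs_of_pos (Wt_pos T U hxpos hθ g.1),
        mul_comm]
      exact mul_le_mul_of_nonneg_right (hDF g.1 g.2) (Wt_pos T U hxpos hθ g.1).le
    rw [comb (fun g : Top T.toTreeX (k + m) (T.rt n).2 => Wt T U x θ g.1)
      (fun g => DFw T PU (T.rt n) (nf PU.P g.1)) hsum]
    have hκ : (0 : ℝ) < θ ^ C4 := by positivity
    have h1 := level_err T PU hCs hphi hθ hθx hx1 hκ (pow_le_one₀ hθ.le hθ1.le)
      (fun g => hlip x θ hθ hθx hx1.le g T.c rfl) n (k + m) hKM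
    have e1 : T.om ^ (n + 1 + k) * T.om ^ m * T.p T.c = T.om ^ (n + 1 + (k + m)) * T.p T.c := by
      rw [← pow_add]; congr 2; ring
    rw [e1]
    refine h1.trans ?_
    set A := mE T U x θ (Top T.toTreeX (k + m) (T.rt n).2) with hA
    have hAf : A ≠ ∞ := mass_Top_fin T U hθ hθx hx1 _ _
    have hA0 : 0 ≤ A.toReal := ENNReal.toReal_nonneg
    have h2 : (mE T U x θ (badT T U (T.rt n) (k + m))).toReal ≤ 6 * η * A.toReal := by
      have := ENNReal.toReal_mono (ENNReal.mul_ne_top ENNReal.ofReal_ne_top hAf) (hbadm _ hKM)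
      rwa [ENNReal.toReal_mul, ENNReal.toReal_ofReal (by positivity)] at this
    have h3 := hpw C4 (by omega)
    have h4 : Cs * ((θ ^ C4)⁻¹ - 1) * A.toReal ≤ ε / 2 * A.toReal := by
      apply mul_le_mul_of_nonneg_right _ hA0
      exact (mul_le_mul_of_nonneg_left (by linarith) hCs).trans hδ2
    have hb0 : 0 ≤ (mE T U x θ (badT T U (T.rt n) (k + m))).toReal := ENNReal.toReal_nonneg
    have h5 : (2 * Cs + ‖T.p T.c‖) * (1 + (θ ^ C4)⁻¹) *
        (mE T U x θ (badT T U (T.rt n) (k + m))).toReal ≤ ε / 2 * A.toReal := by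
      have hn0 : 0 ≤ ‖T.p T.c‖ := norm_nonneg _
      calc (2 * Cs + ‖T.p T.c‖) * (1 + (θ ^ C4)⁻¹) *
          (mE T U x θ (badT T U (T.rt n) (k + m))).toReal
          ≤ (2 * Cs + ‖T.p T.c‖) * 3 * (6 * η * A.toReal) := by
            apply mul_le_mul _ h2 hb0 (by positivity)
            apply mul_le_mul_of_nonneg_left _ (by positivity)
            linarith
        _ = (18 * (2 * Cs + ‖T.p T.c‖) * η) * A.toReal := by ring
        _ ≤ ε / 2 * A.toReal := by
            apply mul_le_mul_of_nonneg_right _ hA0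
            rw [hη, mul_div_assoc', div_le_iff₀ hden]
            nlinarith
    calc _ ≤ ε / 2 * A.toReal + ε / 2 * A.toReal := add_le_add h4 h5
      _ = ε * A.toReal := by ring

end

end Pool.Agent.TH109
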