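import Mathlib
import Pool.Agent.TH109.Fin4
import Pool.Agent.TH365.J789
import Pool.Agent.TH111.J790
import Pool.Agent.TH365.J791

set_option autoImplicit false

open scoped Classical ENNReal

namespace Pool.Agent.TH109

open Pool.Agent.Helper943.LM (UA)

/-- A group with a rotating (tree) x (flat) structure has no asynchronous-free unique
automatic structure. -/
theorem no_UA_TX {G : Type} [Group G] (T : TX G) (U : UA G) : False :=
  no_UA_TX_aux T U (Pool.Agent.TH365.J789.bad_avg T U)
    (Pool.Agent.TH111.J790.nts_small T U)
    (fun Z _ F d om κ hF hd hom hroot hκ =>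
      Pool.Agent.TH365.J791.pf_ennreal Z F d om κ hF hd hom hroot hκ)

end Pool.Agent.TH109
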