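import Mathlib
import Pool.Agent.TH109.Fin5
import Pool.Agent.TH111.J616
import Pool.Agent.TH111.J617
import Pool.Agent.TH553.J618
import Pool.Agent.TH553.J619
import Pool.Agent.TH350.J620
import Pool.Agent.TH553.J621
import Pool.Agent.TH553.J622
import Pool.Agent.TH111.J623
import Pool.Agent.TH350.J624
import Pool.Agent.TH350.J625
import Pool.Agent.TH365.J626
import Pool.Agent.TH553.J628
import Pool.Agent.TH111.J629
import Pool.Agent.TH111.J630
import Pool.Agent.TH260.J721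
import Pool.Agent.TH260.J722
import Pool.Agent.TH260.J723
import Pool.Agent.TH111.J724

set_option autoImplicit false

open scoped Classical

namespace Pool.Agent.TH109

open Pool.Agent.Helper943.LM (UA)

/-- rational coordinates -/
def qc {n : ℕ} (x : Multiplicative (Fin n → ℤ)) : Fin n → ℚ :=
  fun i => ((Multiplicative.toAdd x i : ℤ) : ℚ)

theorem qc_mul {n : ℕ} (x y : Multiplicative (Fin n → ℤ)) : qc (x * y) = qc x + qc y := by
  funext i
  simp [qc]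

theorem qc_one {n : ℕ} : qc (1 : Multiplicative (Fin n → ℤ)) = 0 := by
  funext i
  simp [qc]

theorem qc_inj {n : ℕ} {x y : Multiplicative (Fin n → ℤ)} (h : qc x = qc y) : x = y := by
  apply Multiplicative.toAdd.injective
  funext i
  have h1 : ((Multiplicative.toAdd x i : ℤ) : ℚ) = ((Multiplicative.toAdd y i : ℤ) : ℚ) :=
    congrFun h i
  exact_mod_cast h1

theorem norm_l {n : ℕ} (l : (Fin n → ℚ) →ₗ[ℚ] ℂ) (x y : Multiplicative (Fin n → ℤ)) :
    |‖l (qc (x * y))‖ - ‖l (qc x)‖| ≤ ‖l (qc y)‖ := by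
  rw [qc_mul, map_add]
  refine (abs_norm_sub_norm_le _ _).trans ?_
  rw [add_sub_cancel_left]

variable {n : ℕ} {A B : Subgroup (Multiplicative (Fin n → ℤ))} {φ : A ≃* B}

theorem upS_of (U : UA (HNNExtension (Multiplicative (Fin n → ℤ)) A B φ)) (hB : B ≠ ⊤)
    (l : (Fin n → ℚ) →ₗ[ℚ] ℂ) : UpS φ (fun x => ‖l (qc x)‖) := by
  obtain ⟨r, hr⟩ : ∃ r, r ∉ B := by
    by_contra h
    push Not at h
    exact hB ((Subgroup.eq_top_iff' B).2 h)
  obtain ⟨E⟩ := Pool.Agent.TH111.J616.hnn_len A B φ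
  exact Pool.Agent.TH350.J624.up_loop φ _ (by rw [qc_one, map_zero, norm_zero]) (norm_l l) r hr E
    (Pool.Agent.TH111.J623.areaS φ _ U)

theorem case_exp (U : UA (HNNExtension (Multiplicative (Fin n → ℤ)) A B φ)) (hA : A.index ≠ 0)
    (hB : B ≠ ⊤) (M : (Fin n → ℚ) ≃ₗ[ℚ] (Fin n → ℚ)) (hφ : ∀ x : A, qc (φ x) = M (qc x))
    (lam : ℂ) (l : (Fin n → ℚ) →ₗ[ℚ] ℂ) (hl : l ≠ 0) (hlam : 1 < ‖lam‖)
    (hlM : ∀ x, l (M x) = lam * l x) : False :=
  Pool.Agent.TH365.J626.up_exp A B φ hA M hφ lam l hl hlam hlM (upS_of U hB l)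

theorem case_jordan (U : UA (HNNExtension (Multiplicative (Fin n → ℤ)) A B φ)) (hA : A.index ≠ 0)
    (hB : B ≠ ⊤) (M : (Fin n → ℚ) ≃ₗ[ℚ] (Fin n → ℚ)) (hφ : ∀ x : A, qc (φ x) = M (qc x))
    (lam : ℂ) (l1 l2 : (Fin n → ℚ) →ₗ[ℚ] ℂ) (hl : l1 ≠ 0) (hlam : ‖lam‖ = 1)
    (hl1 : ∀ x, l1 (M x) = lam * l1 x) (hl2 : ∀ x, l2 (M x) = lam * l2 x + l1 x) : False :=
  Pool.Agent.TH365.J626.up_jordan A B φ hA M hφ lam l1 l2 hl hlam hl1 hl2 (upS_of U hB l2)

theorem case_exp_inv (U : UA (HNNExtension (Multiplicative (Fin n → ℤ)) A B φ))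
    (hB : B.index ≠ 0) (hA : A ≠ ⊤) (M : (Fin n → ℚ) ≃ₗ[ℚ] (Fin n → ℚ))
    (hφ : ∀ x : A, qc (φ x) = M (qc x))
    (lam : ℂ) (l : (Fin n → ℚ) →ₗ[ℚ] ℂ) (hl : l ≠ 0) (hlam0 : 0 < ‖lam‖) (hlam : ‖lam‖ < 1)
    (hlM : ∀ x, l (M x) = lam * l x) : False := by
  obtain ⟨f, -, -⟩ := Pool.Agent.TH553.J628.hnn_swap A B φ
  obtain ⟨U'⟩ := Pool.Agent.TH111.J629.ua_transfer f U
  have hlam' : lam ≠ 0 := norm_pos_iff.1 hlam0
  refine case_exp U' hB hA M.symm (fun x => ?_) lam⁻¹ l hl ?_ (fun x => ?_)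
  · have h := hφ (φ.symm x)
    rw [MulEquiv.apply_symm_apply] at h
    rw [h, LinearEquiv.symm_apply_apply]
  · rw [norm_inv]
    exact (one_lt_inv₀ hlam0).2 hlam
  · have h := hlM (M.symm x)
    rw [LinearEquiv.apply_symm_apply] at h
    rw [h, inv_mul_cancel_left₀ hlam']

/-- the index relation -/
theorem idx (hA : A.index ≠ 0) (M : (Fin n → ℚ) ≃ₗ[ℚ] (Fin n → ℚ))
    (hφ : ∀ x : A, qc (φ x) = M (qc x)) :
    B.index ≠ 0 ∧
      (B.index : ℚ) = |LinearMap.det (M : (Fin n → ℚ) →ₗ[ℚ] (Fin n → ℚ))| * (A.index : ℚ) := by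
  have hA' : (Subgroup.toAddSubgroup' A).index = A.index := rfl
  have hB' : (Subgroup.toAddSubgroup' B).index = B.index := rfl
  have h := Pool.Agent.TH553.J621.idx_rel n M (Subgroup.toAddSubgroup' A)
    (Subgroup.toAddSubgroup' B) (by rw [hA']; exact hA) ?_ ?_
  · rw [hA', hB'] at h
    exact h
  · intro x hx
    exact ⟨Multiplicative.toAdd (φ ⟨Multiplicative.ofAdd x, hx⟩ : Multiplicative (Fin n → ℤ)),
      hφ ⟨Multiplicative.ofAdd x, hx⟩⟩
  · intro y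
    constructor
    · intro hy
      set z : B := ⟨Multiplicative.ofAdd y, hy⟩ with hz
      refine ⟨Multiplicative.toAdd (φ.symm z : Multiplicative (Fin n → ℤ)), (φ.symm z).2, ?_⟩
      have h := hφ (φ.symm z)
      rw [MulEquiv.apply_symm_apply] at h
      exact h
    · rintro ⟨x, hx, h⟩
      have h1 := hφ ⟨Multiplicative.ofAdd x, hx⟩
      have h2 : qc (φ ⟨Multiplicative.ofAdd x, hx⟩ : Multiplicative (Fin n → ℤ)) =
          qc (Multiplicative.ofAdd y) := by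
        rw [h1]; exact h.symm
      have h3 := qc_inj h2
      have h4 := (φ ⟨Multiplicative.ofAdd x, hx⟩).2
      rw [h3] at h4
      exact h4

theorem one_lt_index (hA0 : A.index ≠ 0) (hA : A ≠ ⊤) : 1 < A.index := by
  have h : A.index ≠ 1 := fun h => hA (Subgroup.index_eq_one.1 h)
  omega

/-- `A ≠ ⊤`, `B = ⊤` -/
theorem case_Btop (U : UA (HNNExtension (Multiplicative (Fin n → ℤ)) A B φ)) (hA : A.index ≠ 0)
    (hA1 : A ≠ ⊤) (hB : B = ⊤) (M : (Fin n → ℚ) ≃ₗ[ℚ] (Fin n → ℚ))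
    (hφ : ∀ x : A, qc (φ x) = M (qc x)) : False := by
  obtain ⟨h1, h2⟩ := idx hA M hφ
  have hB1 : B.index = 1 := by rw [hB]; exact Subgroup.index_top
  have hA2 := one_lt_index hA hA1
  rw [hB1, Nat.cast_one] at h2
  have hdet : |LinearMap.det (M : (Fin n → ℚ) →ₗ[ℚ] (Fin n → ℚ))| < 1 := by
    by_contra hn
    push Not at hn
    have h3 : (1 : ℚ) < A.index := by exact_mod_cast hA2
    nlinarith
  obtain ⟨lam, l, hl, hlam0, hlam, hlM⟩ := Pool.Agent.TH553.J619.la_det_lt n M hdet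
  exact case_exp_inv U h1 hA1 M hφ lam l hl hlam0 hlam hlM

/-- `A = ⊤`, `B ≠ ⊤` -/
theorem case_Atop (U : UA (HNNExtension (Multiplicative (Fin n → ℤ)) A B φ)) (hA : A = ⊤)
    (hB : B ≠ ⊤) (M : (Fin n → ℚ) ≃ₗ[ℚ] (Fin n → ℚ))
    (hφ : ∀ x : A, qc (φ x) = M (qc x)) : False := by
  have hA1 : A.index = 1 := by rw [hA]; exact Subgroup.index_top
  have hA0 : A.index ≠ 0 := by rw [hA1]; exact one_ne_zero
  obtain ⟨f, -, -⟩ := Pool.Agent.TH553.J628.hnn_swap A B φ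
  obtain ⟨U'⟩ := Pool.Agent.TH111.J629.ua_transfer f U
  refine case_Btop U' (idx hA0 M hφ).1 hB hA M.symm (fun x => ?_)
  have h := hφ (φ.symm x)
  rw [MulEquiv.apply_symm_apply] at h
  rw [h, LinearEquiv.symm_apply_apply]

/-- both groups are everything -/
theorem case_unbr (U : UA (HNNExtension (Multiplicative (Fin n → ℤ)) A B φ)) (hA : A = ⊤)
    (hB : B = ⊤) (M : (Fin n → ℚ) ≃ₗ[ℚ] (Fin n → ℚ)) (hM : ∀ m : ℕ, 0 < m → M ^ m ≠ 1)
    (hφ : ∀ x : A, qc (φ x) = M (qc x)) : False := by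
  -- the automorphism
  set ψ : Multiplicative (Fin n → ℤ) ≃* Multiplicative (Fin n → ℤ) :=
    ((Subgroup.topEquiv.symm.trans (MulEquiv.subgroupCongr hA.symm)).trans φ).trans
      ((MulEquiv.subgroupCongr hB).trans Subgroup.topEquiv) with hψ
  have hψφ : ∀ x, ∃ h : x ∈ A, (φ ⟨x, h⟩ : Multiplicative (Fin n → ℤ)) = ψ x := by
    intro x
    exact ⟨by rw [hA]; exact Subgroup.mem_top x, rfl⟩
  have hψM : ∀ x, qc (ψ x) = M (qc x) := by
    intro x
    obtain ⟨h, hx⟩ := hψφ x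
    rw [← hx, hφ ⟨x, h⟩]
  -- a vector with infinite orbit
  obtain ⟨e, he⟩ : ∃ e : Multiplicative (Fin n → ℤ), ∀ k : ℕ, 0 < k → (ψ ^ k) e ≠ e := by
    by_contra hcon
    push Not at hcon
    choose k hk hke using hcon
    set m : ℕ := ∏ i : Fin n, k (Multiplicative.ofAdd (Pi.single i 1)) with hm
    have hm0 : 0 < m := Finset.prod_pos fun i _ => hk _
    have hψk : ∀ (j : ℕ) x, qc ((ψ ^ j) x) = (M ^ j) (qc x) := by
      intro j
      induction j with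
      | zero => intro x; rw [pow_zero, pow_zero]; rfl
      | succ j ih =>
        intro x
        have e1 : (ψ ^ (j + 1)) x = (ψ ^ j) (ψ x) := by rw [pow_succ]; rfl
        have e2 : (M ^ (j + 1)) (qc x) = (M ^ j) (M (qc x)) := by rw [pow_succ]; rfl
        rw [e1, e2, ih, hψM]
    apply hM m hm0
    apply LinearEquiv.toLinearMap_injective
    apply LinearMap.pi_ext'
    intro i
    apply LinearMap.ext_ring
    have h1 : qc (Multiplicative.ofAdd (Pi.single i 1 : Fin n → ℤ)) = Pi.single i 1 := by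
      funext j
      show (((Pi.single i 1 : Fin n → ℤ) j : ℤ) : ℚ) = (Pi.single i 1 : Fin n → ℚ) j
      rcases eq_or_ne j i with h | h
      · subst h; simp
      · simp [h]
    have h2 : ∀ j : ℕ, (ψ ^ (k (Multiplicative.ofAdd (Pi.single i 1)) * j))
        (Multiplicative.ofAdd (Pi.single i 1 : Fin n → ℤ)) =
        Multiplicative.ofAdd (Pi.single i 1 : Fin n → ℤ) := by
      intro j
      induction j with
      | zero => rw [Nat.mul_zero, pow_zero]; rfl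
      | succ j ih =>
        have e1 : (ψ ^ (k (Multiplicative.ofAdd (Pi.single i 1)) * (j + 1)))
            (Multiplicative.ofAdd (Pi.single i 1 : Fin n → ℤ)) =
            (ψ ^ (k (Multiplicative.ofAdd (Pi.single i 1)) * j))
            ((ψ ^ (k (Multiplicative.ofAdd (Pi.single i 1))))
            (Multiplicative.ofAdd (Pi.single i 1 : Fin n → ℤ))) := by
          rw [Nat.mul_succ, pow_add]; rfl
        rw [e1, hke, ih]
    obtain ⟨j, hj⟩ : k (Multiplicative.ofAdd (Pi.single i 1 : Fin n → ℤ)) ∣ m :=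
      Finset.dvd_prod_of_mem (fun i : Fin n => k (Multiplicative.ofAdd (Pi.single i 1)))
        (Finset.mem_univ i)
    show (M ^ m) (Pi.single i 1) = Pi.single i 1
    rw [← h1, ← hψk, hj, h2]
  refine Pool.Agent.TH350.J625.unbranched A B φ hA hB (fun j : ℤ => (ψ ^ j) e) ?_ ?_
    (Pool.Agent.TH111.J623.areaS φ _ U)
  · have key : ∀ a b : ℤ, a < b → (ψ ^ a) e ≠ (ψ ^ b) e := by
      intro a b hab h
      obtain ⟨k, hk⟩ : ∃ k : ℕ, b = a + k := ⟨(b - a).toNat, by omega⟩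
      have hk0 : 0 < k := by omega
      apply he k hk0
      rw [hk, zpow_add] at h
      have h2 : (ψ ^ a) e = (ψ ^ a) ((ψ ^ (k : ℤ)) e) := h
      have h3 := (ψ ^ a).injective h2
      rw [zpow_natCast] at h3
      exact h3.symm
    intro a b hab
    by_contra hne
    rcases lt_or_gt_of_ne hne with h | h
    · exact key a b h hab
    · exact key b a h hab.symm
  · intro j
    obtain ⟨h, hx⟩ := hψφ ((ψ ^ j) e)
    refine ⟨h, ?_⟩
    rw [hx, add_comm j 1, zpow_add, zpow_one]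
    rfl

/-- bounded powers -/
theorem case_bdd (U : UA (HNNExtension (Multiplicative (Fin n → ℤ)) A B φ)) (hA : A.index ≠ 0)
    (hAB : A ≠ ⊤ ∨ B ≠ ⊤) (M : (Fin n → ℚ) ≃ₗ[ℚ] (Fin n → ℚ))
    (hφ : ∀ x : A, qc (φ x) = M (qc x))
    (hbd : ∃ C : ℝ, ∀ (k : ℤ) (x : Fin n → ℚ) (i : Fin n),
        |(((M ^ k) x i : ℚ) : ℝ)| ≤ C * ∑ j, |((x j : ℚ) : ℝ)|)
    (om : ℂ) (l : (Fin n → ℚ) →ₗ[ℚ] ℂ) (hl : l ≠ 0) (hom : ‖om‖ = 1)
    (hroot : ∀ m : ℕ, 0 < m → om ^ m ≠ 1) (hlM : ∀ x, l (M x) = om * l x) : False := by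
  obtain ⟨hB, hidx⟩ := idx hA M hφ
  rw [Pool.Agent.TH350.J620.la_det_one n M hbd, one_mul] at hidx
  have hidx' : A.index = B.index := by exact_mod_cast hidx.symm
  have hBt : B ≠ ⊤ := by
    rcases hAB with h | h
    · intro hB'
      apply h
      rw [← Subgroup.index_eq_one, hidx', hB', Subgroup.index_top]
    · exact h
  obtain ⟨r, hr⟩ : ∃ r, r ∉ B := by
    by_contra h
    push Not at h
    exact hBt ((Subgroup.eq_top_iff' B).2 h)
  obtain ⟨E⟩ := Pool.Agent.TH111.J616.hnn_len A B φ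
  obtain ⟨T, -, hT1, hT2, -, tau_of, tau_t, hT3⟩ :=
    Pool.Agent.TH111.J630.hnn_tree A B φ hA hB r hr E
  obtain ⟨X, X_mul, X_of, X_t⟩ := Pool.Agent.TH260.J721.hnn_cocycle φ M hφ T.tau T.tau_mul
    tau_of tau_t
  obtain ⟨N, C, -, N_add, N_neg, N_M, N_ge, N_le⟩ := Pool.Agent.TH260.J722.inv_norm M hbd
  obtain ⟨β, Q1, hQ1, hβ⟩ := Pool.Agent.TH260.J723.hnn_adj φ hA hidx'
  obtain ⟨Λ0, hΛ, hΛ1, hΛ2, hΛ3, hΛ4⟩ := Pool.Agent.TH553.J622.vfin n M
    (Subgroup.toAddSubgroup' A) hA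
  obtain ⟨TT⟩ := Pool.Agent.TH111.J724.hnn_TX φ T (A.index + B.index + 1) hT1 hT2 hT3 tau_of tau_t
    M hφ X X_mul X_of X_t N C N_add N_neg N_M N_ge N_le β Q1 hQ1 hβ om l hl hom hroot hlM Λ0
    (fun x hx => hΛ hx) hΛ1 hΛ2 hΛ3 hΛ4
  exact no_UA_TX TT U

/-- HNN-extensions of `ℤ^n` by a matrix of infinite order are not automatic. -/
theorem main (U : UA (HNNExtension (Multiplicative (Fin n → ℤ)) A B φ)) (hA : A.index ≠ 0)
    (M : (Fin n → ℚ) ≃ₗ[ℚ] (Fin n → ℚ)) (hM : ∀ m : ℕ, 0 < m → M ^ m ≠ 1)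
    (hφ : ∀ x : A, qc (φ x) = M (qc x)) : False := by
  by_cases hAt : A = ⊤
  · by_cases hBt : B = ⊤
    · exact case_unbr U hAt hBt M hM hφ
    · exact case_Atop U hAt hBt M hφ
  · by_cases hBt : B = ⊤
    · exact case_Btop U hA hAt hBt M hφ
    · rcases Pool.Agent.TH553.J618.la_cases n M hM with
        ⟨lam, l, hl, hlam, hlM⟩ | ⟨lam, l, hl, hlam0, hlam, hlM⟩ |
        ⟨lam, l1, l2, hl, hlam, hl1, hl2⟩ | ⟨hbd, om, l, hl, hom, hroot, hlM⟩
      · exact case_exp U hA hBt M hφ lam l hl hlam hlM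
      · exact case_exp_inv U (idx hA M hφ).1 hAt M hφ lam l hl hlam0 hlam hlM
      · exact case_jordan U hA hBt M hφ lam l1 l2 hl hlam hl1 hl2
      · exact case_bdd U hA (Or.inl hAt) M hφ hbd om l hl hom hroot hlM

end Pool.Agent.TH109
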